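import Pool.Agent.H73.CR.B5

/-!
# CR R10: the logarithm of `psi`

`h u = ∑ cf l k u^k` on the unit disc does not vanish (`h 0 = 1`, `psi l w = w h(1/w) ≠ 0`); by `exists_log` on `ball 0 1` there is a holomorphic `e` with `exp (e u) = h u`, `e 0 = 0`.
`L τ = τ + e (exp (-τ))`. `‖e u‖ ≤ C ‖u‖` for `‖u‖ ≤ exp (-1)` (`e` is differentiable, `e 0 = 0`).
Injectivity: if `L τ = L τ'` then `psi l (exp τ) = psi l (exp τ')`, so `exp τ = exp τ'` (`psi_injOn`), `e (exp (-τ)) = e (exp (-τ'))` and `τ = τ'`.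
Doubling: `psi l (w^2) = f l (psi l w) = psi l w * (psi l w + l) = - psi l w * psi l (-w)` (`psi_neg`), so `h (u^2) = h u * h (-u)`; `E u = e (u^2) - e u - e (-u)` satisfies
`exp (E u) = 1` and `E 0 = 0`, so its derivative vanishes and `E = 0` on the disc.
-/

set_option autoImplicit false

open Set Filter Topology

namespace Pool.Agent.CR

/-- the power series -/
private noncomputable def R10_h (l u : ℂ) : ℂ := ∑' k : ℕ, cf l k * u ^ k

private lemma R10_psi (l w : ℂ) : psi l w = w * R10_h l w⁻¹ := rfl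

private lemma R10_h0 (l : ℂ) : R10_h l 0 = 1 := by
  unfold R10_h
  rw [tsum_eq_single 0]
  · rw [pow_zero, mul_one, cf_zero]
  · intro k hk
    rw [zero_pow hk, mul_zero]

private lemma R10_diff {l : ℂ} (hl : ‖l‖ ≤ 1) : DifferentiableOn ℂ (R10_h l) (Metric.ball 0 1) := by
  intro u hu
  rw [mem_ball_zero_iff] at hu
  obtain ⟨r, hr1, hr2⟩ := exists_between hu
  have hr0 : 0 ≤ r := (norm_nonneg u).trans hr1.le
  have hd : DifferentiableOn ℂ (R10_h l) (Metric.ball 0 r) := by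
    refine Complex.differentiableOn_tsum_of_summable_norm (u := fun k : ℕ => 2 * r ^ k)
      ((summable_geometric_of_lt_one hr0 hr2).mul_left 2) (fun k => ?_) Metric.isOpen_ball
      (fun k z hz => ?_)
    · exact ((differentiable_id.pow k).const_mul (cf l k)).differentiableOn
    · rw [mem_ball_zero_iff] at hz
      rw [norm_mul, norm_pow]
      exact mul_le_mul (norm_cf_le hl k) (pow_le_pow_left₀ (norm_nonneg _) hz.le k) (by positivity)
        (by norm_num)
  exact (hd.differentiableAt (Metric.isOpen_ball.mem_nhds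
    (mem_ball_zero_iff.2 hr1))).differentiableWithinAt

private lemma R10_inv {u : ℂ} (hu : ‖u‖ < 1) (h0 : u ≠ 0) : 1 < ‖u⁻¹‖ := by
  rw [norm_inv]
  exact one_lt_inv_iff₀.2 ⟨norm_pos_iff.2 h0, hu⟩

private lemma R10_ne {l u : ℂ} (hl : ‖l‖ ≤ 1) (hu : ‖u‖ < 1) : R10_h l u ≠ 0 := by
  by_cases h0 : u = 0
  · rw [h0, R10_h0]
    exact one_ne_zero
  · intro h
    apply psi_ne_zero hl (R10_inv hu h0)
    rw [R10_psi, inv_inv, h, mul_zero]

private lemma R10_dbl {l u : ℂ} (hl : ‖l‖ ≤ 1) (hu : ‖u‖ < 1) :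
    R10_h l (u ^ 2) = R10_h l u * R10_h l (-u) := by
  by_cases h0 : u = 0
  · rw [h0, neg_zero, zero_pow (by norm_num), R10_h0, mul_one]
  · have h1 := psi_f hl (R10_inv hu h0)
    have h2 := psi_neg hl (R10_inv hu h0)
    have e1 : psi l (u⁻¹ ^ 2) = u⁻¹ ^ 2 * R10_h l (u ^ 2) := by
      rw [R10_psi, ← inv_pow, inv_inv]
    have e2 : psi l u⁻¹ = u⁻¹ * R10_h l u := by rw [R10_psi, inv_inv]
    have e3 : psi l (-u⁻¹) = -u⁻¹ * R10_h l (-u) := by
      rw [R10_psi, ← neg_inv, inv_inv]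
    rw [e1, e2] at h1
    rw [e2, e3] at h2
    unfold f at h1
    have h3 : u⁻¹ ^ 2 * R10_h l (u ^ 2) = u⁻¹ ^ 2 * (R10_h l u * R10_h l (-u)) := by
      have h4 : l = -(u⁻¹ * R10_h l u + -u⁻¹ * R10_h l (-u)) := by rw [h2, neg_neg]
      rw [← h1]
      linear_combination (u⁻¹ * R10_h l u) * h4
    exact mul_left_cancel₀ (pow_ne_zero 2 (inv_ne_zero h0)) h3

private lemma R10_norm (τ : ℂ) : ‖Complex.exp (-τ)‖ = Real.exp (-τ.re) := by
  rw [Complex.norm_exp, Complex.neg_re]

private lemma R10_lt {τ : ℂ} (h : 0 < τ.re) : ‖Complex.exp (-τ)‖ < 1 := by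
  rw [R10_norm]
  exact Real.exp_lt_one_iff.2 (by linarith)

private lemma R10_one_lt {τ : ℂ} (h : 0 < τ.re) : 1 < ‖Complex.exp τ‖ := by
  rw [Complex.norm_exp]
  exact Real.one_lt_exp_iff.2 h

theorem exists_rlog {l : ℂ} (hl : ‖l‖ ≤ 1) : ∃ L : ℂ → ℂ, DifferentiableOn ℂ L {τ | 0 < τ.re} ∧
    (∀ τ : ℂ, 0 < τ.re → Complex.exp (L τ) = psi l (Complex.exp τ)) ∧
    (∀ τ : ℂ, 0 < τ.re → ∀ n : ℤ, L (τ + 2 * Real.pi * n * Complex.I) = L τ + 2 * Real.pi * n * Complex.I) ∧
    (∀ τ τ' : ℂ, 0 < τ.re → 0 < τ'.re → L τ = L τ' → τ = τ') ∧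
    (∀ τ : ℂ, 0 < τ.re → L (2 * τ) = L τ + L (τ + Real.pi * Complex.I) - Real.pi * Complex.I) ∧
    ∃ C : ℝ, ∀ τ : ℂ, 1 ≤ τ.re → ‖L τ - τ‖ ≤ C * Real.exp (-τ.re) := by
  have hcx : Convex ℝ (Metric.ball (0 : ℂ) 1) := convex_ball 0 1
  obtain ⟨e, he1, he2, he3⟩ := exists_log Metric.isOpen_ball hcx (R10_diff hl)
    (fun z hz => R10_ne hl (mem_ball_zero_iff.1 hz)) (x0 := 0) (s0 := 0)
    (Metric.mem_ball_self one_pos) (by rw [R10_h0, Complex.exp_zero])
  have hexp : ∀ τ : ℂ, 0 < τ.re →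
      Complex.exp (τ + e (Complex.exp (-τ))) = psi l (Complex.exp τ) := by
    intro τ hτ
    rw [Complex.exp_add, he2 _ (mem_ball_zero_iff.2 (R10_lt hτ)), R10_psi, Complex.exp_neg]
  -- the doubling relation
  have hE : ∀ u ∈ Metric.ball (0 : ℂ) 1, e (u ^ 2) - e u - e (-u) = 0 := by
    have hm2 : ∀ u ∈ Metric.ball (0 : ℂ) 1, u ^ 2 ∈ Metric.ball (0 : ℂ) 1 := by
      intro u hu
      rw [mem_ball_zero_iff] at hu ⊢
      rw [norm_pow]
      exact pow_lt_one₀ (norm_nonneg _) hu (by norm_num)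
    have hmn : ∀ u ∈ Metric.ball (0 : ℂ) 1, -u ∈ Metric.ball (0 : ℂ) 1 := by
      intro u hu
      rw [mem_ball_zero_iff] at hu ⊢
      rwa [norm_neg]
    have hd : DifferentiableOn ℂ (fun u => e (u ^ 2) - e u - e (-u)) (Metric.ball 0 1) := by
      refine ((he1.comp (differentiable_id.pow 2).differentiableOn hm2).sub he1).sub ?_
      exact he1.comp differentiable_id.neg.differentiableOn hmn
    have hone : ∀ u ∈ Metric.ball (0 : ℂ) 1, Complex.exp (e (u ^ 2) - e u - e (-u)) = 1 := by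
      intro u hu
      rw [Complex.exp_sub, Complex.exp_sub, he2 _ (hm2 u hu), he2 _ hu, he2 _ (hmn u hu),
        R10_dbl hl (mem_ball_zero_iff.1 hu)]
      have n1 := R10_ne hl (mem_ball_zero_iff.1 hu)
      have n2 := R10_ne hl (mem_ball_zero_iff.1 (hmn u hu))
      field_simp
    have hder : (Metric.ball (0 : ℂ) 1).EqOn (deriv (fun u => e (u ^ 2) - e u - e (-u))) 0 := by
      intro u hu
      have hn : Metric.ball (0 : ℂ) 1 ∈ 𝓝 u := Metric.isOpen_ball.mem_nhds hu
      have h1 := (hd.differentiableAt hn).hasDerivAt.cexp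
      have h2 : (fun u => Complex.exp (e (u ^ 2) - e u - e (-u))) =ᶠ[𝓝 u] fun _ => 1 := by
        filter_upwards [hn] with z hz using hone z hz
      have h3 := (hasDerivAt_const u (1 : ℂ)).congr_of_eventuallyEq h2
      have h4 := h1.unique h3
      rw [hone u hu, one_mul] at h4
      exact h4
    intro u hu
    have h5 := Metric.isOpen_ball.is_const_of_deriv_eq_zero hcx.isPreconnected hd hder hu
      (Metric.mem_ball_self one_pos)
    have h6 : e ((0 : ℂ) ^ 2) - e 0 - e (-0) = 0 := by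
      rw [zero_pow (by norm_num), neg_zero, he3]
      simp
    exact h5.trans h6
  refine ⟨fun τ => τ + e (Complex.exp (-τ)), ?_, hexp, ?_, ?_, ?_, ?_⟩
  · refine differentiable_id.differentiableOn.add (he1.comp ?_ fun τ hτ =>
      mem_ball_zero_iff.2 (R10_lt hτ))
    exact (Complex.differentiable_exp.comp differentiable_id.neg).differentiableOn
  · intro τ _ n
    have h1 : Complex.exp (-(τ + 2 * Real.pi * n * Complex.I)) = Complex.exp (-τ) := by
      rw [Complex.exp_eq_exp_iff_exists_int]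
      refine ⟨-n, ?_⟩
      push_cast
      ring
    simp only [h1]
    ring
  · intro τ τ' hτ hτ' h
    have h1 := congrArg Complex.exp h
    simp only [] at h1 h
    rw [hexp τ hτ, hexp τ' hτ'] at h1
    have h2 := psi_injOn hl (R10_one_lt hτ) (R10_one_lt hτ') h1
    have h3 : Complex.exp (-τ) = Complex.exp (-τ') := by
      rw [Complex.exp_neg, Complex.exp_neg, h2]
    rw [h3] at h
    exact add_right_cancel h
  · intro τ hτ
    have h1 := hE _ (mem_ball_zero_iff.2 (R10_lt hτ))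
    have h2 : Complex.exp (-(2 * τ)) = Complex.exp (-τ) ^ 2 := by
      rw [← Complex.exp_nat_mul]
      congr 1
      push_cast
      ring
    have h3 : Complex.exp (-(τ + Real.pi * Complex.I)) = -Complex.exp (-τ) := by
      rw [neg_add, Complex.exp_add, Complex.exp_neg (Real.pi * Complex.I), Complex.exp_pi_mul_I]
      norm_num
    simp only [h2, h3]
    linear_combination h1
  · have hc : ContinuousOn (dslope e 0) (Metric.ball 0 1) := by
      rw [continuousOn_dslope (Metric.ball_mem_nhds 0 one_pos)]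
      exact ⟨he1.continuousOn, he1.differentiableAt (Metric.ball_mem_nhds 0 one_pos)⟩
    have hsub : Metric.closedBall (0 : ℂ) (Real.exp (-1)) ⊆ Metric.ball 0 1 :=
      Metric.closedBall_subset_ball (Real.exp_lt_one_iff.2 (by norm_num))
    obtain ⟨C, hC⟩ := (isCompact_closedBall (0 : ℂ) (Real.exp (-1))).exists_bound_of_continuousOn
      (hc.mono hsub)
    refine ⟨C, fun τ hτ => ?_⟩
    have h1 : Complex.exp (-τ) ∈ Metric.closedBall (0 : ℂ) (Real.exp (-1)) := by
      rw [mem_closedBall_zero_iff, R10_norm]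
      exact Real.exp_le_exp.2 (by linarith)
    have h2 := hC _ h1
    have h3 := sub_smul_dslope e 0 (Complex.exp (-τ))
    rw [he3, sub_zero, sub_zero, smul_eq_mul] at h3
    rw [add_sub_cancel_left, ← h3, norm_mul, R10_norm, mul_comm]
    exact mul_le_mul_of_nonneg_right h2 (Real.exp_pos _).le

end Pool.Agent.CR
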