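import Pool.Agent.H68.CR.R3

/-!
# CR R5: parabolic germs `F z = z + z^(k+1) G z`; the coordinate `Y = -1/(k A z^k)`

`Yc_step`: `F z = z (1 + u)`, `u = z^k G z`, so for small `z ≠ 0`: `Yc (F z) - Yc z - 1 = Yc z * ((1+u)⁻¹^k - 1) - 1`. With `(1+u)⁻¹^k = 1 - k u + O(|u|^2)` and
`Yc z * (-k u) = G z / A = 1 + O(|z|)`, `‖Yc z‖ * |u|^2 = O(|z|^k)`. (`G` is differentiable at `0`, so `‖G z - A‖ ≤ C ‖z‖` near `0`.)
`petal`: `‖z‖ = (k ‖A‖ ‖Yc z‖)^(-1/k)`, so `‖z‖` is small if `Re (Yc z) ≥ R0`; choose `R0` so that `C ‖z‖ ≤ 1/2` then; induction.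
`norm_iter_le` follows.
`exists_par`: `l = mu (p/q)` is a primitive `q`-th root of unity; `F = (f l)^[q]`, `F z - z` is a polynomial of degree `2^q ≥ 2`, not zero,
with value `0` and derivative `l^q - 1 = 0` at `0` (`iter_hasDerivAt_zero`): `F z - z = z^(k+1) G z`, `k ≥ 1`, `G 0 ≠ 0` (root multiplicity). `f ∘ F = F ∘ f`:
`f (z + z^(k+1) G z) = f z + f z^(k+1) G (f z)`; divide by `z^(k+1)` and let `z → 0`: `l * A = l^(k+1) * A`; so `l^k = 1` and `q ∣ k`.
-/

set_option autoImplicit false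

open Set Filter Topology

namespace Pool.Agent.CR

/-- `F z = z + z^(k+1) G z`, `G 0 = A ≠ 0`. -/
structure Par (F : ℂ → ℂ) (A : ℂ) (k : ℕ) : Prop where
  one_le : 1 ≤ k
  ne_zero : A ≠ 0
  ex : ∃ G : ℂ → ℂ, Differentiable ℂ G ∧ G 0 = A ∧ ∀ z, F z = z + z ^ (k + 1) * G z

/-- The coordinate `-1/(k A z^k)`. -/
noncomputable def Yc (A : ℂ) (k : ℕ) (z : ℂ) : ℂ := -1 / (k * A * z ^ k)

theorem norm_Yc (A : ℂ) (k : ℕ) (z : ℂ) : ‖Yc A k z‖ = 1 / (k * ‖A‖ * ‖z‖ ^ k) := by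
  unfold Yc
  rw [norm_div, norm_neg, norm_one, norm_mul, norm_mul, norm_pow, Complex.norm_natCast]

/-- second order expansion of `(1+u)^(-k)` -/
private theorem R5_exp (k : ℕ) : ∃ C : ℝ, 0 ≤ C ∧ ∀ u : ℂ, ‖u‖ ≤ 1 / 2 →
    ‖((1 + u) ^ k)⁻¹ - 1 + k * u‖ ≤ C * ‖u‖ ^ 2 := by
  induction k with
  | zero => exact ⟨0, le_rfl, fun u _ => by simp⟩
  | succ k ih =>
    obtain ⟨C, hC, h⟩ := ih
    refine ⟨2 * (C + (k + 1)), by positivity, fun u hu => ?_⟩
    have h1 : 1 / 2 ≤ ‖1 + u‖ := by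
      have h2 : ‖(1 : ℂ)‖ ≤ ‖1 + u‖ + ‖u‖ := by
        have := norm_sub_le (1 + u) u
        rwa [add_sub_cancel_right] at this
      rw [norm_one] at h2
      linarith
    have h0 : (1 + u) ≠ 0 := by
      intro h0
      rw [h0, norm_zero] at h1
      linarith
    have e : ((1 + u) ^ (k + 1))⁻¹ - 1 + ((k + 1 : ℕ) : ℂ) * u =
        ((((1 + u) ^ k)⁻¹ - 1 + k * u) + (k + 1) * u ^ 2) / (1 + u) := by
      rw [pow_succ]
      push_cast
      field_simp
      ring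
    rw [e, norm_div, div_le_iff₀ (by linarith)]
    have h3 := h u hu
    have h4 : ‖((k : ℂ) + 1) * u ^ 2‖ = (k + 1) * ‖u‖ ^ 2 := by
      rw [norm_mul, norm_pow]
      congr 1
      have : ((k : ℂ) + 1) = ((k + 1 : ℕ) : ℂ) := by push_cast; ring
      rw [this, Complex.norm_natCast]
      push_cast
      ring
    have h5 : 0 ≤ ‖u‖ ^ 2 := by positivity
    calc ‖(((1 + u) ^ k)⁻¹ - 1 + k * u) + (k + 1) * u ^ 2‖
        ≤ C * ‖u‖ ^ 2 + (k + 1) * ‖u‖ ^ 2 := by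
          refine (norm_add_le _ _).trans ?_
          rw [h4]
          linarith
      _ = 2 * (C + (k + 1)) * ‖u‖ ^ 2 * (1 / 2) := by ring
      _ ≤ 2 * (C + (k + 1)) * ‖u‖ ^ 2 * ‖1 + u‖ := by
          gcongr

theorem Yc_step {F : ℂ → ℂ} {A : ℂ} {k : ℕ} (h : Par F A k) : ∃ r > 0, ∃ C : ℝ, 0 ≤ C ∧
    ∀ z, z ≠ 0 → ‖z‖ < r → F z ≠ 0 ∧ ‖Yc A k (F z) - Yc A k z - 1‖ ≤ C * ‖z‖ := by
  obtain ⟨G, hG, hG0, hF⟩ := h.ex
  have hk := h.one_le
  have hA := h.ne_zero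
  have hApos : 0 < ‖A‖ := norm_pos_iff.mpr hA
  have hkR : (1 : ℝ) ≤ k := by exact_mod_cast hk
  have hkC : (k : ℂ) ≠ 0 := by
    have : k ≠ 0 := by omega
    exact_mod_cast this
  obtain ⟨Cφ, hCφ, hφ⟩ := R5_exp k
  have hb := (hG 0).hasDerivAt.isBigO_sub
  obtain ⟨C1, hC1, hb1⟩ := hb.exists_pos
  have hb2 := hb1.bound
  rw [Metric.eventually_nhds_iff] at hb2
  obtain ⟨ε, hε, hb3⟩ := hb2
  set C2 : ℝ := ‖A‖ + C1 with hC2
  have hC2pos : 0 < C2 := by positivity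
  refine ⟨min ε (min 1 (1 / (2 * C2))), by positivity,
    Cφ * C2 ^ 2 / (k * ‖A‖) + C1 / ‖A‖, by positivity, ?_⟩
  intro z hz hzr
  have hzε : ‖z‖ < ε := hzr.trans_le (min_le_left _ _)
  have hz1 : ‖z‖ < 1 := hzr.trans_le ((min_le_right _ _).trans (min_le_left _ _))
  have hz2 : ‖z‖ < 1 / (2 * C2) := hzr.trans_le ((min_le_right _ _).trans (min_le_right _ _))
  have hzpos : 0 < ‖z‖ := norm_pos_iff.mpr hz
  have hGA : ‖G z - A‖ ≤ C1 * ‖z‖ := by
    have := hb3 (y := z) (by rw [dist_zero_right]; exact hzε)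
    rwa [hG0, sub_zero] at this
  have hGn : ‖G z‖ ≤ C2 := by
    have h1 : ‖G z‖ ≤ ‖G z - A‖ + ‖A‖ := by
      have := norm_add_le (G z - A) A
      rwa [sub_add_cancel] at this
    have h2 : C1 * ‖z‖ ≤ C1 * 1 := by gcongr
    rw [hC2]
    linarith
  set u : ℂ := z ^ k * G z with hu
  have hzk : ‖z‖ ^ k ≤ ‖z‖ := by
    calc ‖z‖ ^ k ≤ ‖z‖ ^ 1 := pow_le_pow_of_le_one (norm_nonneg _) hz1.le hk
      _ = ‖z‖ := pow_one _
  have hun : ‖u‖ = ‖z‖ ^ k * ‖G z‖ := by rw [hu, norm_mul, norm_pow]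
  have huh : ‖u‖ ≤ 1 / 2 := by
    rw [hun]
    calc ‖z‖ ^ k * ‖G z‖ ≤ ‖z‖ * C2 := by gcongr
      _ ≤ 1 / (2 * C2) * C2 := by gcongr
      _ = 1 / 2 := by field_simp
  have h1u : 1 + u ≠ 0 := by
    intro h0
    have h2 : u = -1 := by linear_combination h0
    rw [h2, norm_neg, norm_one] at huh
    linarith
  have hFz : F z = z * (1 + u) := by
    rw [hF, hu]; ring
  have hFne : F z ≠ 0 := by
    rw [hFz]; exact mul_ne_zero hz h1u
  refine ⟨hFne, ?_⟩
  have hzkne : z ^ k ≠ 0 := pow_ne_zero k hz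
  have e : Yc A k (F z) - Yc A k z - 1 =
      Yc A k z * (((1 + u) ^ k)⁻¹ - 1 + k * u) + (G z - A) / A := by
    have e1 : Yc A k (F z) = Yc A k z * ((1 + u) ^ k)⁻¹ := by
      unfold Yc
      rw [hFz, mul_pow]
      have : (1 + u) ^ k ≠ 0 := pow_ne_zero k h1u
      field_simp
    rw [e1]
    have e2 : Yc A k z * (k * u) = -(G z / A) := by
      unfold Yc
      rw [hu]
      field_simp
    have e3 : (G z - A) / A = G z / A - 1 := by
      field_simp
    rw [e3]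
    linear_combination -e2
  rw [e]
  refine (norm_add_le _ _).trans ?_
  rw [norm_mul, norm_Yc, norm_div, add_mul]
  refine add_le_add ?_ ?_
  · have hzkpos : 0 < ‖z‖ ^ k := by positivity
    calc 1 / (k * ‖A‖ * ‖z‖ ^ k) * ‖((1 + u) ^ k)⁻¹ - 1 + k * u‖
        ≤ 1 / (k * ‖A‖ * ‖z‖ ^ k) * (Cφ * ‖u‖ ^ 2) := by
          gcongr
          exact hφ u huh
      _ = Cφ * ‖G z‖ ^ 2 / (k * ‖A‖) * ‖z‖ ^ k := by
          rw [hun]
          field_simp
      _ ≤ Cφ * C2 ^ 2 / (k * ‖A‖) * ‖z‖ := by gcongr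
  · rw [div_mul_eq_mul_div]
    gcongr

/-- the union of the attracting petals is invariant, orbits tend to `0` -/
theorem petal {F : ℂ → ℂ} {A : ℂ} {k : ℕ} (h : Par F A k) : ∃ R0 > 0, ∀ z, z ≠ 0 →
    R0 ≤ (Yc A k z).re → (∀ n, F^[n] z ≠ 0 ∧ (Yc A k z).re + n / 2 ≤ (Yc A k (F^[n] z)).re) ∧
      Tendsto (fun n => F^[n] z) atTop (𝓝 0) := by
  obtain ⟨r, hr, C, hC, hstep⟩ := Yc_step h
  have hk := h.one_le
  have hApos : 0 < ‖A‖ := norm_pos_iff.mpr h.ne_zero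
  have hkR : (1 : ℝ) ≤ k := by exact_mod_cast hk
  have hkpos : (0 : ℝ) < k := by linarith
  set δ : ℝ := min r (1 / (2 * (C + 1))) with hδ
  have hδpos : 0 < δ := by positivity
  have hδC : C * δ ≤ 1 / 2 := by
    have h1 : δ ≤ 1 / (2 * (C + 1)) := min_le_right _ _
    calc C * δ ≤ C * (1 / (2 * (C + 1))) := by gcongr
      _ = C / (2 * (C + 1)) := by ring
      _ ≤ 1 / 2 := by
          rw [div_le_div_iff₀ (by positivity) (by norm_num)]
          linarith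
  have hsmall : ∀ z, z ≠ 0 → 1 / (k * ‖A‖ * δ ^ k) + 1 ≤ (Yc A k z).re → ‖z‖ < δ := by
    intro z hz hre
    have h1 : 1 / (k * ‖A‖ * δ ^ k) < ‖Yc A k z‖ := by
      have := Complex.re_le_norm (Yc A k z)
      linarith
    rw [norm_Yc] at h1
    have hzpos : 0 < ‖z‖ := norm_pos_iff.mpr hz
    rw [div_lt_div_iff₀ (by positivity) (by positivity), one_mul, one_mul] at h1
    have h2 : ‖z‖ ^ k < δ ^ k := lt_of_mul_lt_mul_left h1 (by positivity)
    exact lt_of_pow_lt_pow_left₀ k hδpos.le h2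
  refine ⟨1 / (k * ‖A‖ * δ ^ k) + 1, by positivity, ?_⟩
  intro z hz hre
  have hall : ∀ n : ℕ, F^[n] z ≠ 0 ∧ (Yc A k z).re + n / 2 ≤ (Yc A k (F^[n] z)).re := by
    intro n
    induction n with
    | zero => simpa using hz
    | succ n ih =>
      obtain ⟨h1, h2⟩ := ih
      have h3 : 1 / (k * ‖A‖ * δ ^ k) + 1 ≤ (Yc A k (F^[n] z)).re := by
        have : (0 : ℝ) ≤ (n : ℝ) / 2 := by positivity
        linarith
      have h4 := hsmall _ h1 h3
      obtain ⟨h5, h6⟩ := hstep _ h1 (h4.trans_le (min_le_left _ _))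
      rw [Function.iterate_succ_apply']
      refine ⟨h5, ?_⟩
      have h7 : ‖Yc A k (F (F^[n] z)) - Yc A k (F^[n] z) - 1‖ ≤ 1 / 2 :=
        h6.trans ((mul_le_mul_of_nonneg_left h4.le hC).trans hδC)
      have h8 := (Complex.abs_re_le_norm _).trans h7
      rw [Complex.sub_re, Complex.sub_re, Complex.one_re] at h8
      have h9 := (abs_le.mp h8).1
      push_cast
      linarith
  refine ⟨hall, ?_⟩
  rw [tendsto_zero_iff_norm_tendsto_zero]
  have hlim : Tendsto (fun n : ℕ => 1 / (k * ‖A‖ * ((Yc A k z).re + (n : ℝ) / 2))) atTop (𝓝 0) := by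
    simp only [one_div]
    refine Filter.Tendsto.inv_tendsto_atTop ?_
    refine Filter.Tendsto.const_mul_atTop (by positivity) ?_
    refine tendsto_atTop_add_const_left _ _ ?_
    exact Filter.Tendsto.atTop_div_const (by norm_num) tendsto_natCast_atTop_atTop
  have hle : ∀ n : ℕ, ‖F^[n] z‖ ^ k ≤ 1 / (k * ‖A‖ * ((Yc A k z).re + (n : ℝ) / 2)) := by
    intro n
    obtain ⟨h1, h2⟩ := hall n
    have hzpos : 0 < ‖F^[n] z‖ := norm_pos_iff.mpr h1
    have hpos : 0 < (Yc A k z).re + (n : ℝ) / 2 := by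
      have h3 : (0 : ℝ) ≤ (n : ℝ) / 2 := by positivity
      have h4 : 0 < 1 / (k * ‖A‖ * δ ^ k) + 1 := by positivity
      linarith
    have h3 : (Yc A k z).re + (n : ℝ) / 2 ≤ 1 / (k * ‖A‖ * ‖F^[n] z‖ ^ k) := by
      rw [← norm_Yc]
      exact h2.trans (Complex.re_le_norm _)
    rw [le_div_iff₀ (by positivity)] at h3 ⊢
    linarith
  have hpk : Tendsto (fun n => ‖F^[n] z‖ ^ k) atTop (𝓝 0) :=
    squeeze_zero (fun n => by positivity) hle hlim
  rw [Metric.tendsto_atTop] at hpk ⊢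
  intro ε hε
  obtain ⟨N, hN⟩ := hpk (ε ^ k) (by positivity)
  refine ⟨N, fun n hn => ?_⟩
  have h1 := hN n hn
  rw [dist_zero_right, Real.norm_of_nonneg (by positivity)] at h1
  rw [dist_zero_right, norm_norm]
  exact lt_of_pow_lt_pow_left₀ k hε.le h1

theorem mu_pow {p q : ℕ} (hq : 0 < q) : mu (p / q) ^ q = 1 := by
  unfold mu
  rw [← Complex.exp_nat_mul]
  have hq' : (q : ℂ) ≠ 0 := by exact_mod_cast hq.ne'
  have e : (q : ℂ) * (2 * Real.pi * ((p / q : ℝ) : ℂ) * Complex.I) =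
      (p : ℤ) * (2 * Real.pi * Complex.I) := by
    push_cast
    field_simp
  rw [e, Complex.exp_int_mul_two_pi_mul_I]

theorem norm_mu (x : ℝ) : ‖mu x‖ = 1 := by
  unfold mu
  rw [Complex.norm_exp]
  simp

theorem mu_pow_eq_one {p q : ℕ} (hq : 0 < q) (hc : Nat.Coprime p q) {k : ℕ} (h : mu (p / q) ^ k = 1) :
    q ∣ k := by
  unfold mu at h
  rw [← Complex.exp_nat_mul, Complex.exp_eq_one_iff] at h
  obtain ⟨n, hn⟩ := h
  have hq' : (q : ℂ) ≠ 0 := by exact_mod_cast hq.ne'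
  have hpi : (2 * Real.pi * Complex.I : ℂ) ≠ 0 := Complex.two_pi_I_ne_zero
  have e : ((k : ℂ) * p) = n * q := by
    have h1 : ((k : ℂ) * (p / q)) * (2 * Real.pi * Complex.I) = n * (2 * Real.pi * Complex.I) := by
      rw [← hn]
      push_cast
      ring
    have h2 := mul_right_cancel₀ hpi h1
    field_simp at h2
    linear_combination h2
  have e' : ((k * p : ℕ) : ℤ) = n * q := by exact_mod_cast e
  have hd : (q : ℤ) ∣ ((k * p : ℕ) : ℤ) := ⟨n, by rw [e']; ring⟩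
  have hd' : q ∣ k * p := by exact_mod_cast hd
  exact (Nat.Coprime.symm hc).dvd_of_dvd_mul_right hd'

private theorem R5_deriv (l : ℂ) (n : ℕ) : HasDerivAt ((f l)^[n]) (l ^ n) 0 ∧ (f l)^[n] 0 = 0 := by
  have hf : HasDerivAt (f l) l 0 := by
    have h1 : HasDerivAt (fun z : ℂ => z ^ 2 + l * z) (((2 : ℕ) : ℂ) * 0 ^ (2 - 1) + l * 1) 0 :=
      (hasDerivAt_pow 2 (0 : ℂ)).add ((hasDerivAt_id (0 : ℂ)).const_mul l)
    have h2 : (((2 : ℕ) : ℂ) * 0 ^ (2 - 1) + l * 1) = l := by norm_num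
    rw [h2] at h1
    exact h1
  have hf0 : f l 0 = 0 := by unfold f; ring
  induction n with
  | zero =>
    refine ⟨?_, rfl⟩
    simpa using hasDerivAt_id (0 : ℂ)
  | succ n ih =>
    obtain ⟨h1, h2⟩ := ih
    refine ⟨?_, ?_⟩
    · rw [Function.iterate_succ']
      have h3 : HasDerivAt (f l) l ((f l)^[n] 0) := by rw [h2]; exact hf
      have h4 := h3.comp (0 : ℂ) h1
      rw [pow_succ']
      exact h4
    · rw [Function.iterate_succ_apply', h2, hf0]

theorem exists_par {p q : ℕ} (hq : 0 < q) (hc : Nat.Coprime p q) :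
    ∃ A k, q ∣ k ∧ Par ((f (mu (p / q)))^[q]) A k := by
  set l : ℂ := mu (p / q) with hl
  have hlq : l ^ q = 1 := mu_pow hq
  have hl0 : l ≠ 0 := by
    intro h0
    have := norm_mu (p / q)
    rw [← hl, h0, norm_zero] at this
    exact zero_ne_one this
  obtain ⟨P, hPm, hPd, hPe⟩ := exists_iterPoly l q
  obtain ⟨hd, h0⟩ := R5_deriv l q
  set R : Polynomial ℂ := P - Polynomial.X with hR
  have hdeg : 1 < P.natDegree := by
    rw [hPd]
    exact Nat.one_lt_two_pow hq.ne'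
  have hRne : R ≠ 0 := by
    intro hR0
    have h1 : P = Polynomial.X := by
      rw [hR] at hR0
      exact sub_eq_zero.mp hR0
    rw [h1, Polynomial.natDegree_X] at hdeg
    exact lt_irrefl _ hdeg
  have hR0 : R.IsRoot 0 := by
    rw [Polynomial.IsRoot.def, hR, Polynomial.eval_sub, Polynomial.eval_X, hPe, h0, sub_zero]
  have hPder : P.derivative.eval 0 = l ^ q := by
    have h1 := P.hasDerivAt 0
    have h2 : (fun z => P.eval z) = (f l)^[q] := funext hPe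
    rw [h2] at h1
    exact h1.unique hd
  have hR1 : (Polynomial.derivative R).IsRoot 0 := by
    rw [Polynomial.IsRoot.def, hR, Polynomial.derivative_sub, Polynomial.derivative_X,
      Polynomial.eval_sub, Polynomial.eval_one, hPder, hlq, sub_self]
  have hm : 1 < R.rootMultiplicity 0 :=
    (Polynomial.one_lt_rootMultiplicity_iff_isRoot hRne).mpr ⟨hR0, hR1⟩
  obtain ⟨Q, hQ, hQd⟩ := Polynomial.exists_eq_pow_rootMultiplicity_mul_and_not_dvd R hRne 0
  obtain ⟨k, hk⟩ : ∃ k, R.rootMultiplicity 0 = k + 1 := ⟨R.rootMultiplicity 0 - 1, by omega⟩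
  have hk1 : 1 ≤ k := by omega
  rw [hk, Polynomial.C_0, sub_zero] at hQ
  rw [Polynomial.dvd_iff_isRoot, Polynomial.IsRoot.def] at hQd
  have hFz : ∀ z, (f l)^[q] z = z + z ^ (k + 1) * Q.eval z := by
    intro z
    have h1 : R.eval z = z ^ (k + 1) * Q.eval z := by
      rw [hQ, Polynomial.eval_mul, Polynomial.eval_pow, Polynomial.eval_X]
    rw [hR, Polynomial.eval_sub, Polynomial.eval_X, hPe] at h1
    linear_combination h1
  refine ⟨Q.eval 0, k, ?_, ⟨hk1, hQd, fun z => Q.eval z, Q.differentiable, rfl, hFz⟩⟩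
  -- the commutation relation
  have hcomm : ∀ z, z ≠ 0 → l * Q.eval z + 2 * z * Q.eval z + z ^ (k + 1) * Q.eval z ^ 2 =
      (z + l) ^ (k + 1) * Q.eval (f l z) := by
    intro z hz
    have h1 : f l ((f l)^[q] z) = (f l)^[q] (f l z) := by
      have h1a := Function.iterate_succ_apply' (f l) q z
      have h1b := Function.iterate_succ_apply (f l) q z
      rw [← h1a, h1b]
    rw [hFz z, hFz (f l z)] at h1
    have h2 : f l (z + z ^ (k + 1) * Q.eval z) =
        f l z + z ^ (k + 1) * (l * Q.eval z + 2 * z * Q.eval z + z ^ (k + 1) * Q.eval z ^ 2) := by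
      unfold f
      ring
    rw [h2] at h1
    have h3 : (f l z) ^ (k + 1) = z ^ (k + 1) * (z + l) ^ (k + 1) := by
      rw [← mul_pow]
      unfold f
      ring
    rw [h3] at h1
    have h4 : z ^ (k + 1) * (l * Q.eval z + 2 * z * Q.eval z + z ^ (k + 1) * Q.eval z ^ 2) =
        z ^ (k + 1) * ((z + l) ^ (k + 1) * Q.eval (f l z)) := by
      linear_combination h1
    exact mul_left_cancel₀ (pow_ne_zero _ hz) h4
  have hfc : Continuous (f l) := by unfold f; fun_prop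
  have hQc : Continuous (fun z => Q.eval z) := Q.continuous
  have hQfc : Continuous (fun z => Q.eval (f l z)) := hQc.comp hfc
  have hfun : (fun z => l * Q.eval z + 2 * z * Q.eval z + z ^ (k + 1) * Q.eval z ^ 2) =
      fun z => (z + l) ^ (k + 1) * Q.eval (f l z) := by
    refine Continuous.ext_on (dense_compl_singleton (0 : ℂ)) (by fun_prop) (by fun_prop) ?_
    intro z hz
    exact hcomm z hz
  have hat := congrFun hfun 0
  simp only [mul_zero, zero_mul, add_zero, zero_add] at hat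
  have hf0 : f l 0 = 0 := by unfold f; ring
  rw [hf0, zero_pow (by omega), zero_mul, add_zero] at hat
  have hat2 : l ^ k = 1 := by
    have h1 : l * Q.eval 0 * (l ^ k - 1) = 0 := by
      rw [pow_succ] at hat
      linear_combination -hat
    rcases mul_eq_zero.mp h1 with h2 | h2
    · exact absurd h2 (mul_ne_zero hl0 hQd)
    · exact sub_eq_zero.mp h2
  exact mu_pow_eq_one hq hc hat2

end Pool.Agent.CR
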