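import Pool.Agent.H68.CR.R4
import Pool.Agent.H68.CR.R5
import Pool.Agent.H68.CR.R10

/-!
# CR R12: a periodic ray landing at `0` has a direction

`F = (f l)^[M]`, `Par F A k`, `z t = ray l θ t → 0`, `(2^M - 1) θ ∈ ℤ`, so `F (z t) = z (2^M t)`. `Y t = Yc A k (z t)`: by `Yc_step` `Y (2^M t) - Y t - 1 → 0` as `t → 0+`. Claim `Y t / ‖Y t‖ → -1`:
let `η > 0`, `t1 > 0` with `‖Y (2^M t) - Y t - 1‖ ≤ η` for `t ≤ t1`; for `t ∈ [t1/2^M, t1]` `Y` is bounded by some `B` (compactness, `Yc` is continuous off `0`); `‖Y (t/2^(M n)) - Y t + n‖ ≤ n η`; every small `t'` is of the form `t/2^(M n)`;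
so `‖Y t' / n + 1‖ ≤ η + B/n`. Hence `Y t'/n` is close to `-1` and so is `Y t'/‖Y t'‖`.
`Y/‖Y‖ = - conj-free form`: `Yc A k z = -1/(k A z^k)`, so `Y/‖Y‖ = - ‖A z^k‖/(A z^k)`, hence `A (z/‖z‖)^k → ‖A‖`. So the path `z/‖z‖` satisfies `P (z/‖z‖) → 0` with `P = C A * X^k - C ‖A‖`;
`tendsto_root_of_poly` gives the limit `u`, `A u^k = ‖A‖`, `‖u‖ = 1`.
`ray_im`: with `L` from `exists_rlog` and `τ = t + 2πiθ`: `Re (L τ) = log ‖ray‖ → -∞`; `exp (i Im (L τ)) = ray/‖ray‖ → u = exp (i φ')`, so `Im (L τ) - φ'` has distance to `2πℤ` tending to `0`; it is continuous in `t`, so it converges (connectedness as in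
`tendsto_root_of_poly`; or: locally near `u` the function `-i log (z/(‖z‖ u))` is a continuous branch, which differs from `Im (L τ) - φ'` by a constant in `2πℤ`).
-/

set_option autoImplicit false

open Set Filter Topology

namespace Pool.Agent.CR

private theorem R12_abs {Y : ℝ → ℂ} {R : ℝ} (hR : 1 < R) (hY : ContinuousOn Y (Ioi 0))
    (h : Tendsto (fun t => Y (R * t) - Y t) (𝓝[>] 0) (𝓝 1)) :
    Tendsto (fun t => Y t / (‖Y t‖ : ℂ)) (𝓝[>] 0) (𝓝 (-1)) := by
  rw [Metric.tendsto_nhds]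
  intro ε hε
  obtain ⟨η, hη0, hη1, hη2⟩ : ∃ η : ℝ, 0 < η ∧ η ≤ 1 / 4 ∧ 8 * η < ε :=
    ⟨min (1 / 4) (ε / 16), by positivity, min_le_left _ _, by
      have := min_le_right (1 / 4) (ε / 16)
      linarith⟩
  have hR0 : 0 < R := by linarith
  -- the step
  have h1 : ∃ t1 > 0, ∀ t, 0 < t → t ≤ t1 → ‖Y (R * t) - Y t - 1‖ ≤ η := by
    have h2 := (Metric.tendsto_nhds.1 h) η hη0
    rw [eventually_nhdsWithin_iff, Metric.eventually_nhds_iff] at h2
    obtain ⟨δ, hδ, h3⟩ := h2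
    refine ⟨δ / 2, by positivity, fun t ht ht' => ?_⟩
    have h4 : dist t 0 < δ := by
      rw [Real.dist_eq, sub_zero, abs_of_pos ht]
      linarith
    have h5 := h3 h4 ht
    rw [dist_eq_norm] at h5
    exact h5.le
  obtain ⟨t1, ht1, hstep⟩ := h1
  obtain ⟨B, hB⟩ := (isCompact_Icc (a := t1 / R) (b := t1)).exists_bound_of_continuousOn
    (hY.mono fun t ht => lt_of_lt_of_le (by positivity) ht.1)
  have hind : ∀ n : ℕ, ∀ t, 0 < t → R ^ n * t ≤ t1 → ‖Y t - Y (R ^ n * t) + n‖ ≤ n * η := by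
    intro n
    induction n with
    | zero =>
      intro t _ _
      simp
    | succ n ih =>
      intro t ht hle
      have hs : R ^ n * t ≤ t1 := by
        refine le_trans ?_ hle
        refine mul_le_mul_of_nonneg_right ?_ ht.le
        exact pow_le_pow_right₀ hR.le (Nat.le_succ n)
      have h2 := ih t ht hs
      have h3 := hstep (R ^ n * t) (by positivity) hs
      have h4 : Y t - Y (R ^ (n + 1) * t) + ((n + 1 : ℕ) : ℂ) =
          (Y t - Y (R ^ n * t) + n) - (Y (R * (R ^ n * t)) - Y (R ^ n * t) - 1) := by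
        rw [pow_succ', mul_assoc]
        push_cast
        ring
      rw [h4]
      refine (norm_sub_le _ _).trans ?_
      push_cast
      linarith
  obtain ⟨N, hN⟩ := exists_nat_ge (B / η + 1)
  have hev : ∀ᶠ t in 𝓝[>] (0 : ℝ), t ∈ Ioc 0 (t1 / R ^ N) := Ioc_mem_nhdsGT (by positivity)
  filter_upwards [hev] with t ht
  obtain ⟨ht0, ht2⟩ := ht
  have hRN : R ^ N ≤ t1 / t := by
    rw [le_div_iff₀ (by positivity)] at ht2
    rw [le_div_iff₀ ht0]
    linarith
  have h1t : 1 ≤ t1 / t := (one_le_pow₀ hR.le).trans hRN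
  obtain ⟨n, hn1, hn2⟩ := exists_nat_pow_near h1t hR
  have hnN : N ≤ n := by
    by_contra hcon
    have h2 : R ^ (n + 1) ≤ R ^ N := pow_le_pow_right₀ hR.le (by omega)
    linarith
  have hs1 : R ^ n * t ≤ t1 := by
    rwa [le_div_iff₀ ht0] at hn1
  have hs2 : t1 / R ≤ R ^ n * t := by
    rw [div_lt_iff₀ ht0] at hn2
    rw [div_le_iff₀ hR0]
    have : R ^ (n + 1) * t = R ^ n * t * R := by ring
    linarith
  have h2 := hind n t ht0 hs1
  have h3 := hB (R ^ n * t) ⟨hs2, hs1⟩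
  have hNn : (N : ℝ) ≤ n := by exact_mod_cast hnN
  have hBn : B ≤ n * η := by
    have h4 : B / η + 1 ≤ n := hN.trans hNn
    have h5 : B / η ≤ n := by linarith
    rwa [div_le_iff₀ hη0] at h5
  have hB0 : 0 ≤ B := (norm_nonneg _).trans h3
  have hn0 : (1 : ℝ) ≤ n := by
    have h4 : B / η + 1 ≤ n := hN.trans hNn
    have h5 : 0 ≤ B / η := by positivity
    linarith
  have h4 : ‖Y t + n‖ ≤ 2 * (n * η) := by
    have h5 : Y t + n = (Y t - Y (R ^ n * t) + n) + Y (R ^ n * t) := by ring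
    rw [h5]
    refine (norm_add_le _ _).trans ?_
    linarith
  have h5 : |‖Y t‖ - n| ≤ 2 * (n * η) := by
    have h6 := abs_norm_sub_norm_le (Y t) (-(n : ℂ))
    rw [norm_neg, Complex.norm_natCast, sub_neg_eq_add] at h6
    exact h6.trans h4
  have h6 : (n : ℝ) / 2 ≤ ‖Y t‖ := by
    have := (abs_le.1 h5).1
    nlinarith
  have h7 : 0 < ‖Y t‖ := by linarith
  have h7' : (‖Y t‖ : ℂ) ≠ 0 := by exact_mod_cast h7.ne'
  rw [dist_eq_norm]
  have h8 : Y t / (‖Y t‖ : ℂ) - (-1) = ((Y t + n) + ((‖Y t‖ - n : ℝ) : ℂ)) / (‖Y t‖ : ℂ) := by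
    push_cast
    field_simp
    ring
  rw [h8, norm_div, Complex.norm_real, norm_norm, div_lt_iff₀ h7]
  calc ‖(Y t + n) + ((‖Y t‖ - n : ℝ) : ℂ)‖ ≤ ‖Y t + n‖ + ‖((‖Y t‖ - n : ℝ) : ℂ)‖ := norm_add_le _ _
    _ ≤ 2 * (n * η) + 2 * (n * η) := by
        refine add_le_add h4 ?_
        rw [Complex.norm_real]
        exact h5
    _ = 8 * η * (n / 2) := by ring
    _ ≤ 8 * η * ‖Y t‖ := mul_le_mul_of_nonneg_left h6 (by positivity)
    _ < ε * ‖Y t‖ := mul_lt_mul_of_pos_right hη2 h7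

theorem ray_dir {l : ℂ} (hl : ‖l‖ ≤ 1) {M : ℕ} (hM : 1 ≤ M) {A : ℂ} {k : ℕ}
    (h : Par ((f l)^[M]) A k) {θ : ℝ} {m : ℤ} (hθ : (2 ^ M - 1) * θ = m)
    (h0 : Tendsto (ray l θ) (𝓝[>] 0) (𝓝 0)) :
    ∃ u : ℂ, ‖u‖ = 1 ∧ A * u ^ k = ‖A‖ ∧
      Tendsto (fun t => ray l θ t / ‖ray l θ t‖) (𝓝[>] 0) (𝓝 u) := by
  have hR : (1 : ℝ) < 2 ^ M := one_lt_pow₀ (by norm_num) (by omega)
  have hk : (k : ℂ) ≠ 0 := by
    have := h.one_le
    exact_mod_cast (by omega : k ≠ 0)
  have hk' : (0 : ℝ) < k := by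
    have := h.one_le
    exact_mod_cast (by omega : 0 < k)
  have hA := h.ne_zero
  have hA' : 0 < ‖A‖ := norm_pos_iff.2 hA
  have hcont : ContinuousOn (ray l θ) (Ioi 0) := ray_continuousOn' hl θ
  have hne : ∀ t, 0 < t → ray l θ t ≠ 0 := fun t ht => ray_ne_zero hl θ ht
  have hstep : ∀ t, 0 < t → (f l)^[M] (ray l θ t) = ray l θ (2 ^ M * t) := by
    intro t ht
    rw [ray_iter hl θ ht]
    have h1 : (2 : ℝ) ^ M * θ = θ + m := by linarith
    rw [h1, ray_add_int]
  have hYc : ContinuousOn (fun t => Yc A k (ray l θ t)) (Ioi 0) := by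
    unfold Yc
    refine ContinuousOn.div continuousOn_const (continuousOn_const.mul (hcont.pow k)) ?_
    intro t ht
    exact mul_ne_zero (mul_ne_zero hk hA) (pow_ne_zero k (hne t ht))
  have hlim : Tendsto (fun t : ℝ => Yc A k (ray l θ (2 ^ M * t)) - Yc A k (ray l θ t)) (𝓝[>] 0)
      (𝓝 1) := by
    obtain ⟨r, hr, C, hC, hY⟩ := Yc_step h
    have h1 : Tendsto (fun t => C * ‖ray l θ t‖) (𝓝[>] 0) (𝓝 0) := by
      have := h0.norm.const_mul C
      simpa using this
    rw [tendsto_iff_norm_sub_tendsto_zero]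
    refine squeeze_zero' (Eventually.of_forall fun t => norm_nonneg _) ?_ h1
    have h2 : ∀ᶠ t in 𝓝[>] (0 : ℝ), ray l θ t ∈ Metric.ball (0 : ℂ) r :=
      h0 (Metric.ball_mem_nhds 0 hr)
    filter_upwards [h2, self_mem_nhdsWithin] with t ht ht0
    rw [mem_ball_zero_iff] at ht
    have h3 := (hY _ (hne t ht0) ht).2
    rw [hstep t ht0] at h3
    exact h3
  have hmain := R12_abs (Y := fun t => Yc A k (ray l θ t)) hR hYc hlim
  -- invert
  have hinv : Tendsto (fun t => A * (ray l θ t / ‖ray l θ t‖) ^ k) (𝓝[>] 0) (𝓝 ‖A‖) := by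
    have h1 := (hmain.inv₀ (by norm_num : (-1 : ℂ) ≠ 0)).mul_const (-(‖A‖ : ℂ))
    have h2 : (-1 : ℂ)⁻¹ * -(‖A‖ : ℂ) = ‖A‖ := by norm_num
    rw [h2] at h1
    refine h1.congr' ?_
    filter_upwards [self_mem_nhdsWithin] with t ht
    have hz := hne t ht
    have hz' : (‖ray l θ t‖ : ℂ) ≠ 0 := by exact_mod_cast (norm_pos_iff.2 hz).ne'
    have hA'' : (‖A‖ : ℂ) ≠ 0 := by exact_mod_cast hA'.ne'
    rw [norm_Yc]
    unfold Yc
    push_cast
    rw [div_pow]
    field_simp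
  -- the polynomial
  set P : Polynomial ℂ := Polynomial.C A * Polynomial.X ^ k - Polynomial.C (‖A‖ : ℂ) with hP
  have hPev : ∀ z, P.eval z = A * z ^ k - ‖A‖ := by
    intro z
    rw [hP]
    simp
  have hP0 : P ≠ 0 := by
    intro h1
    have h2 := hPev 0
    rw [h1, Polynomial.eval_zero, zero_pow (by have := h.one_le; omega), mul_zero, zero_sub,
      eq_comm, neg_eq_zero] at h2
    exact hA'.ne' (by exact_mod_cast h2)
  have hγ : ContinuousOn (fun t => ray l θ t / (‖ray l θ t‖ : ℂ)) (Ioi 0) := by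
    refine hcont.div (Complex.continuous_ofReal.comp_continuousOn hcont.norm) ?_
    intro t ht
    exact_mod_cast (norm_pos_iff.2 (hne t ht)).ne'
  obtain ⟨u, hu1, hu2⟩ := tendsto_root_of_poly hP0 (γ := fun t => ray l θ t / (‖ray l θ t‖ : ℂ))
    (t0 := 1) one_pos (hγ.mono fun t ht => ht.1) (by
      have h1 := hinv.sub_const (‖A‖ : ℂ)
      rw [sub_self] at h1
      refine h1.congr fun t => ?_
      rw [hPev])
  refine ⟨u, ?_, ?_, hu2⟩
  · have h1 : Tendsto (fun _ : ℝ => (1 : ℝ)) (𝓝[>] 0) (𝓝 ‖u‖) := by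
      refine hu2.norm.congr' ?_
      filter_upwards [self_mem_nhdsWithin] with t ht
      rw [norm_div, Complex.norm_real, norm_norm, div_self (norm_pos_iff.2 (hne t ht)).ne']
    exact tendsto_nhds_unique h1 tendsto_const_nhds |>.symm ▸ rfl
  · have h1 := hPev u
    rw [hu1] at h1
    linear_combination -h1

private theorem R12_int_const {a b : ℝ} {g : ℝ → ℝ} (hg : ContinuousOn g (Ioo a b))
    (hint : ∀ t ∈ Ioo a b, ∃ n : ℤ, g t = n) {s t : ℝ} (hs : s ∈ Ioo a b) (ht : t ∈ Ioo a b) :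
    g s = g t := by
  have h1 : (g '' Ioo a b).OrdConnected :=
    (isPreconnected_Ioo.image g hg).ordConnected
  have key : ∀ s ∈ Ioo a b, ∀ t ∈ Ioo a b, ¬ g s < g t := by
    intro s hs t ht hlt
    obtain ⟨m, hm⟩ := hint s hs
    obtain ⟨n, hn⟩ := hint t ht
    rw [hm, hn] at hlt
    have hmn : m + 1 ≤ n := by
      have : m < n := by exact_mod_cast hlt
      omega
    have hmn' : (m : ℝ) + 1 ≤ n := by exact_mod_cast hmn
    have h2 : (m : ℝ) + 1 / 2 ∈ g '' Ioo a b := by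
      refine h1.out ⟨s, hs, rfl⟩ ⟨t, ht, rfl⟩ ⟨?_, ?_⟩
      · rw [hm]; linarith
      · rw [hn]; linarith
    obtain ⟨r, hr, hr'⟩ := h2
    obtain ⟨j, hj⟩ := hint r hr
    rw [hj] at hr'
    have h3 : (2 * j : ℤ) = 2 * m + 1 := by
      have : (2 : ℝ) * j = 2 * m + 1 := by linarith
      exact_mod_cast this
    omega
  exact le_antisymm (not_lt.1 (key t ht s hs)) (not_lt.1 (key s hs t ht))

theorem ray_im {l : ℂ} (hl : ‖l‖ ≤ 1) {θ : ℝ} (h0 : Tendsto (ray l θ) (𝓝[>] 0) (𝓝 0)) {u : ℂ}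
    (hu : Tendsto (fun t => ray l θ t / ‖ray l θ t‖) (𝓝[>] 0) (𝓝 u)) {L : ℂ → ℂ}
    (hL : ContinuousOn L {τ | 0 < τ.re})
    (hL1 : ∀ τ : ℂ, 0 < τ.re → Complex.exp (L τ) = psi l (Complex.exp τ)) :
    Tendsto (fun t : ℝ => (L (t + 2 * Real.pi * θ * Complex.I)).re) (𝓝[>] 0) atBot ∧
      ∃ φ : ℝ, Complex.exp (φ * Complex.I) = u ∧
        Tendsto (fun t : ℝ => (L (t + 2 * Real.pi * θ * Complex.I)).im) (𝓝[>] 0) (𝓝 φ) := by
  have hre : ∀ t : ℝ, ((t : ℂ) + 2 * Real.pi * θ * Complex.I).re = t := by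
    intro t
    simp
  have hexp : ∀ t : ℝ, 0 < t → Complex.exp (L (t + 2 * Real.pi * θ * Complex.I)) = ray l θ t := by
    intro t ht
    exact hL1 _ (by rw [hre]; exact ht)
  have hne : ∀ t, 0 < t → ray l θ t ≠ 0 := fun t ht => ray_ne_zero hl θ ht
  have hcL : ContinuousOn (fun t : ℝ => L (t + 2 * Real.pi * θ * Complex.I)) (Ioi 0) := by
    refine hL.comp (by fun_prop) fun t ht => ?_
    show 0 < ((t : ℂ) + 2 * Real.pi * θ * Complex.I).re
    rw [hre]
    exact ht
  constructor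
  · have h1 : Tendsto (fun t => Real.log ‖ray l θ t‖) (𝓝[>] 0) atBot := by
      refine Real.tendsto_log_nhdsGT_zero.comp ?_
      refine tendsto_nhdsWithin_iff.2 ⟨by simpa using h0.norm, ?_⟩
      filter_upwards [self_mem_nhdsWithin] with t ht
      exact norm_pos_iff.2 (hne t ht)
    refine h1.congr' ?_
    filter_upwards [self_mem_nhdsWithin] with t ht
    rw [← hexp t ht, Complex.norm_exp, Real.log_exp]
  · -- `‖u‖ = 1`
    have hu1 : ‖u‖ = 1 := by
      have h1 : Tendsto (fun _ : ℝ => (1 : ℝ)) (𝓝[>] 0) (𝓝 ‖u‖) := by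
        refine hu.norm.congr' ?_
        filter_upwards [self_mem_nhdsWithin] with t ht
        rw [norm_div, Complex.norm_real, norm_norm, div_self (norm_pos_iff.2 (hne t ht)).ne']
      exact tendsto_nhds_unique h1 tendsto_const_nhds |>.symm ▸ rfl
    have hu0 : u ≠ 0 := by
      intro h1
      rw [h1, norm_zero] at hu1
      exact zero_ne_one hu1
    set φ0 : ℝ := Complex.arg u with hφ0
    have hφu : Complex.exp (φ0 * Complex.I) = u := by
      have := Complex.norm_mul_exp_arg_mul_I u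
      rwa [hu1, Complex.ofReal_one, one_mul] at this
    -- the quotient
    set w : ℝ → ℂ := fun t => ray l θ t / (‖ray l θ t‖ : ℂ) / u with hw
    have hwt : Tendsto w (𝓝[>] 0) (𝓝 1) := by
      have := hu.div_const u
      rwa [div_self hu0] at this
    have hwexp : ∀ t : ℝ, 0 < t → w t =
        Complex.exp ((((L (t + 2 * Real.pi * θ * Complex.I)).im - φ0 : ℝ) : ℂ) * Complex.I) := by
      intro t ht
      show ray l θ t / (‖ray l θ t‖ : ℂ) / u = _
      rw [← hexp t ht, ← hφu, Complex.norm_exp, Complex.ofReal_exp, ← Complex.exp_sub,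
        ← Complex.exp_sub]
      congr 1
      apply Complex.ext <;> simp
    have hcr : ContinuousOn (ray l θ) (Ioi 0) := ray_continuousOn' hl θ
    have hwc : ContinuousOn w (Ioi 0) := by
      refine (hcr.div (Complex.continuous_ofReal.comp_continuousOn hcr.norm) ?_).div_const u
      intro t ht
      show (‖ray l θ t‖ : ℂ) ≠ 0
      exact_mod_cast (norm_pos_iff.2 (hne t ht)).ne'
    have hslit : ∀ᶠ t in 𝓝[>] (0 : ℝ), w t ∈ Complex.slitPlane :=
      hwt (Complex.isOpen_slitPlane.mem_nhds (by simp))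
    rw [eventually_nhdsWithin_iff, Metric.eventually_nhds_iff] at hslit
    obtain ⟨δ, hδ, hsl⟩ := hslit
    have hsl' : ∀ t ∈ Ioo 0 δ, w t ∈ Complex.slitPlane := by
      intro t ht
      refine hsl ?_ ht.1
      rw [Real.dist_eq, sub_zero, abs_of_pos ht.1]
      exact ht.2
    set g : ℝ → ℝ := fun t => ((L (t + 2 * Real.pi * θ * Complex.I)).im - φ0 -
      Complex.arg (w t)) / (2 * Real.pi) with hg
    have hgc : ContinuousOn g (Ioo 0 δ) := by
      refine ContinuousOn.div_const (ContinuousOn.sub (ContinuousOn.sub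
        (Complex.continuous_im.comp_continuousOn (hcL.mono fun t ht => ht.1)) continuousOn_const)
        ?_) _
      intro t ht
      exact (Complex.continuousAt_arg (hsl' t ht)).comp_continuousWithinAt
        ((hwc.mono fun t ht => ht.1) t ht)
    have hgi : ∀ t ∈ Ioo 0 δ, ∃ n : ℤ, g t = n := by
      intro t ht
      have h1 := hwexp t ht.1
      have h2 : w t ≠ 0 := Complex.slitPlane_ne_zero (hsl' t ht)
      have h3 : ‖w t‖ = 1 := by
        rw [h1, Complex.norm_exp_ofReal_mul_I]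
      have h4 := Complex.norm_mul_exp_arg_mul_I (w t)
      rw [h3, Complex.ofReal_one, one_mul] at h4
      rw [← h4, Complex.exp_eq_exp_iff_exists_int] at h1
      obtain ⟨n, hn⟩ := h1
      refine ⟨-n, ?_⟩
      have h5 : (((Complex.arg (w t)) : ℂ) * Complex.I) =
          ((((L (t + 2 * Real.pi * θ * Complex.I)).im - φ0 : ℝ) : ℂ) + n * (2 * Real.pi)) *
            Complex.I := by
        rw [hn]
        ring
      have h6 := mul_right_cancel₀ Complex.I_ne_zero h5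
      have h7 : Complex.arg (w t) = ((L (t + 2 * Real.pi * θ * Complex.I)).im - φ0) +
          n * (2 * Real.pi) := by exact_mod_cast h6
      show ((L (t + 2 * Real.pi * θ * Complex.I)).im - φ0 - Complex.arg (w t)) / (2 * Real.pi) = _
      rw [h7]
      have hpi := Real.pi_pos
      push_cast
      field_simp
      ring
    have hm : δ / 2 ∈ Ioo 0 δ := ⟨by positivity, by linarith⟩
    obtain ⟨n, hn⟩ := hgi _ hm
    have hconst : ∀ t ∈ Ioo 0 δ, (L (t + 2 * Real.pi * θ * Complex.I)).im =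
        φ0 + 2 * Real.pi * n + Complex.arg (w t) := by
      intro t ht
      have h1 := R12_int_const hgc hgi ht hm
      rw [hn] at h1
      have h2 : ((L (t + 2 * Real.pi * θ * Complex.I)).im - φ0 - Complex.arg (w t)) /
        (2 * Real.pi) = n := h1
      have hpi := Real.pi_pos
      rw [div_eq_iff (by positivity)] at h2
      linarith
    refine ⟨φ0 + 2 * Real.pi * n, ?_, ?_⟩
    · rw [← hφu, Complex.exp_eq_exp_iff_exists_int]
      refine ⟨n, ?_⟩
      push_cast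
      ring
    · have h1 : Tendsto (fun t => φ0 + 2 * Real.pi * n + Complex.arg (w t)) (𝓝[>] 0)
          (𝓝 (φ0 + 2 * Real.pi * n + Complex.arg 1)) :=
        ((Complex.continuousAt_arg (by simp)).tendsto.comp hwt).const_add _
      rw [Complex.arg_one, add_zero] at h1
      refine h1.congr' ?_
      filter_upwards [Ioo_mem_nhdsGT hδ] with t ht
      exact (hconst t ht).symm

end Pool.Agent.CR
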