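import Pool.Agent.H68.CR.R13

/-!
# CR R14: uniqueness of the rotation cycle

`C = {2^j θ + n}`, `(2^q - 1) θ ∈ ℤ`. `ψ = φ/(2π)`. `ψ (2^j θ + n) = ψ θ + j p/q + integer` (h1, h2), and `2^(j+q) θ - 2^j θ ∈ ℤ`.
(1) If `x, x' ∈ C` and `ψ x = ψ x'` then `x = x'`: `x = 2^j θ + n`, `x' = 2^j' θ + n'`, so `(j - j') p/q ∈ ℤ`, `q ∣ j - j'`, `x - x' ∈ ℤ`, `ψ x - ψ x' = x - x'`. So by h3 `ψ` is strictly increasing on `C`.
(2) For every `i ∈ ℤ` there is a unique `c i ∈ C` with `ψ (c i) = ψ θ + i/q` (`j p ≡ i (mod q)`, add an integer), and every element of `C` is a `c i`. `c` is strictly increasing, `c (i + q) = c i + 1`. Let `i0` be the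
smallest index with `c i0 ≥ 0` (exists, `c (i + q n) = c i + n`), `b i = c (i0 + i)`: `b (-1) < 0 ≤ b 0`.
(3) `2 b i ∈ C` and `ψ (2 b i) = ψ (b i) + p/q + n i`, so `2 b i = b (i + p + q n i) = b (i + p) + n i`.
`b 0 ≥ 0`, so `2 b 0 ≥ 0`, so `p + q n 0 ≥ 0`, `n 0 ≥ 0` (`p < q`). `b (-1) < 0`, so `-1 + p + q n (-1) ≤ -1`, `n (-1) ≤ -1` (`p > 0`). `n (i+q) = n i + 1`, so `n (q-1) ≤ 0`. `2 b` is strictly increasing: `i < i'` implies
`i + p + q n i < i' + p + q n i'`, so for `0 ≤ i < i' < q`: `q (n i - n i') < q`, `n i ≤ n i'`. Hence `n i = 0` for `0 ≤ i < q` and `n i = ⌊i/q⌋` for all `i`.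
(4) `a i = ang p q i + ⌊i/q⌋` satisfies the same relations `2 a i = a (i + p) + ⌊i/q⌋` (`two_ang`), and `d i = a i - b i` is `q`-periodic, `2 d i = d (i + p)`: `2^q (d i) = d (i + q p) = d i`. So `a = b`.
`φ0 = φ (b 0)`. Finally `θ ∈ C`, `θ = b i` for some `i`.
-/

set_option autoImplicit false

open Set Filter Topology

namespace Pool.Agent.CR

private lemma R14_pow {q : ℕ} {θ : ℝ} {m : ℤ} (hθ : (2 ^ q - 1) * θ = m) (j : ℕ) :
    ∃ N : ℤ, (2 : ℝ) ^ j * θ = 2 ^ (j % q) * θ + N := by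
  have h : ∀ t r : ℕ, ∃ N : ℤ, (2 : ℝ) ^ (r + q * t) * θ = 2 ^ r * θ + N := by
    intro t r
    induction t with
    | zero => exact ⟨0, by simp⟩
    | succ t ih =>
      obtain ⟨N, hN⟩ := ih
      refine ⟨2 ^ q * N + 2 ^ r * m, ?_⟩
      have e : (2 : ℝ) ^ (r + q * (t + 1)) * θ = 2 ^ q * (2 ^ (r + q * t) * θ) := by
        rw [show r + q * (t + 1) = q + (r + q * t) by ring, pow_add, mul_assoc]
      rw [e, hN]
      push_cast
      rw [← hθ]
      ring
  obtain ⟨N, hN⟩ := h (j / q) (j % q)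
  rw [Nat.mod_add_div] at hN
  exact ⟨N, hN⟩

private lemma R14_inv {p q : ℕ} (hq : 0 < q) (hc : Nat.Coprime p q) (i : ℤ) :
    ∃ j : ℕ, ∃ t : ℤ, (j : ℤ) * p = i + q * t := by
  obtain ⟨u, v, huv⟩ := Nat.isCoprime_iff_coprime.2 hc
  refine ⟨((i * u) % q).toNat, -(i * v) - p * ((i * u) / q), ?_⟩
  have h0 : 0 ≤ (i * u) % (q : ℤ) := Int.emod_nonneg _ (by omega)
  rw [Int.toNat_of_nonneg h0, Int.emod_def]
  linear_combination i * huv

/-- the combinatorial heart: `2 b i = b (i + p) + ⌊i / q⌋` -/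
private lemma R14_rec {p q : ℕ} (hp : 0 < p) (hpq : p < q) {b : ℤ → ℝ} {ν : ℤ → ℤ}
    (hm : ∀ i i' : ℤ, i < i' → b i < b i') (hper : ∀ i n : ℤ, b (i + q * n) = b i + n)
    (hb2 : ∀ i, 2 * b i = b (i + p) + ν i) (hb0 : 0 ≤ b 0) (hbn : b (-1) < 0) (i : ℤ) :
    2 * b i = b (i + p) + ((i / q : ℤ) : ℝ) := by
  have hq : (0 : ℤ) < q := by omega
  have hm' : ∀ i i' : ℤ, b i < b i' → i < i' := by
    intro i i' h
    by_contra hcon
    rw [not_lt] at hcon
    rcases hcon.lt_or_eq with h1 | h1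
    · exact absurd (hm _ _ h1) (not_lt.2 h.le)
    · rw [h1] at h
      exact lt_irrefl _ h
  have hb3 : ∀ i, 2 * b i = b (i + p + q * ν i) := fun i => by rw [hper, hb2]
  have hn0 : 0 ≤ ν 0 := by
    have h1 := hb3 0
    by_contra hcon
    rw [not_le] at hcon
    have h2 : (0 : ℤ) + p + q * ν 0 < 0 := by nlinarith
    have h3 := hm _ _ h2
    rcases lt_or_ge (0 + (p : ℤ) + q * ν 0) (-1) with h4 | h4
    · have := hm _ _ h4
      linarith
    · have h5 : (0 : ℤ) + p + q * ν 0 = -1 := by omega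
      rw [h5] at h1
      linarith
  have hn1 : ν (-1) ≤ -1 := by
    have h1 := hb3 (-1)
    by_contra hcon
    have h0 : 0 ≤ ν (-1) := by omega
    have h2 : 0 ≤ (-1 : ℤ) + p + q * ν (-1) := by nlinarith
    rcases h2.lt_or_eq with h4 | h4
    · have := hm _ _ h4
      linarith
    · rw [← h4] at h1
      linarith
  have hnq : ν (-1 + q * 1) = ν (-1) + 1 := by
    have h1 := hb2 (-1 + q * 1)
    have h2 := hb2 (-1)
    have h3 := hper (-1) 1
    have h4 := hper (-1 + p) 1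
    have h5 : (-1 : ℤ) + q * 1 + p = -1 + p + q * 1 := by ring
    rw [h5, h3, h4] at h1
    have h6 : (ν (-1 + q * 1) : ℝ) = ν (-1) + 1 := by
      push_cast at h1 ⊢
      linarith
    exact_mod_cast h6
  have hmono : ∀ i i' : ℤ, 0 ≤ i → i ≤ i' → i' < q → ν i ≤ ν i' := by
    intro i i' h0 h1 h2
    rcases h1.lt_or_eq with h3 | h3
    · have h4 := hm _ _ h3
      have h5 : b (i + p + q * ν i) < b (i' + p + q * ν i') := by
        rw [← hb3, ← hb3]
        linarith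
      have h6 := hm' _ _ h5
      by_contra hcon
      have h7 : ν i' + 1 ≤ ν i := by omega
      nlinarith
    · rw [h3]
  have hz : ∀ i : ℤ, 0 ≤ i → i < q → ν i = 0 := by
    intro i h0 h1
    have h2 := hmono 0 i le_rfl h0 h1
    have h3 := hmono i (-1 + q * 1) h0 (by omega) (by omega)
    omega
  have h1 : i = i % q + q * (i / q) := (Int.emod_add_mul_ediv i q).symm
  have h2 : 0 ≤ i % (q : ℤ) := Int.emod_nonneg _ hq.ne'
  have h3 : i % (q : ℤ) < q := Int.emod_lt_of_pos _ hq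
  have h4 := hper (i % q) (i / q)
  have h5 := hper (i % q + p) (i / q)
  have h6 := hb2 (i % q)
  rw [hz _ h2 h3, Int.cast_zero, add_zero] at h6
  rw [← h1] at h4
  have h7 : i % q + p + q * (i / q) = i + p := by linarith
  rw [h7] at h5
  rw [h4, h5]
  linarith

theorem rot_unique {p q : ℕ} (hp : 0 < p) (hpq : p < q) (hc : Nat.Coprime p q) {θ : ℝ} {m : ℤ}
    (hθ : (2 ^ q - 1) * θ = m) {C : Set ℝ} (hC : C = {x : ℝ | ∃ j : ℕ, ∃ n : ℤ, x = 2 ^ j * θ + n})
    {φ : ℝ → ℝ} (h1 : ∀ x ∈ C, ∀ n : ℤ, φ (x + n) = φ x + 2 * Real.pi * n)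
    (h2 : ∀ x ∈ C, ∃ n : ℤ, φ (2 * x) = φ x + 2 * Real.pi * (p / q) + 2 * Real.pi * n)
    (h3 : ∀ x ∈ C, ∀ x' ∈ C, x < x' → φ x ≤ φ x') :
    ∃ φ0 : ℝ, (∀ i : ℤ, ang p q i + ((i / q : ℤ) : ℝ) ∈ C ∧
      φ (ang p q i + ((i / q : ℤ) : ℝ)) = φ0 + 2 * Real.pi * i / q) ∧
      ∃ i n : ℤ, θ = ang p q i + n := by
  have hq : 0 < q := by omega
  have hqR : (0 : ℝ) < q := by exact_mod_cast hq
  have hpi : 0 < 2 * Real.pi := by positivity
  obtain ⟨ψ, hψ⟩ : ∃ ψ : ℝ → ℝ, ∀ x, φ x = 2 * Real.pi * ψ x :=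
    ⟨fun x => φ x / (2 * Real.pi), fun x => by field_simp⟩
  have g1 : ∀ x ∈ C, ∀ n : ℤ, ψ (x + n) = ψ x + n := by
    intro x hx n
    have h := h1 x hx n
    rw [hψ, hψ] at h
    exact mul_left_cancel₀ hpi.ne' (by linarith)
  have g2 : ∀ x ∈ C, ∃ n : ℤ, ψ (2 * x) = ψ x + p / q + n := by
    intro x hx
    obtain ⟨n, h⟩ := h2 x hx
    rw [hψ, hψ] at h
    exact ⟨n, mul_left_cancel₀ hpi.ne' (by linarith)⟩
  have g3 : ∀ x ∈ C, ∀ x' ∈ C, x < x' → ψ x ≤ ψ x' := by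
    intro x hx x' hx' h
    have h := h3 x hx x' hx' h
    rw [hψ, hψ] at h
    exact le_of_mul_le_mul_left h hpi
  have hadd : ∀ x ∈ C, ∀ n : ℤ, x + n ∈ C := by
    intro x hx n
    rw [hC] at hx ⊢
    obtain ⟨j, k, rfl⟩ := hx
    exact ⟨j, k + n, by push_cast; ring⟩
  have htwo : ∀ x ∈ C, 2 * x ∈ C := by
    intro x hx
    rw [hC] at hx ⊢
    obtain ⟨j, k, rfl⟩ := hx
    exact ⟨j + 1, 2 * k, by push_cast; ring⟩
  have hpow : ∀ j : ℕ, 2 ^ j * θ ∈ C := by
    intro j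
    rw [hC]
    exact ⟨j, 0, by simp⟩
  have hθC : θ ∈ C := by
    have := hpow 0
    rwa [pow_zero, one_mul] at this
  have A1 : ∀ j : ℕ, ∃ N : ℤ, ψ (2 ^ j * θ) = ψ θ + j * p / q + N := by
    intro j
    induction j with
    | zero => exact ⟨0, by simp⟩
    | succ j ih =>
      obtain ⟨N, hN⟩ := ih
      obtain ⟨n, hn⟩ := g2 _ (hpow j)
      refine ⟨N + n, ?_⟩
      have e : (2 : ℝ) ^ (j + 1) * θ = 2 * (2 ^ j * θ) := by
        rw [pow_succ]
        ring
      rw [e, hn, hN]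
      push_cast
      field_simp
      ring
  have A2 : ∀ x ∈ C, ∃ r : ℕ, r < q ∧ ∃ n : ℤ, x = 2 ^ r * θ + n := by
    intro x hx
    rw [hC] at hx
    obtain ⟨j, k, rfl⟩ := hx
    obtain ⟨N, hN⟩ := R14_pow hθ j
    exact ⟨j % q, Nat.mod_lt _ hq, N + k, by rw [hN]; push_cast; ring⟩
  have A3 : ∀ x ∈ C, ∀ x' ∈ C, ψ x = ψ x' → x = x' := by
    intro x hx x' hx' h
    obtain ⟨r, hr, n, rfl⟩ := A2 x hx
    obtain ⟨r', hr', n', rfl⟩ := A2 x' hx'
    have hg := g1 _ (hpow r) n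
    have hg' := g1 _ (hpow r') n'
    obtain ⟨N, hN⟩ := A1 r
    obtain ⟨N', hN'⟩ := A1 r'
    rw [hg, hg', hN, hN'] at h
    have e2 : ((r : ℤ) - r') * p = q * (N' + n' - N - n) := by
      have e3 : ((r : ℝ) - r') * p = q * (N' + n' - N - n) := by
        field_simp at h
        linarith
      exact_mod_cast e3
    have e3 : (q : ℤ) ∣ ((r : ℤ) - r') := by
      have e4 : (q : ℤ) ∣ ((r : ℤ) - r') * p := ⟨_, e2⟩
      exact IsCoprime.dvd_of_dvd_mul_right (Nat.isCoprime_iff_coprime.2 hc).symm e4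
    have e4 : (r : ℤ) - r' = 0 := by
      refine Int.eq_zero_of_abs_lt_dvd e3 ?_
      rw [abs_lt]
      constructor <;> omega
    have e5 : r = r' := by omega
    subst e5
    have e6 : (N : ℝ) = N' := by linarith
    have e7 : (n : ℝ) = n' := by linarith
    rw [e7]
  have A4 : ∀ i : ℤ, ∃ x ∈ C, ψ x = ψ θ + i / q := by
    intro i
    obtain ⟨j, t, hj⟩ := R14_inv hq hc i
    obtain ⟨N, hN⟩ := A1 j
    refine ⟨2 ^ j * θ + (-t - N : ℤ), hadd _ (hpow j) _, ?_⟩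
    rw [g1 _ (hpow j), hN]
    have e1 : (j : ℝ) * p = i + q * t := by exact_mod_cast hj
    rw [e1]
    push_cast
    field_simp
    ring
  choose c hcC hcψ using A4
  have A5 : ∀ i i' : ℤ, i < i' → c i < c i' := by
    intro i i' h
    by_contra hcon
    rw [not_lt] at hcon
    have hR : (i : ℝ) < i' := by exact_mod_cast h
    have hR2 : (i : ℝ) / q < i' / q := div_lt_div_of_pos_right hR hqR
    rcases hcon.lt_or_eq with e1 | e1
    · have e2 := g3 _ (hcC i') _ (hcC i) e1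
      rw [hcψ, hcψ] at e2
      linarith
    · have e2 := congrArg ψ e1
      rw [hcψ, hcψ] at e2
      linarith
  have A6 : ∀ i n : ℤ, c (i + q * n) = c i + n := by
    intro i n
    refine A3 _ (hcC _) _ (hadd _ (hcC i) n) ?_
    rw [hcψ, g1 _ (hcC i), hcψ]
    push_cast
    field_simp
    ring
  have A7 : ∀ i, ∃ n : ℤ, 2 * c i = c (i + p) + n := by
    intro i
    obtain ⟨n, hn⟩ := g2 _ (hcC i)
    refine ⟨n, ?_⟩
    rw [← A6]
    refine A3 _ (htwo _ (hcC i)) _ (hcC _) ?_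
    rw [hn, hcψ, hcψ]
    push_cast
    field_simp
    ring
  choose nn hnn using A7
  -- the smallest index with a nonnegative value
  obtain ⟨i0, hi0, hmin⟩ : ∃ i0 : ℤ, 0 ≤ c i0 ∧ ∀ z : ℤ, 0 ≤ c z → i0 ≤ z := by
    refine Int.exists_least_of_bdd ?_ ?_
    · refine ⟨0 + q * (-⌈c 0⌉ - 1), fun z hz => ?_⟩
      by_contra hcon
      rw [not_le] at hcon
      have e1 := A5 _ _ hcon
      rw [A6] at e1
      have e2 := Int.le_ceil (c 0)
      push_cast at e1
      linarith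
    · refine ⟨0 + q * (-⌊c 0⌋), ?_⟩
      rw [A6]
      have e2 := Int.floor_le (c 0)
      push_cast
      linarith
  have hneg : c (i0 + -1) < 0 := by
    by_contra hcon
    rw [not_lt] at hcon
    have := hmin _ hcon
    omega
  -- the recursion for b i = c (i0 + i)
  have B1 : ∀ i : ℤ, 2 * c (i0 + i) = c (i0 + (i + p)) + ((i / q : ℤ) : ℝ) := by
    intro i
    refine R14_rec (b := fun i => c (i0 + i)) (ν := fun i => nn (i0 + i)) hp hpq ?_ ?_ ?_ ?_ ?_ i
    · intro i i' h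
      exact A5 _ _ (by omega)
    · intro i n
      show c (i0 + (i + q * n)) = c (i0 + i) + n
      rw [← add_assoc, A6]
    · intro i
      show 2 * c (i0 + i) = c (i0 + (i + p)) + nn (i0 + i)
      rw [← add_assoc, hnn]
    · show 0 ≤ c (i0 + 0)
      rw [add_zero]
      exact hi0
    · exact hneg
  -- comparison with ang
  set d : ℤ → ℝ := fun i => ang p q i + ((i / q : ℤ) : ℝ) - c (i0 + i) with hd
  have D1 : ∀ i, 2 * d i = d (i + p) := by
    intro i
    have e1 := two_ang hq hpq.le i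
    have e2 := B1 i
    simp only [hd]
    push_cast at e1
    linarith
  have D2 : ∀ i, d (i + q) = d i := by
    intro i
    have e1 := ang_add_q (p := p) hq i
    have e2 := A6 (i0 + i) 1
    have e3 : (i + q) / (q : ℤ) = i / q + 1 := Int.add_ediv_of_dvd_right (dvd_refl _) |>.trans
      (by rw [Int.ediv_self (by omega)])
    have e4 : i0 + (i + q) = i0 + i + q * 1 := by ring
    simp only [hd]
    rw [e1, e3, e4, e2]
    push_cast
    ring
  have D3 : ∀ (n : ℕ) (i : ℤ), 2 ^ n * d i = d (i + n * p) := by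
    intro n
    induction n with
    | zero => intro i; simp
    | succ n ih =>
      intro i
      have e1 : i + ((n + 1 : ℕ) : ℤ) * p = i + n * p + p := by push_cast; ring
      rw [e1, ← D1, ← ih, pow_succ]
      ring
  have D4 : ∀ (n : ℕ) (i : ℤ), d (i + n * q) = d i := by
    intro n
    induction n with
    | zero => intro i; simp
    | succ n ih =>
      intro i
      have e1 : i + ((n + 1 : ℕ) : ℤ) * q = i + n * q + q := by push_cast; ring
      rw [e1, D2, ih]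
  have D5 : ∀ i, d i = 0 := by
    intro i
    have e1 := D3 q i
    have e2 := D4 p i
    rw [mul_comm (q : ℤ) (p : ℤ), e2] at e1
    have e3 : (2 : ℝ) ≤ 2 ^ q := by
      have : (2 : ℝ) ^ 1 ≤ 2 ^ q := pow_le_pow_right₀ (by norm_num) hq
      linarith
    have e4 : ((2 : ℝ) ^ q - 1) * d i = 0 := by linarith
    rcases mul_eq_zero.1 e4 with e5 | e5
    · linarith
    · exact e5
  have D6 : ∀ i : ℤ, ang p q i + ((i / q : ℤ) : ℝ) = c (i0 + i) := by
    intro i
    have := D5 i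
    simp only [hd] at this
    linarith
  refine ⟨φ (c i0), fun i => ⟨?_, ?_⟩, ?_⟩
  · rw [D6]
    exact hcC _
  · rw [D6, hψ, hψ, hcψ, hcψ]
    push_cast
    field_simp
    ring
  · have e1 : θ = c 0 := by
      refine A3 _ hθC _ (hcC 0) ?_
      rw [hcψ]
      simp
    refine ⟨-i0, (-i0) / q, ?_⟩
    rw [D6, add_neg_cancel]
    exact e1

end Pool.Agent.CR
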