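import Pool.Agent.H68.CR.R11
import Pool.Agent.H68.CR.R12
import Pool.Agent.H68.CR.R14

/-!
# CR R15: a periodic ray landing at `0` belongs to the rotation cycle

`l = mu (p/q)`, `C = {2^j θ + n}`. For `x ∈ C` the ray of angle `x` lands at `0`: `ray l (2^j θ + n) (2^j t) = (f l)^[j] (ray l θ t) → 0` (`ray_iter`, `ray_add_int`), and `(2^q - 1) x ∈ ℤ`. Let `L` be as in `exists_rlog`; by `ray_dir`,
`ray_im` there is `φ x` with `Im (L (t + 2πix)) → φ x`, `ray/‖ray‖ → exp (i φ x)`, `A exp (i k φ x) = ‖A‖` (choice; put `φ x = 0` for `x ∉ C`).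
h1: `L (τ + 2πin) = L τ + 2πin`. h2: `ray l (2x) (2t) = f l (ray l x t) = z (z + l)`, `z = ray l x t → 0`; dividing by the norm,
`exp (i φ (2x)) = exp (i φ x) l`. h3: `order_lemma` for `γ t = L (t + 2πix)`, `γ' t = L (t + 2πix')` (`γ s ≠ γ' t` by injectivity of `L`: the imaginary parts `2πx`, `2πx'` of the arguments
differ). `rot_unique` gives the result (`ray l (ang p q i + n) = ray l (ang p q i)`).
-/

set_option autoImplicit false

open Set Filter Topology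

namespace Pool.Agent.CR

private lemma R15_f_cont (l : ℂ) (j : ℕ) : Continuous ((f l)^[j]) := by
  refine Continuous.iterate ?_ j
  unfold f
  fun_prop

private lemma R15_f_zero (l : ℂ) (j : ℕ) : (f l)^[j] 0 = 0 := by
  have h : f l 0 = 0 := by simp [f]
  exact Function.iterate_fixed h j

private lemma R15_tend {l : ℂ} (hl : ‖l‖ ≤ 1) {θ : ℝ} (h0 : Tendsto (ray l θ) (𝓝[>] 0) (𝓝 0))
    (j : ℕ) (n : ℤ) : Tendsto (ray l (2 ^ j * θ + n)) (𝓝[>] 0) (𝓝 0) := by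
  have hs : Tendsto (fun t : ℝ => t / 2 ^ j) (𝓝[>] 0) (𝓝[>] 0) := by
    refine tendsto_nhdsWithin_iff.2 ⟨?_, ?_⟩
    · have h1 : Tendsto (fun t : ℝ => t / 2 ^ j) (𝓝 0) (𝓝 (0 / 2 ^ j)) :=
        tendsto_id.div_const _
      rw [zero_div] at h1
      exact h1.mono_left nhdsWithin_le_nhds
    · filter_upwards [self_mem_nhdsWithin] with t ht
      exact div_pos (mem_Ioi.1 ht) (by positivity)
  have h2 := ((R15_f_cont l j).tendsto 0).comp (h0.comp hs)
  rw [R15_f_zero] at h2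
  refine h2.congr' ?_
  filter_upwards [self_mem_nhdsWithin] with t ht
  have ht' : (0 : ℝ) < t / 2 ^ j := div_pos ht (by positivity)
  rw [ray_add_int]
  show (f l)^[j] (ray l θ (t / 2 ^ j)) = _
  rw [ray_iter hl θ ht' j]
  congr 1
  field_simp

private lemma R15_two {l : ℂ} (hl : ‖l‖ ≤ 1) (hl1 : ‖l‖ = 1) {x : ℝ} {u u' : ℂ}
    (h0 : Tendsto (ray l x) (𝓝[>] 0) (𝓝 0))
    (hu : Tendsto (fun t => ray l x t / ‖ray l x t‖) (𝓝[>] 0) (𝓝 u))
    (hu' : Tendsto (fun t => ray l (2 * x) t / ‖ray l (2 * x) t‖) (𝓝[>] 0) (𝓝 u')) :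
    u' = u * l := by
  have hs : Tendsto (fun t : ℝ => 2 * t) (𝓝[>] 0) (𝓝[>] 0) := by
    refine tendsto_nhdsWithin_iff.2 ⟨?_, ?_⟩
    · have h1 : Tendsto (fun t : ℝ => 2 * t) (𝓝 0) (𝓝 (2 * 0)) := tendsto_id.const_mul 2
      rw [mul_zero] at h1
      exact h1.mono_left nhdsWithin_le_nhds
    · filter_upwards [self_mem_nhdsWithin] with t ht
      exact mul_pos two_pos (mem_Ioi.1 ht)
  have h1 := hu'.comp hs
  have h2 : Tendsto (fun t => (ray l x t / ‖ray l x t‖) *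
      ((ray l x t + l) / ((‖ray l x t + l‖ : ℝ) : ℂ))) (𝓝[>] 0) (𝓝 (u * (l / ((‖l‖ : ℝ) : ℂ)))) := by
    refine hu.mul ?_
    have h3 : Tendsto (fun t => ray l x t + l) (𝓝[>] 0) (𝓝 (0 + l)) := h0.add_const l
    rw [zero_add] at h3
    refine h3.div ((Complex.continuous_ofReal.tendsto _).comp h3.norm) ?_
    rw [hl1]
    norm_num
  rw [hl1, Complex.ofReal_one, div_one] at h2
  refine tendsto_nhds_unique h1 (h2.congr' ?_)
  filter_upwards [self_mem_nhdsWithin] with t ht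
  show _ = ray l (2 * x) (2 * t) / ‖ray l (2 * x) (2 * t)‖
  rw [← ray_f hl x ht]
  have h4 : f l (ray l x t) = ray l x t * (ray l x t + l) := by
    unfold f
    ring
  rw [h4, norm_mul, Complex.ofReal_mul, div_mul_div_comm]

theorem cycle_eq {p q : ℕ} (hp : 0 < p) (hpq : p < q) (hc : Nat.Coprime p q) {A : ℂ} {k : ℕ}
    (h : Par ((f (mu (p / q)))^[q]) A k) {θ : ℝ} {m : ℤ} (hθ : (2 ^ q - 1) * θ = m)
    (h0 : Tendsto (ray (mu (p / q)) θ) (𝓝[>] 0) (𝓝 0)) :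
    ∃ φ0 : ℝ, A * Complex.exp (k * φ0 * Complex.I) = ‖A‖ ∧
      (∀ i : ℤ, Tendsto (ray (mu (p / q)) (ang p q i)) (𝓝[>] 0) (𝓝 0) ∧
        Tendsto (fun t => ray (mu (p / q)) (ang p q i) t / ‖ray (mu (p / q)) (ang p q i) t‖) (𝓝[>] 0)
          (𝓝 (Complex.exp ((φ0 + 2 * Real.pi * i / q) * Complex.I)))) ∧
      ∃ i n : ℤ, θ = ang p q i + n := by
  have hl1 : ‖mu (p / q)‖ = 1 := norm_mu _
  have hl : ‖mu (p / q)‖ ≤ 1 := hl1.le
  have hmu : mu (p / q) = Complex.exp (2 * Real.pi * ((p / q : ℝ) : ℂ) * Complex.I) := rfl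
  generalize mu (p / q) = l at *
  obtain ⟨L, hLd, hLe, hLp, hLi, -, Cb, hCb⟩ := exists_rlog hl
  set C : Set ℝ := {x : ℝ | ∃ j : ℕ, ∃ n : ℤ, x = 2 ^ j * θ + n} with hC
  have hadd : ∀ x ∈ C, ∀ n : ℤ, x + n ∈ C := by
    rintro x ⟨j, k, rfl⟩ n
    exact ⟨j, k + n, by push_cast; ring⟩
  have htwo : ∀ x ∈ C, 2 * x ∈ C := by
    rintro x ⟨j, k, rfl⟩
    exact ⟨j + 1, 2 * k, by push_cast; ring⟩
  have hland : ∀ x ∈ C, Tendsto (ray l x) (𝓝[>] 0) (𝓝 0) := by
    rintro x ⟨j, n, rfl⟩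
    exact R15_tend hl h0 j n
  have hex : ∀ x ∈ C, ∃ φ : ℝ, A * Complex.exp (k * φ * Complex.I) = ‖A‖ ∧
      Tendsto (fun t => ray l x t / ‖ray l x t‖) (𝓝[>] 0) (𝓝 (Complex.exp (φ * Complex.I))) ∧
      Tendsto (fun t : ℝ => (L (t + 2 * Real.pi * x * Complex.I)).re) (𝓝[>] 0) atBot ∧
      Tendsto (fun t : ℝ => (L (t + 2 * Real.pi * x * Complex.I)).im) (𝓝[>] 0) (𝓝 φ) := by
    intro x hx
    obtain ⟨j, n, hjn⟩ := id hx
    have hm : (2 ^ q - 1) * x = ((2 ^ j * m + (2 ^ q - 1) * n : ℤ) : ℝ) := by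
      rw [hjn]
      push_cast
      rw [← hθ]
      ring
    obtain ⟨u, hu1, hu2, hu3⟩ := ray_dir hl (show 1 ≤ q by omega) h hm (hland x hx)
    obtain ⟨hre, φ, hφ1, hφ2⟩ := ray_im hl (hland x hx) hu3 hLd.continuousOn hLe
    refine ⟨φ, ?_, ?_, hre, hφ2⟩
    · rw [← hu2, ← hφ1, ← Complex.exp_nat_mul]
      congr 2
      ring
    · rw [hφ1]
      exact hu3
  choose! φ hφ using hex
  have h1 : ∀ x ∈ C, ∀ n : ℤ, φ (x + n) = φ x + 2 * Real.pi * n := by
    intro x hx n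
    have e1 := (hφ _ (hadd x hx n)).2.2.2
    have e2 := (hφ x hx).2.2.2.add_const (2 * Real.pi * n)
    refine tendsto_nhds_unique e1 (e2.congr' ?_)
    filter_upwards [self_mem_nhdsWithin] with t ht
    have e3 : 0 < ((t : ℂ) + 2 * Real.pi * x * Complex.I).re := by
      have : ((t : ℂ) + 2 * Real.pi * x * Complex.I).re = t := by simp
      rw [this]
      exact ht
    have e4 := hLp _ e3 n
    have e5 : (t : ℂ) + 2 * Real.pi * ((x + n : ℝ) : ℂ) * Complex.I =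
        t + 2 * Real.pi * x * Complex.I + 2 * Real.pi * n * Complex.I := by
      push_cast
      ring
    rw [e5, e4, Complex.add_im]
    congr 1
    have e6 : (2 * Real.pi * n * Complex.I : ℂ) = ((2 * Real.pi * n : ℝ) : ℂ) * Complex.I := by
      push_cast
      ring
    rw [e6, Complex.im_ofReal_mul, Complex.I_im, mul_one]
  have h2 : ∀ x ∈ C, ∃ n : ℤ, φ (2 * x) = φ x + 2 * Real.pi * (p / q) + 2 * Real.pi * n := by
    intro x hx
    have e1 := R15_two hl hl1 (hland x hx) (hφ x hx).2.1 (hφ _ (htwo x hx)).2.1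
    rw [hmu, ← Complex.exp_add, Complex.exp_eq_exp_iff_exists_int] at e1
    obtain ⟨n, hn⟩ := e1
    refine ⟨n, ?_⟩
    have e2 := congrArg Complex.im hn
    simp at e2
    rw [e2]
    ring
  have hre : ∀ (t x : ℝ), ((t : ℂ) + 2 * Real.pi * x * Complex.I).re = t := by
    intro t x
    simp
  have hγc : ∀ x : ℝ, ContinuousOn (fun t : ℝ => L (t + 2 * Real.pi * x * Complex.I)) (Ioi 0) := by
    intro x
    refine hLd.continuousOn.comp (by fun_prop) fun t ht => ?_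
    show 0 < ((t : ℂ) + 2 * Real.pi * x * Complex.I).re
    rw [hre]
    exact ht
  have hγi : ∀ x : ℝ, Tendsto (fun t : ℝ => L (t + 2 * Real.pi * x * Complex.I) -
      (t + ((2 * Real.pi * x : ℝ) : ℂ) * Complex.I)) atTop (𝓝 0) := by
    intro x
    have e1 : Tendsto (fun t : ℝ => Cb * Real.exp (-t)) atTop (𝓝 (Cb * 0)) :=
      (Real.tendsto_exp_neg_atTop_nhds_zero).const_mul Cb
    rw [mul_zero] at e1
    refine squeeze_zero_norm' ?_ e1
    filter_upwards [eventually_ge_atTop 1] with t ht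
    have e2 := hCb (t + 2 * Real.pi * x * Complex.I) (by rw [hre]; exact ht)
    rw [hre] at e2
    push_cast
    exact e2
  have h3 : ∀ x ∈ C, ∀ x' ∈ C, x < x' → φ x ≤ φ x' := by
    intro x hx x' hx' hxx
    have hpi : 0 < 2 * Real.pi := by positivity
    refine order_lemma (hγc x) (hγc x') ?_ (mul_lt_mul_of_pos_left hxx hpi) (hγi x) (hγi x')
      (hφ x hx).2.2.1 (hφ x' hx').2.2.1 (hφ x hx).2.2.2 (hφ x' hx').2.2.2
    intro s t hs ht heq
    have e1 := hLi _ _ (by rw [hre]; exact hs) (by rw [hre]; exact ht) heq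
    have e2 := congrArg Complex.im e1
    simp at e2
    exact hxx.ne e2
  obtain ⟨φ0, hφ0, hlast⟩ := rot_unique hp hpq hc hθ hC h1 h2 h3
  refine ⟨φ0, ?_, fun i => ?_, hlast⟩
  · obtain ⟨hm0, he0⟩ := hφ0 0
    have e1 := (hφ _ hm0).1
    rw [he0] at e1
    simpa using e1
  · obtain ⟨hmi, hei⟩ := hφ0 i
    have e1 : ray l (ang p q i + ((i / q : ℤ) : ℝ)) = ray l (ang p q i) := by
      funext t
      exact ray_add_int l (ang p q i) t (i / q)
    have e2 := hland _ hmi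
    have e3 := (hφ _ hmi).2.1
    rw [e1] at e2
    simp only [e1] at e3
    rw [hei] at e3
    refine ⟨e2, ?_⟩
    have e4 : ((φ0 + 2 * Real.pi * i / q : ℝ) : ℂ) = φ0 + 2 * Real.pi * i / q := by push_cast; rfl
    rw [e4] at e3
    exact e3

end Pool.Agent.CR
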