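import Pool.Agent.H68.CR.R4

/-!
# CR R9: stability of rays landing at repelling points

`expand`: `(l, z) ↦ deriv ((f l)^[M]) z` is continuous (a polynomial in `l`, `z`); with `m0 = ‖deriv F ζ‖ > 1`, `m = (1+m0)/2`: there are `ε1, δ1 > 0` such that for
`‖l - l0‖ < δ1`, `z, z' ∈ closedBall ζ ε1`: `m ‖z - z'‖ ≤ ‖(f l)^[M] z - (f l)^[M] z'‖` (mean value inequality for `(f l)^[M] z - deriv F ζ * z`).
`ray_stable`: we may assume `ε < ε1`. Choose `t1` with `‖ray l0 θ t - ζ‖ < ε/2` for `0 < t ≤ 2^M t1`. For `l` close to `l0`, `‖l‖ ≤ 1`, by `ray_continuousOn` and compactness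
`‖ray l θ t - ζ‖ < ε` for `t ∈ [t1/2^M, t1]`, and `‖(f l)^[M] ζ - ζ‖ < (m - 1) ε`. If `‖ray l θ t - ζ‖ ≥ ε` for some `t ≤ t1` let `t*` be the supremum of these `t`:
then `‖ray l θ t* - ζ‖ = ε`, `t* < t1/2^M`, and `z' = ray l θ (2^M t*) = (f l)^[M] (ray l θ t*)` has `‖z' - ζ‖ < ε`; but
`‖z' - ζ‖ ≥ m ε - ‖(f l)^[M] ζ - ζ‖ > ε`, a contradiction.
-/

set_option autoImplicit false

open Set Filter Topology

namespace Pool.Agent.CR

private theorem R9_iter_cont (n : ℕ) : Continuous (fun p : ℂ × ℂ => (f p.1)^[n] p.2) := by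
  induction n with
  | zero => exact continuous_snd
  | succ n ih =>
    have h1 : (fun p : ℂ × ℂ => (f p.1)^[n + 1] p.2) =
        fun p => ((f p.1)^[n] p.2) ^ 2 + p.1 * (f p.1)^[n] p.2 := by
      funext p
      rw [Function.iterate_succ_apply']
      rfl
    rw [h1]
    exact (ih.pow 2).add (continuous_fst.mul ih)

/-- the derivative of the iterates -/
private noncomputable def R9_d : ℕ → ℂ × ℂ → ℂ
  | 0 => fun _ => 1
  | (n + 1) => fun p => (2 * (f p.1)^[n] p.2 + p.1) * R9_d n p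

private theorem R9_d_cont (n : ℕ) : Continuous (R9_d n) := by
  induction n with
  | zero => exact continuous_const
  | succ n ih =>
    show Continuous (fun p => (2 * (f p.1)^[n] p.2 + p.1) * R9_d n p)
    exact ((continuous_const.mul (R9_iter_cont n)).add continuous_fst).mul ih

private theorem R9_d_deriv (n : ℕ) (l z : ℂ) : HasDerivAt ((f l)^[n]) (R9_d n (l, z)) z := by
  induction n with
  | zero => exact hasDerivAt_id z
  | succ n ih =>
    have h1 : (f l)^[n + 1] = fun z => ((f l)^[n] z) ^ 2 + l * (f l)^[n] z := by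
      funext z
      rw [Function.iterate_succ_apply']
      rfl
    rw [h1]
    have h2 := (ih.pow 2).add (ih.const_mul l)
    refine h2.congr_deriv ?_
    show _ = (2 * (f l)^[n] z + l) * R9_d n (l, z)
    simp only [Nat.cast_ofNat]
    ring

theorem expand {l0 ζ : ℂ} {M : ℕ} (hrep : 1 < ‖deriv ((f l0)^[M]) ζ‖) :
    ∃ m > 1, ∃ ε > 0, ∃ δ > 0, ∀ l, ‖l - l0‖ < δ → ∀ z ∈ Metric.closedBall ζ ε,
      ∀ z' ∈ Metric.closedBall ζ ε, m * ‖z - z'‖ ≤ ‖(f l)^[M] z - (f l)^[M] z'‖ := by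
  rw [(R9_d_deriv M l0 ζ).deriv] at hrep
  set μ : ℂ := R9_d M (l0, ζ) with hμ
  have h1 : ∀ᶠ p in 𝓝 (l0, ζ), ‖R9_d M p - μ‖ < (‖μ‖ - 1) / 2 := by
    have h2 := ((R9_d_cont M).tendsto (l0, ζ)).sub_const μ
    rw [← hμ, sub_self] at h2
    have h3 := h2.norm
    rw [norm_zero] at h3
    exact h3.eventually_lt_const (by linarith)
  rw [Metric.eventually_nhds_iff] at h1
  obtain ⟨δ, hδ, h2⟩ := h1
  refine ⟨(1 + ‖μ‖) / 2, by linarith, δ / 2, by positivity, δ, hδ, fun l hl z hz z' hz' => ?_⟩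
  have h3 : ∀ y ∈ Metric.closedBall ζ (δ / 2), ‖R9_d M (l, y) - μ‖ ≤ (‖μ‖ - 1) / 2 := by
    intro y hy
    refine (h2 ?_).le
    rw [Prod.dist_eq]
    refine max_lt ?_ ?_
    · rw [dist_eq_norm]
      exact hl
    · rw [Metric.mem_closedBall] at hy
      show dist y ζ < δ
      linarith
  have h4 := (convex_closedBall ζ (δ / 2)).norm_image_sub_le_of_norm_hasDerivWithin_le
    (f := fun y => (f l)^[M] y - μ * y) (f' := fun y => R9_d M (l, y) - μ)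
    (fun y _ => (((R9_d_deriv M l y).sub ((hasDerivAt_id y).const_mul μ)).congr_deriv
      (by simp)).hasDerivWithinAt) h3 hz' hz
  have h5 : μ * (z - z') = ((f l)^[M] z - (f l)^[M] z') -
      (((f l)^[M] z - μ * z) - ((f l)^[M] z' - μ * z')) := by ring
  have h6 : ‖μ‖ * ‖z - z'‖ ≤ ‖(f l)^[M] z - (f l)^[M] z'‖ + (‖μ‖ - 1) / 2 * ‖z - z'‖ := by
    rw [← norm_mul, h5]
    exact (norm_sub_le _ _).trans (by linarith)
  linarith

theorem ray_stable {l0 : ℂ} (hl0 : ‖l0‖ ≤ 1) {M : ℕ} (hM : 1 ≤ M) {θ : ℝ} {m : ℤ}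
    (hθ : (2 ^ M - 1) * θ = m) {ζ : ℂ} (hF : (f l0)^[M] ζ = ζ)
    (hrep : 1 < ‖deriv ((f l0)^[M]) ζ‖) (hland : Tendsto (ray l0 θ) (𝓝[>] 0) (𝓝 ζ))
    {ε : ℝ} (hε : 0 < ε) :
    ∃ δ > 0, ∃ t1 > 0, ∀ l, ‖l‖ ≤ 1 → ‖l - l0‖ < δ → ∀ t, 0 < t → t ≤ t1 →
      ‖ray l θ t - ζ‖ ≤ ε := by
  obtain ⟨m1, hm1, ε1, hε1, δ1, hδ1, hexp⟩ := expand hrep
  set ε' : ℝ := min ε ε1 with hε'
  have hε'0 : 0 < ε' := lt_min hε hε1
  have hR : (1 : ℝ) < 2 ^ M := one_lt_pow₀ (by norm_num) (by omega)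
  -- `t1`
  have h1 : ∃ t1 > 0, ∀ t, 0 < t → t ≤ t1 → ‖ray l0 θ t - ζ‖ < ε' / 2 := by
    have h2 : ∀ᶠ t in 𝓝[>] (0 : ℝ), dist (ray l0 θ t) ζ < ε' / 2 :=
      (Metric.tendsto_nhds.1 hland) (ε' / 2) (by positivity)
    rw [eventually_nhdsWithin_iff, Metric.eventually_nhds_iff] at h2
    obtain ⟨δ, hδ, h3⟩ := h2
    refine ⟨δ / 2, by positivity, fun t ht ht' => ?_⟩
    have h4 : dist t 0 < δ := by
      rw [Real.dist_eq, sub_zero, abs_of_pos ht]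
      linarith
    rw [← dist_eq_norm]
    exact h3 h4 ht
  obtain ⟨t1, ht1, hnear⟩ := h1
  -- uniform continuity
  have hK : IsCompact (Metric.closedBall (0 : ℂ) 1 ×ˢ Icc (t1 / 2 ^ M) t1) :=
    (isCompact_closedBall (0 : ℂ) 1).prod isCompact_Icc
  have hcont : ContinuousOn (fun p : ℂ × ℝ => ray p.1 θ p.2)
      (Metric.closedBall (0 : ℂ) 1 ×ˢ Icc (t1 / 2 ^ M) t1) := by
    have h2 : Continuous (fun p : ℂ × ℝ => ((p.1, θ, p.2) : ℂ × ℝ × ℝ)) := by fun_prop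
    refine ray_continuousOn.comp h2.continuousOn fun p hp => ⟨?_, ?_⟩
    · simpa using hp.1
    · exact lt_of_lt_of_le (by positivity) hp.2.1
  have huc := hK.uniformContinuousOn_of_continuous hcont
  rw [Metric.uniformContinuousOn_iff] at huc
  obtain ⟨δ2, hδ2, h2⟩ := huc (ε' / 2) (by positivity)
  -- the fixed point
  have h3 : ∀ᶠ l in 𝓝 l0, ‖(f l)^[M] ζ - ζ‖ < (m1 - 1) * ε' := by
    have h4 : Tendsto (fun l => (f l)^[M] ζ - ζ) (𝓝 l0) (𝓝 ((f l0)^[M] ζ - ζ)) := by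
      have h5 : Continuous (fun l : ℂ => ((l, ζ) : ℂ × ℂ)) := by fun_prop
      exact (((R9_iter_cont M).comp h5).tendsto l0).sub_const ζ
    rw [hF, sub_self] at h4
    have h5 := h4.norm
    rw [norm_zero] at h5
    exact h5.eventually_lt_const (mul_pos (by linarith) hε'0)
  rw [Metric.eventually_nhds_iff] at h3
  obtain ⟨δ3, hδ3, h4⟩ := h3
  refine ⟨min δ1 (min δ2 δ3), lt_min hδ1 (lt_min hδ2 hδ3), t1, ht1, fun l hl hll t ht htt => ?_⟩
  have hl1 : ‖l - l0‖ < δ1 := hll.trans_le (min_le_left _ _)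
  have hl2 : ‖l - l0‖ < δ2 := hll.trans_le ((min_le_right _ _).trans (min_le_left _ _))
  have hl3 : ‖l - l0‖ < δ3 := hll.trans_le ((min_le_right _ _).trans (min_le_right _ _))
  have hfix : ‖(f l)^[M] ζ - ζ‖ < (m1 - 1) * ε' := h4 (by rw [dist_eq_norm]; exact hl3)
  have hfund : ∀ s ∈ Icc (t1 / 2 ^ M) t1, ‖ray l θ s - ζ‖ < ε' := by
    intro s hs
    have h5 := h2 (l, s) ⟨by simpa using hl, hs⟩ (l0, s) ⟨by simpa using hl0, hs⟩ (by
      rw [Prod.dist_eq, dist_self, dist_eq_norm]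
      exact max_lt hl2 hδ2)
    rw [dist_eq_norm] at h5
    have h6 := hnear s (lt_of_lt_of_le (by positivity) hs.1) hs.2
    have h7 : ray l θ s - ζ = (ray l θ s - ray l0 θ s) + (ray l0 θ s - ζ) := by ring
    rw [h7]
    exact (norm_add_le _ _).trans_lt (by
      show ‖ray l θ s - ray l0 θ s‖ + _ < _
      linarith [show ‖ray l θ s - ray l0 θ s‖ < ε' / 2 from h5])
  refine le_trans ?_ (min_le_left ε ε1)
  rw [← hε']
  by_contra hcon
  rw [not_le] at hcon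
  have hgc : ContinuousOn (fun s => ‖ray l θ s - ζ‖) (Ioi 0) :=
    ((ray_continuousOn' hl θ).sub continuousOn_const).norm
  -- the last bad time
  have hBc : IsCompact (Icc t t1 ∩ (fun s => ‖ray l θ s - ζ‖) ⁻¹' Ici ε') := by
    have h5 : ContinuousOn (fun s => ‖ray l θ s - ζ‖) (Icc t t1) :=
      hgc.mono fun s hs => lt_of_lt_of_le ht hs.1
    exact isCompact_Icc.of_isClosed_subset (h5.preimage_isClosed_of_isClosed isClosed_Icc
      isClosed_Ici) inter_subset_left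
  obtain ⟨s, ⟨⟨hs1, hs2⟩, hs3⟩, hsmax⟩ := hBc.exists_isGreatest ⟨t, ⟨le_rfl, htt⟩, hcon.le⟩
  have hs0 : 0 < s := lt_of_lt_of_le ht hs1
  have hs3' : ε' ≤ ‖ray l θ s - ζ‖ := hs3
  have hs4 : s < t1 / 2 ^ M := by
    by_contra h5
    exact absurd (hfund s ⟨not_lt.1 h5, hs2⟩) (not_lt.2 hs3')
  have hs5 : s < t1 := hs4.trans_le (div_le_self ht1.le hR.le)
  have hs6 : ‖ray l θ s - ζ‖ ≤ ε' := by
    have h5 : Tendsto (fun s => ‖ray l θ s - ζ‖) (𝓝[>] s) (𝓝 ‖ray l θ s - ζ‖) :=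
      ((hgc s hs0).continuousAt (Ioi_mem_nhds hs0)).tendsto.mono_left nhdsWithin_le_nhds
    refine le_of_tendsto h5 ?_
    filter_upwards [Ioc_mem_nhdsGT hs5] with r hr
    by_contra h6
    exact absurd (hsmax ⟨⟨hs1.trans hr.1.le, hr.2⟩, (not_le.1 h6).le⟩) (not_le.2 hr.1)
  have hs7 : ‖ray l θ (2 ^ M * s) - ζ‖ < ε' := by
    have h5 : s < 2 ^ M * s := by nlinarith
    have h6 : 2 ^ M * s ≤ t1 := by
      rw [lt_div_iff₀ (by positivity)] at hs4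
      linarith
    by_contra h7
    exact absurd (hsmax ⟨⟨hs1.trans h5.le, h6⟩, not_lt.1 h7⟩) (not_le.2 h5)
  have hz : (f l)^[M] (ray l θ s) = ray l θ (2 ^ M * s) := by
    rw [ray_iter hl θ hs0]
    have h1 : (2 : ℝ) ^ M * θ = θ + m := by linarith
    rw [h1, ray_add_int]
  have h5 := hexp l hl1 (ray l θ s) (by
    rw [mem_closedBall_iff_norm]
    exact hs6.trans (min_le_right _ _)) ζ (Metric.mem_closedBall_self hε1.le)
  rw [hz] at h5
  have h6 : ‖ray l θ (2 ^ M * s) - (f l)^[M] ζ‖ ≤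
      ‖ray l θ (2 ^ M * s) - ζ‖ + ‖(f l)^[M] ζ - ζ‖ := by
    have h7 : ray l θ (2 ^ M * s) - (f l)^[M] ζ =
        (ray l θ (2 ^ M * s) - ζ) - ((f l)^[M] ζ - ζ) := by ring
    rw [h7]
    exact norm_sub_le _ _
  nlinarith

end Pool.Agent.CR
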