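import Pool.Agent.H68.CR.R8
import Pool.Agent.H68.CR.R9
import Pool.Agent.H68.CR.R15

/-!
# CR R16: main theorem of Part R

`l0 = mu (p/q)`, `N0 = 2^q - 1`, `θ j = j/N0` for `j < N0`; `l n = (1 - 1/(n+2)) l0`. `exists_par` gives `A`, `k` with `q ∣ k`, `Par F A k`.
`exists_limit`: by compactness of `closedBall 0 2` (`norm_za_le`) there is a strictly increasing `u : ℕ → ℕ` with `za (l (u n)) (θ j) → ζ j` for all `j < N0`. `za_prod` passes to the limit
(`(f l)^[q] z` is continuous in `l`): `F z - z = z ∏ (z - ζ j)`. Let `S = {j < N0 | ζ j = 0}`; comparing the orders at `0` with `F z - z = z^(k+1) G z`, `G 0 ≠ 0`: `card S = k` (if `card S ≠ k` divide by the smaller power of `z` and let `z → 0`).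
For `j ∈ S` the ray of angle `θ j` lands at some `ζ'` (`ray_lands`); if `ζ' ≠ 0` then `ζ'` is repelling (`land_repelling`), by `ray_stable` `‖za (l n) (θ j) - ζ'‖ ≤ ε` for large `n`, so `ζ j = ζ' ≠ 0`, contradiction. So the ray lands at
`0`, and by `cycle_eq` `θ j = ang p q i + n`; by `ang_add_q` we may take `0 ≤ i < q`. `j ↦ i` is injective on `S` (equal `i` implies `θ j - θ j' ∈ ℤ`, so `j = j'`). So `k = card S ≤ q`, and `k ≥ 1`, `q ∣ k`: `k = q`. `S` is nonempty; apply
`cycle_eq` to an element.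
-/

set_option autoImplicit false

open Set Filter Topology

namespace Pool.Agent.CR

private theorem R16_iter_continuous (n : ℕ) (z : ℂ) : Continuous (fun l => (f l)^[n] z) := by
  induction n with
  | zero => exact continuous_const
  | succ n ih =>
    have h1 : (fun l => (f l)^[n + 1] z) = fun l => ((f l)^[n] z) ^ 2 + l * (f l)^[n] z := by
      funext l
      rw [Function.iterate_succ_apply']
      rfl
    rw [h1]
    exact (ih.pow 2).add (continuous_id.mul ih)

private theorem R16_order_lt {a b : ℕ} {G Q : ℂ → ℂ} (hG : Continuous G) (hQ : Continuous Q)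
    (h0 : G 0 ≠ 0) (h : ∀ z, z ^ a * G z = z ^ b * Q z) : ¬ a < b := by
  intro hab
  obtain ⟨c, rfl⟩ := Nat.exists_eq_add_of_lt hab
  have h1 : ∀ z : ℂ, z ≠ 0 → G z = z ^ (c + 1) * Q z := by
    intro z hz
    have h2 := h z
    rw [add_assoc, pow_add, mul_assoc] at h2
    exact mul_left_cancel₀ (pow_ne_zero a hz) h2
  have h3 : Tendsto G (𝓝[≠] 0) (𝓝 (G 0)) := hG.continuousAt.tendsto.mono_left nhdsWithin_le_nhds
  have h4 : Tendsto (fun z : ℂ => z ^ (c + 1) * Q z) (𝓝[≠] 0) (𝓝 ((0 : ℂ) ^ (c + 1) * Q 0)) := by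
    have h5 : Continuous (fun z : ℂ => z ^ (c + 1) * Q z) := (continuous_pow _).mul hQ
    exact h5.continuousAt.tendsto.mono_left nhdsWithin_le_nhds
  have h5 : Tendsto G (𝓝[≠] 0) (𝓝 ((0 : ℂ) ^ (c + 1) * Q 0)) := by
    refine h4.congr' ?_
    filter_upwards [self_mem_nhdsWithin] with z hz
    exact (h1 z hz).symm
  have h6 := tendsto_nhds_unique h3 h5
  rw [zero_pow (Nat.succ_ne_zero c), zero_mul] at h6
  exact h0 h6

private theorem R16_order {a b : ℕ} {G Q : ℂ → ℂ} (hG : Continuous G) (hQ : Continuous Q)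
    (h0 : G 0 ≠ 0) (h0' : Q 0 ≠ 0) (h : ∀ z, z ^ a * G z = z ^ b * Q z) : a = b := by
  have h1 := R16_order_lt hG hQ h0 h
  have h2 := R16_order_lt hQ hG h0' fun z => (h z).symm
  omega

private theorem R16_ang_add {p q : ℕ} (hq : 0 < q) (i : ℤ) (m : ℤ) :
    ang p q (i + q * m) = ang p q i := by
  induction m using Int.induction_on with
  | zero => rw [mul_zero, add_zero]
  | succ m ih =>
    rw [mul_add, mul_one, ← add_assoc, ang_add_q hq, ih]
  | pred m ih =>
    have h1 : i + q * (-(m : ℤ)) = (i + q * (-(m : ℤ) - 1)) + q := by ring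
    rw [← ih, h1, ang_add_q hq]

theorem R_main {p q : ℕ} (hp : 0 < p) (hpq : p < q) (hc : Nat.Coprime p q) :
    ∃ A : ℂ, ∃ φ0 : ℝ, Par ((f (mu (p / q)))^[q]) A q ∧ A * Complex.exp (q * φ0 * Complex.I) = ‖A‖ ∧
      ∀ i : ℤ, Tendsto (ray (mu (p / q)) (ang p q i)) (𝓝[>] 0) (𝓝 0) ∧
        Tendsto (fun t => ray (mu (p / q)) (ang p q i) t / ‖ray (mu (p / q)) (ang p q i) t‖) (𝓝[>] 0)
          (𝓝 (Complex.exp ((φ0 + 2 * Real.pi * i / q) * Complex.I))) := by
  have hq : 0 < q := hp.trans hpq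
  obtain ⟨A, k, hqk, hPar⟩ := exists_par (p := p) hq hc
  set l0 : ℂ := mu (p / q) with hl0
  have hl0n : ‖l0‖ = 1 := norm_mu _
  have h2q : (1 : ℕ) < 2 ^ q := Nat.one_lt_two_pow hq.ne'
  have h2qr : (1 : ℝ) < 2 ^ q := by exact_mod_cast h2q
  -- the parameters
  set c : ℕ → ℝ := fun n => 1 - 1 / ((n : ℝ) + 2) with hcdef
  have hc0 : ∀ n, 0 ≤ c n := by
    intro n
    have h1 : (0 : ℝ) ≤ n := Nat.cast_nonneg n
    have h2 : 1 / ((n : ℝ) + 2) ≤ 1 := by
      rw [div_le_one (by linarith)]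
      linarith
    show 0 ≤ 1 - 1 / ((n : ℝ) + 2)
    linarith
  have hc1 : ∀ n, c n < 1 := by
    intro n
    have h1 : (0 : ℝ) ≤ n := Nat.cast_nonneg n
    have h2 : 0 < 1 / ((n : ℝ) + 2) := by positivity
    show 1 - 1 / ((n : ℝ) + 2) < 1
    linarith
  have hct : Tendsto c atTop (𝓝 1) := by
    have h1 : Tendsto (fun n : ℕ => 1 / ((n : ℝ) + 2)) atTop (𝓝 0) := by
      have h2 : Tendsto (fun n : ℕ => (n : ℝ) + 2) atTop atTop :=
        tendsto_atTop_add_const_right _ _ tendsto_natCast_atTop_atTop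
      refine h2.inv_tendsto_atTop.congr fun n => ?_
      show ((n : ℝ) + 2)⁻¹ = 1 / ((n : ℝ) + 2)
      rw [one_div]
    have h3 := (tendsto_const_nhds (x := (1 : ℝ))).sub h1
    rw [sub_zero] at h3
    exact h3
  set l : ℕ → ℂ := fun n => (c n : ℂ) * l0 with hldef
  have hln : ∀ n, ‖l n‖ < 1 := by
    intro n
    show ‖(c n : ℂ) * l0‖ < 1
    rw [norm_mul, hl0n, mul_one, Complex.norm_real, Real.norm_eq_abs, abs_of_nonneg (hc0 n)]
    exact hc1 n
  have hlt : Tendsto l atTop (𝓝 l0) := by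
    have h1 : Tendsto (fun n => ((c n : ℝ) : ℂ) * l0) atTop (𝓝 (((1 : ℝ) : ℂ) * l0)) :=
      ((Complex.continuous_ofReal.tendsto _).comp hct).mul_const l0
    rw [Complex.ofReal_one, one_mul] at h1
    exact h1
  -- the limit points along an ultrafilter
  set U : Filter ℕ := (hyperfilter ℕ : Filter ℕ) with hU
  have hUt : U ≤ atTop := Nat.hyperfilter_le_atTop
  have hUne : U.NeBot := (hyperfilter ℕ).neBot
  have hlim : ∀ j : ℕ, ∃ ζ : ℂ, Tendsto (fun n => za (l n) ((j : ℝ) / (2 ^ q - 1))) U (𝓝 ζ) := by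
    intro j
    have h1 : IsCompact (Metric.closedBall (0 : ℂ) 2) := isCompact_closedBall 0 2
    obtain ⟨ζ, _, h2⟩ := h1.ultrafilter_le_nhds
      ((hyperfilter ℕ).map (fun n => za (l n) ((j : ℝ) / (2 ^ q - 1)))) (by
        rw [le_principal_iff, Ultrafilter.coe_map, Filter.mem_map]
        refine Filter.univ_mem' fun n => ?_
        show za (l n) ((j : ℝ) / (2 ^ q - 1)) ∈ Metric.closedBall (0 : ℂ) 2
        rw [mem_closedBall_zero_iff]
        exact norm_za_le (hln n) _)
    exact ⟨ζ, h2⟩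
  choose ζ hζ using hlim
  have hprod : ∀ z, (f l0)^[q] z - z = z * ∏ j ∈ Finset.range (2 ^ q - 1), (z - ζ j) := by
    intro z
    have h1 : Tendsto (fun n => (f (l n))^[q] z - z) U (𝓝 ((f l0)^[q] z - z)) :=
      (((R16_iter_continuous q z).tendsto l0).comp (hlt.mono_left hUt)).sub_const z
    have h2 : Tendsto (fun n => z * ∏ j ∈ Finset.range (2 ^ q - 1),
        (z - za (l n) ((j : ℝ) / (2 ^ q - 1)))) U
        (𝓝 (z * ∏ j ∈ Finset.range (2 ^ q - 1), (z - ζ j))) :=
      (tendsto_finsetProd _ fun j _ => (hζ j).const_sub z).const_mul z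
    refine tendsto_nhds_unique h1 (h2.congr fun n => ?_)
    exact (za_prod (hln n) hq z).symm
  -- the orders at `0`
  obtain ⟨G, hGd, hG0, hG⟩ := hPar.ex
  set S : Finset ℕ := (Finset.range (2 ^ q - 1)).filter (fun j => ζ j = 0) with hS
  have hcard : S.card = k := by
    have h1 : ∀ z, z ^ (k + 1) * G z = z ^ (S.card + 1) *
        ∏ j ∈ (Finset.range (2 ^ q - 1)).filter (fun j => ¬ ζ j = 0), (z - ζ j) := by
      intro z
      have h2 := hprod z
      rw [hG z, ← Finset.prod_filter_mul_prod_filter_not (Finset.range (2 ^ q - 1))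
        (fun j => ζ j = 0)] at h2
      have h3 : ∏ j ∈ (Finset.range (2 ^ q - 1)).filter (fun j => ζ j = 0), (z - ζ j) =
          z ^ S.card := by
        rw [Finset.prod_congr rfl (g := fun _ => z), Finset.prod_const]
        intro j hj
        rw [(Finset.mem_filter.1 hj).2, sub_zero]
      rw [h3] at h2
      rw [pow_succ z S.card]
      linear_combination h2
    have h4 := R16_order hGd.continuous (continuous_finsetProd _ fun j _ =>
      continuous_id.sub continuous_const) (by rw [hG0]; exact hPar.ne_zero) (by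
        rw [Finset.prod_ne_zero_iff]
        intro j hj
        have h5 := (Finset.mem_filter.1 hj).2
        show (0 : ℂ) - ζ j ≠ 0
        rw [zero_sub, neg_ne_zero]
        exact h5) h1
    omega
  -- the rays of angle `θ j`, `j ∈ S`, land at `0`
  have hint : ∀ j : ℕ, (2 ^ q - 1) * ((j : ℝ) / (2 ^ q - 1)) = ((j : ℤ) : ℝ) := by
    intro j
    rw [mul_div_cancel₀ _ (by linarith : (2 : ℝ) ^ q - 1 ≠ 0)]
    simp
  have hland : ∀ j ∈ S, Tendsto (ray l0 ((j : ℝ) / (2 ^ q - 1))) (𝓝[>] 0) (𝓝 0) := by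
    intro j hj
    have hj0 : ζ j = 0 := (Finset.mem_filter.1 hj).2
    obtain ⟨ζ', hF, hζ'⟩ := ray_lands hl0n.le hq (hint j)
    by_cases h0 : ζ' = 0
    · rw [h0] at hζ'
      exact hζ'
    · exfalso
      have hrep := land_repelling hq hc hq hF h0 hζ'
      have hn0 : 0 < ‖ζ'‖ := norm_pos_iff.2 h0
      obtain ⟨δ, hδ, t1, ht1, hst⟩ := ray_stable hl0n.le hq (hint j) hF hrep hζ'
        (show 0 < ‖ζ'‖ / 2 by positivity)
      have h1 : ∀ᶠ n in U, ‖za (l n) ((j : ℝ) / (2 ^ q - 1)) - ζ'‖ ≤ ‖ζ'‖ / 2 := by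
        have h2 : ∀ᶠ n in U, l n ∈ Metric.ball l0 δ :=
          (hlt.mono_left hUt) (Metric.ball_mem_nhds l0 hδ)
        filter_upwards [h2] with n hn
        rw [mem_ball_iff_norm] at hn
        refine le_of_tendsto ((za_tendsto (hln n) ((j : ℝ) / (2 ^ q - 1))).sub_const ζ').norm ?_
        filter_upwards [Ioc_mem_nhdsGT ht1] with t ht
        exact hst (l n) (hln n).le hn t ht.1 ht.2
      have h2 := le_of_tendsto ((hζ j).sub_const ζ').norm h1
      rw [hj0, zero_sub, norm_neg] at h2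
      linarith
  have hcyc := fun j (hj : j ∈ S) => cycle_eq hp hpq hc hPar (hint j) (hland j hj)
  -- counting
  have hSq : S.card ≤ q := by
    have h1 : ∀ j, ∃ i : ℕ, i < q ∧ (j ∈ S → ∃ n : ℤ, (j : ℝ) / (2 ^ q - 1) = ang p q i + n) := by
      intro j
      by_cases hj : j ∈ S
      · obtain ⟨φ0, _, _, i, n, hin⟩ := hcyc j hj
        have hq' : (0 : ℤ) < q := by exact_mod_cast hq
        refine ⟨(i % q).toNat, ?_, fun _ => ⟨n, ?_⟩⟩
        · have h2 := Int.emod_lt_of_pos i hq'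
          have h3 := Int.emod_nonneg i hq'.ne'
          omega
        · have h3 := Int.emod_nonneg i hq'.ne'
          rw [Int.toNat_of_nonneg h3, hin]
          have h4 := R16_ang_add (p := p) hq (i % q) (i / q)
          rw [Int.emod_add_mul_ediv] at h4
          rw [h4]
      · exact ⟨0, hq, fun h => absurd h hj⟩
    choose g hg1 hg2 using h1
    have h2 : S.card ≤ (Finset.range q).card := by
      refine Finset.card_le_card_of_injOn g (fun j _ => Finset.mem_coe.2 (Finset.mem_range.2 (hg1 j)))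
        ?_
      intro j hj j' hj' hjj
      obtain ⟨n, hn⟩ := hg2 j hj
      obtain ⟨n', hn'⟩ := hg2 j' hj'
      rw [hjj] at hn
      have h3 : (j : ℝ) / (2 ^ q - 1) - (j' : ℝ) / (2 ^ q - 1) = ((n - n' : ℤ) : ℝ) := by
        rw [hn, hn']
        push_cast
        ring
      have hN : (0 : ℝ) < 2 ^ q - 1 := by linarith
      have h4 : (j : ℝ) - j' = (n - n' : ℤ) * (2 ^ q - 1) := by
        rw [← h3]
        field_simp
      have hjr : ∀ j ∈ S, (j : ℝ) < 2 ^ q - 1 := by
        intro j hj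
        have h5 := Finset.mem_range.1 (Finset.mem_filter.1 hj).1
        have h6 : j + 1 < 2 ^ q := by omega
        have h7 : ((j + 1 : ℕ) : ℝ) < ((2 ^ q : ℕ) : ℝ) := by exact_mod_cast h6
        push_cast at h7
        linarith
      have h5 := hjr j hj
      have h6 := hjr j' hj'
      have h7 : (0 : ℝ) ≤ j := Nat.cast_nonneg j
      have h8 : (0 : ℝ) ≤ j' := Nat.cast_nonneg j'
      have h9 : n - n' = 0 := by
        by_contra hne
        rcases lt_or_gt_of_ne hne with hlt | hgt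
        · have : ((n - n' : ℤ) : ℝ) ≤ -1 := by exact_mod_cast (by omega : n - n' ≤ -1)
          nlinarith
        · have : (1 : ℝ) ≤ ((n - n' : ℤ) : ℝ) := by exact_mod_cast (by omega : 1 ≤ n - n')
          nlinarith
      rw [h9, Int.cast_zero, zero_mul, sub_eq_zero] at h4
      exact_mod_cast h4
    rwa [Finset.card_range] at h2
  have hkq : k = q := by
    have h1 := Nat.le_of_dvd (lt_of_lt_of_le Nat.zero_lt_one hPar.one_le) hqk
    omega
  have hne : S.Nonempty := by
    rw [← Finset.card_pos, hcard, hkq]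
    exact hq
  obtain ⟨j, hj⟩ := hne
  obtain ⟨φ0, h1, h2, _⟩ := hcyc j hj
  rw [hkq] at hPar h1
  exact ⟨A, φ0, hPar, h1, h2⟩

end Pool.Agent.CR
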