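import Mathlib

/-!
# CR R0: a path along which a nonzero polynomial tends to `0` converges to a root

If `P` is constant the hypothesis `hP0` is contradictory. Otherwise let `Z = P.roots.toFinset` (nonempty, as `ℂ` is
algebraically closed). `‖P z‖ = ‖c‖ ∏_{ζ ∈ roots} ‖z - ζ‖ ≥ ‖c‖ (min_{ζ∈Z} ‖z - ζ‖)^{deg P}`; so for every `ε > 0` there is `t1 ≤ t0` with: for all
`t ∈ (0, t1)` there is `ζ ∈ Z` with `‖γ t - ζ‖ < ε`. If `ε` is smaller than half of the minimal distance of two points of `Z`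
the sets `{t ∈ (0,t1) | γ t ∈ ball ζ ε}`, `ζ ∈ Z`, are disjoint, relatively open and cover the connected interval `(0,t1)`: one of them
is everything. This `ζ` does not depend on `ε` (intervals for different `ε` intersect).
-/

set_option autoImplicit false

open Set Filter Topology

namespace Pool.Agent.CR

private theorem R0_prod (s : Multiset ℂ) (z : ℂ) (ε : ℝ) (hε : 0 ≤ ε)
    (h : ∀ ζ ∈ s, ε ≤ ‖z - ζ‖) : ε ^ Multiset.card s ≤ ‖(s.map fun ζ => z - ζ).prod‖ := by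
  induction s using Multiset.induction_on with
  | empty => simp
  | cons a s ih =>
    rw [Multiset.card_cons, Multiset.map_cons, Multiset.prod_cons, norm_mul, pow_succ']
    exact mul_le_mul (h a (Multiset.mem_cons_self a s))
      (ih fun ζ hζ => h ζ (Multiset.mem_cons_of_mem hζ)) (pow_nonneg hε _) (norm_nonneg _)

private theorem R0_near {P : Polynomial ℂ} (hP : P ≠ 0) {ε : ℝ} (hε : 0 < ε) :
    ∃ η > 0, ∀ z, ‖P.eval z‖ < η → ∃ ζ ∈ P.roots, ‖z - ζ‖ < ε := by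
  have hc : 0 < ‖P.leadingCoeff‖ := norm_pos_iff.2 (Polynomial.leadingCoeff_ne_zero.2 hP)
  refine ⟨‖P.leadingCoeff‖ * ε ^ Multiset.card P.roots, mul_pos hc (pow_pos hε _), ?_⟩
  intro z hz
  by_contra hcon
  push Not at hcon
  have h1 := R0_prod P.roots z ε hε.le hcon
  rw [(IsAlgClosed.splits P).eval_eq_prod_roots, norm_mul] at hz
  exact absurd (lt_of_mul_lt_mul_left hz hc.le) (not_lt.2 h1)

theorem tendsto_root_of_poly {P : Polynomial ℂ} (hP : P ≠ 0) {γ : ℝ → ℂ} {t0 : ℝ} (ht0 : 0 < t0)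
    (hγ : ContinuousOn γ (Ioo 0 t0)) (hP0 : Tendsto (fun t => P.eval (γ t)) (𝓝[>] 0) (𝓝 0)) :
    ∃ ζ, P.eval ζ = 0 ∧ Tendsto γ (𝓝[>] 0) (𝓝 ζ) := by
  classical
  -- eventually near the roots
  have hev : ∀ ε : ℝ, 0 < ε → ∀ᶠ t in 𝓝[>] (0 : ℝ), ∃ ζ ∈ P.roots, ‖γ t - ζ‖ < ε := by
    intro ε hε
    obtain ⟨η, hη, h⟩ := R0_near hP hε
    have h1 : ∀ᶠ t in 𝓝[>] (0 : ℝ), P.eval (γ t) ∈ Metric.ball (0 : ℂ) η :=
      hP0 (Metric.ball_mem_nhds _ hη)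
    refine h1.mono fun t ht => h _ ?_
    rwa [mem_ball_zero_iff] at ht
  -- separation of the roots
  obtain ⟨δ, hδ, hsep⟩ : ∃ δ : ℝ, 0 < δ ∧ ∀ a ∈ P.roots, ∀ b ∈ P.roots, ‖a - b‖ < 2 * δ → a = b := by
    have h1 : ∀ᶠ δ in 𝓝[>] (0 : ℝ), ∀ x ∈ (P.roots.toFinset ×ˢ P.roots.toFinset),
        ‖x.1 - x.2‖ < 2 * δ → x.1 = x.2 := by
      rw [Filter.eventually_all_finset]
      intro x _
      by_cases hx : x.1 = x.2
      · exact Eventually.of_forall fun _ _ => hx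
      · have hpos : 0 < ‖x.1 - x.2‖ / 2 := by
          have := norm_pos_iff.2 (sub_ne_zero.2 hx)
          linarith
        filter_upwards [Ioo_mem_nhdsGT hpos] with δ hδ h
        exfalso
        have := hδ.2
        linarith
    obtain ⟨δ, h2, h3⟩ := (h1.and self_mem_nhdsWithin).exists
    refine ⟨δ, h3, fun a ha b hb hab => h2 (a, b) ?_ hab⟩
    rw [Finset.mem_product]
    exact ⟨Multiset.mem_toFinset.2 ha, Multiset.mem_toFinset.2 hb⟩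
  -- an interval on which the path is near the roots
  obtain ⟨t1, ht1, hsub⟩ : ∃ t1 : ℝ, 0 < t1 ∧
      ∀ t ∈ Ioo 0 t1, t ∈ Ioo 0 t0 ∧ ∃ ζ ∈ P.roots, ‖γ t - ζ‖ < δ := by
    have h1 := (Ioo_mem_nhdsGT ht0 : Ioo 0 t0 ∈ 𝓝[>] (0 : ℝ))
    obtain ⟨t1, ht1, h2⟩ := (mem_nhdsGT_iff_exists_Ioo_subset.1 (inter_mem h1 (hev δ hδ)))
    exact ⟨t1, ht1, fun t ht => ⟨(h2 ht).1, (h2 ht).2⟩⟩
  have hmid : t1 / 2 ∈ Ioo 0 t1 := ⟨by linarith, by linarith⟩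
  obtain ⟨-, ζ, hζ, hζ1⟩ := hsub (t1 / 2) hmid
  have hpre : IsPreconnected (γ '' Ioo 0 t1) :=
    isPreconnected_Ioo.image γ (hγ.mono fun t ht => (hsub t ht).1)
  have hin : γ '' Ioo 0 t1 ⊆ Metric.ball ζ δ := by
    refine hpre.subset_left_of_subset_union Metric.isOpen_ball
      (v := ⋃ ξ ∈ {ξ | ξ ∈ P.roots ∧ ξ ≠ ζ}, Metric.ball ξ δ)
      (isOpen_biUnion fun ξ _ => Metric.isOpen_ball) ?_ ?_ ?_
    · rw [Set.disjoint_left]
      intro z hz hz2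
      obtain ⟨ξ, hξ, hzξ⟩ := mem_iUnion₂.1 hz2
      apply hξ.2
      refine hsep ξ hξ.1 ζ hζ ?_
      rw [mem_ball_iff_norm] at hz hzξ
      calc ‖ξ - ζ‖ = ‖(z - ζ) - (z - ξ)‖ := by congr 1; ring
        _ ≤ ‖z - ζ‖ + ‖z - ξ‖ := norm_sub_le _ _
        _ < 2 * δ := by linarith
    · rintro _ ⟨t, ht, rfl⟩
      obtain ⟨-, ξ, hξ, hξ1⟩ := hsub t ht
      by_cases h : ξ = ζ
      · left
        rw [mem_ball_iff_norm, ← h]
        exact hξ1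
      · right
        refine mem_iUnion₂.2 ⟨ξ, ⟨hξ, h⟩, ?_⟩
        rw [mem_ball_iff_norm]
        exact hξ1
    · exact ⟨γ (t1 / 2), ⟨t1 / 2, hmid, rfl⟩, by rw [mem_ball_iff_norm]; exact hζ1⟩
  refine ⟨ζ, (Polynomial.mem_roots hP).1 hζ, ?_⟩
  rw [Metric.tendsto_nhds]
  intro ε hε
  filter_upwards [hev (min ε δ) (lt_min hε hδ), Ioo_mem_nhdsGT ht1] with t ht1' ht2
  obtain ⟨ξ, hξ, hξ1⟩ := ht1'
  have h1 : γ t ∈ Metric.ball ζ δ := hin ⟨t, ht2, rfl⟩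
  rw [mem_ball_iff_norm] at h1
  have h2 : ξ = ζ := by
    refine hsep ξ hξ ζ hζ ?_
    have h3 := hξ1.trans_le (min_le_right ε δ)
    calc ‖ξ - ζ‖ = ‖(γ t - ζ) - (γ t - ξ)‖ := by congr 1; ring
      _ ≤ ‖γ t - ζ‖ + ‖γ t - ξ‖ := norm_sub_le _ _
      _ < 2 * δ := by linarith
  rw [dist_eq_norm, ← h2]
  exact hξ1.trans_le (min_le_left ε δ)

end Pool.Agent.CR
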