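import Pool.Agent.H73.CR.B5
import Pool.Agent.H73.CR.KB

/-!
# CR R1: Harnack in `l`

`psi_zero_left`: `cf 0 k = 0` for `k ≥ 1` (strong induction with `cf_succ`: for `k + 1` all products `cf 0 (i+1) * cf 0 (k-i)` contain
a factor with index `≥ 1` which is smaller than `k+1` [the first one if `i < k`, the second one is `cf 0 0 = 1` only for `i = k`, where the
first is `cf 0 (k+1)`: note that `i : Fin k`, so `i + 1 ≤ k`], and for even `k + 1` the index `(k+1)/2` is between `1` and `k`).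
`psi_sub_bounds`: apply `harnack` (M = 6) to `g l = psi l w - psi l w'` on the unit disc: differentiable (`psi_differentiableOn_left`), nonzero
(`psi_injOn`), `‖g l‖ ≤ (‖w‖ + 1) + (‖w'‖ + 1) ≤ 6` (`norm_psi_le`), `g 0 = w - w'`.
-/

set_option autoImplicit false

open Set Filter Topology

namespace Pool.Agent.CR

private theorem R1_cf (k : ℕ) (hk : 1 ≤ k) : cf 0 k = 0 := by
  induction k using Nat.strong_induction_on with
  | _ k ih =>
    obtain ⟨m, rfl⟩ : ∃ m, k = m + 1 := ⟨k - 1, by omega⟩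
    rw [cf_succ]
    have h1 : (if Even (m + 1) then cf 0 ((m + 1) / 2) else 0) = 0 := by
      split_ifs with he
      · obtain ⟨a, ha⟩ := he
        exact ih _ (by omega) (by omega)
      · rfl
    have h2 : ∑ i : Fin m, cf 0 (i + 1) * cf 0 (m - i) = 0 := by
      apply Finset.sum_eq_zero
      intro i _
      rw [ih (i + 1) (by have := i.2; omega) (by omega), zero_mul]
    rw [h1, h2]
    simp

theorem psi_zero_left (w : ℂ) : psi 0 w = w := by
  unfold psi
  rw [tsum_eq_single 0]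
  · rw [cf_zero]; simp
  · intro k hk
    rw [R1_cf k (by omega), zero_mul]

theorem psi_sub_bounds {l w w' : ℂ} (hl : ‖l‖ < 1) (hw : 1 < ‖w‖) (hw2 : ‖w‖ ≤ 2) (hw' : 1 < ‖w'‖)
    (hw2' : ‖w'‖ ≤ 2) (hne : w ≠ w') :
    6 * (‖w - w'‖ / 6) ^ ((1 + ‖l‖) / (1 - ‖l‖)) ≤ ‖psi l w - psi l w'‖ ∧
      ‖psi l w - psi l w'‖ ≤ 6 * (‖w - w'‖ / 6) ^ ((1 - ‖l‖) / (1 + ‖l‖)) := by
  have hmem : ∀ z ∈ Metric.ball (0 : ℂ) 1, ‖z‖ < 1 := fun z hz => by simpa using hz
  have hg : DifferentiableOn ℂ (fun z => psi z w - psi z w') (Metric.ball 0 1) :=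
    (psi_differentiableOn_left hw).sub (psi_differentiableOn_left hw')
  have h0 : ∀ z ∈ Metric.ball (0 : ℂ) 1, psi z w - psi z w' ≠ 0 := by
    intro z hz h
    exact hne (psi_injOn (hmem z hz).le hw hw' (sub_eq_zero.1 h))
  have hM : ∀ z ∈ Metric.ball (0 : ℂ) 1, ‖psi z w - psi z w'‖ ≤ 6 := by
    intro z hz
    have h1 := norm_psi_le (hmem z hz).le hw
    have h2 := norm_psi_le (hmem z hz).le hw'
    have h3 := norm_sub_le (psi z w) (psi z w')
    linarith
  have hz : l ∈ Metric.ball (0 : ℂ) 1 := by simpa using hl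
  have hH := harnack hg h0 hM hz
  simp only [psi_zero_left] at hH
  have hd : 0 < ‖w - w'‖ := norm_pos_iff.2 (sub_ne_zero.2 hne)
  have hgl : 0 < ‖psi l w - psi l w'‖ := norm_pos_iff.2 (h0 l hz)
  set a := ‖w - w'‖ with ha
  set b := ‖psi l w - psi l w'‖ with hb
  have e1 : Real.log (6 / a) = - Real.log (a / 6) := by
    rw [← Real.log_inv, inv_div]
  have e2 : Real.log (6 / b) = - Real.log (b / 6) := by
    rw [← Real.log_inv, inv_div]
  rw [e1, e2] at hH
  have key : ∀ c : ℝ, Real.log ((a / 6) ^ c) = c * Real.log (a / 6) := fun c =>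
    Real.log_rpow (by positivity) c
  constructor
  · have h1 : Real.log ((a / 6) ^ ((1 + ‖l‖) / (1 - ‖l‖))) ≤ Real.log (b / 6) := by
      rw [key]; linarith [hH.2]
    have h2 := (Real.log_le_log_iff (by positivity) (by positivity)).1 h1
    linarith
  · have h1 : Real.log (b / 6) ≤ Real.log ((a / 6) ^ ((1 - ‖l‖) / (1 + ‖l‖))) := by
      rw [key]; linarith [hH.1]
    have h2 := (Real.log_le_log_iff (by positivity) (by positivity)).1 h1
    linarith

end Pool.Agent.CR
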