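import Mathlib

/-!
# CR R11: order lemma for two disjoint curves in the logarithmic plane

`γ, γ' : (0,∞) → ℂ` continuous, `γ s ≠ γ' t` for all `s, t`; as `t → ∞`: `γ t - (t + i a) → 0`, `γ' t - (t + i a') → 0`, `a < a'`; as `t → 0`: real parts `→ -∞`, imaginary parts `→ b, b'`.
Then `b ≤ b'`.
Proof. Suppose `d = b - b' > 0`. `Λ (s,t) = γ' t - γ s ≠ 0` on the open quadrant `Q`. By `Complex.exists_continuousOn_eqOn_exp_comp` (with `X = ℝ × ℝ`, `U = Ioi 0 ×ˢ Ioi 0`, convex, so simply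
connected) there is a continuous `ℓ` on `Q` with `exp ∘ ℓ = Λ`.
Choose `T0` with `‖γ t - (t + i a)‖, ‖γ' t - (t + i a')‖ < η = (a' - a)/4` (and `< 1`) for `t ≥ T0`, then `T > T0` such that `Re (γ T) > Re (γ' t)` and `Re (γ' T) > Re (γ t)` for all `t ≤ T0` (the real parts
of both curves are bounded above on `(0,T0]`), `t0 < T` with `Im (γ t) > b - d/4`, `Im (γ' t) < b' + d/4` for `t ≤ t0`, and `ε < t0` such that `Re (γ' ε) < Re (γ s)` and `Re (γ ε) < Re (γ' s)`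
for all `s ≥ t0` (the real parts are bounded below on `[t0,∞)`).
Path 1: `(T, t)`, `t` from `T` to `ε`, then `(s, ε)`, `s` from `T` to `ε`. On it `Λ ∉ [0,∞)`: `(T,t)`, `t ≥ T0`: `Im Λ ≥ (a' - a) - 2 η > 0`; `t ≤ T0`: `Re Λ < 0`; `(s, ε)`, `s ≥ t0`: `Re Λ < 0`;
`s ≤ t0`: `Im Λ < - d/2 < 0`. Path 2: `(s, T)`, `s` from `T` to `ε`, then `(ε, t)`, `t` from `T` to `ε`. On it `Λ ∉ (-∞,0]` (same estimates with opposite signs of the real parts).
On path 1 `log (-Λ) + π i` is a continuous logarithm of `Λ` with imaginary part in `(0, 2π)`, on path 2 `log Λ` is one, with imaginary part in `(-π, π)`. So (connected paths, differences in `2πiℤ`)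
`ℓ = log (-Λ) + π i + 2 π i m` on path 1 and `ℓ = log Λ + 2 π i m'` on path 2. At `(T,T)`: `Im Λ > 0` and `log (-Λ) + π i = log Λ`, so `m = m'`. At `(ε,ε)`: `Im Λ < 0` and `log (-Λ) + π i = log Λ + 2 π i`, so
`m + 1 = m'`: contradiction.
(Each path can be treated as two segments: it is enough to have the constant on each of the four segments and to compare at the common corners.)
-/

set_option autoImplicit false

open Set Filter Topology

namespace Pool.Agent.CR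

private lemma R11_top {Λ : ℝ × ℝ → ℂ} (hc : ContinuousOn Λ (Ioi 0 ×ˢ Ioi 0))
    (h0 : ∀ x ∈ (Ioi 0 ×ˢ Ioi 0 : Set (ℝ × ℝ)), Λ x ≠ 0) {ε T : ℝ} (hε : 0 < ε) (hεT : ε ≤ T)
    (h1 : ∀ t ∈ Icc ε T, (Λ (T, t)).im ≠ 0 ∨ (Λ (T, t)).re < 0)
    (h2 : ∀ s ∈ Icc ε T, (Λ (s, ε)).im ≠ 0 ∨ (Λ (s, ε)).re < 0)
    (h3 : ∀ s ∈ Icc ε T, (Λ (s, T)).im ≠ 0 ∨ 0 < (Λ (s, T)).re)
    (h4 : ∀ t ∈ Icc ε T, (Λ (ε, t)).im ≠ 0 ∨ 0 < (Λ (ε, t)).re)
    (hT : 0 < (Λ (T, T)).im) (he : (Λ (ε, ε)).im < 0) : False := by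
  have hT0 : 0 < T := hε.trans_le hεT
  have ho : IsOpen (Ioi 0 ×ˢ Ioi 0 : Set (ℝ × ℝ)) := isOpen_Ioi.prod isOpen_Ioi
  have hcx : Convex ℝ (Ioi 0 ×ˢ Ioi 0 : Set (ℝ × ℝ)) := (convex_Ioi 0).prod (convex_Ioi 0)
  have hne : (Ioi 0 ×ˢ Ioi 0 : Set (ℝ × ℝ)).Nonempty := ⟨(1, 1), by simp⟩
  have hcs : ContractibleSpace (Ioi 0 ×ˢ Ioi 0 : Set (ℝ × ℝ)) := hcx.contractibleSpace hne
  have hsc : SimplyConnectedSpace (Ioi 0 ×ˢ Ioi 0 : Set (ℝ × ℝ)) := inferInstance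
  obtain ⟨ℓ, hℓ1, hℓ2⟩ := Complex.exists_continuousOn_eqOn_exp_comp hsc ho hc (by
    rintro ⟨z, hz, hz0⟩
    exact h0 z hz hz0)
  have hmem : ∀ s t : ℝ, ε ≤ s → ε ≤ t → ((s, t) : ℝ × ℝ) ∈ (Ioi 0 ×ˢ Ioi 0 : Set (ℝ × ℝ)) :=
    fun s t hs ht => ⟨hε.trans_le hs, hε.trans_le ht⟩
  set m : ℤ := ⌊(ℓ (T, T)).im / (2 * Real.pi)⌋ with hm
  set θ : ℝ × ℝ → ℝ := fun x => (ℓ x).im - m * (2 * Real.pi) with hθ
  have hθc : ContinuousOn θ (Ioi 0 ×ˢ Ioi 0) :=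
    (Complex.continuous_im.comp_continuousOn hℓ1).sub continuousOn_const
  have him : ∀ x ∈ (Ioi 0 ×ˢ Ioi 0 : Set (ℝ × ℝ)),
      (Λ x).im = Real.exp (ℓ x).re * Real.sin (θ x) := by
    intro x hx
    rw [← hℓ2 hx]
    show (Complex.exp (ℓ x)).im = _
    rw [Complex.exp_im, hθ]
    simp only []
    rw [Real.sin_sub_int_mul_two_pi]
  have hre : ∀ x ∈ (Ioi 0 ×ˢ Ioi 0 : Set (ℝ × ℝ)),
      (Λ x).re = Real.exp (ℓ x).re * Real.cos (θ x) := by
    intro x hx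
    rw [← hℓ2 hx]
    show (Complex.exp (ℓ x)).re = _
    rw [Complex.exp_re, hθ]
    simp only []
    rw [Real.cos_sub_int_mul_two_pi]
  have hpi : 0 < 2 * Real.pi := by positivity
  have hα0 : 0 ≤ θ (T, T) := by
    have e1 := Int.floor_le ((ℓ (T, T)).im / (2 * Real.pi))
    rw [← hm, le_div_iff₀ hpi] at e1
    simp only [hθ]
    linarith
  have hα1 : θ (T, T) < 2 * Real.pi := by
    have e1 := Int.lt_floor_add_one ((ℓ (T, T)).im / (2 * Real.pi))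
    rw [← hm, div_lt_iff₀ hpi] at e1
    simp only [hθ]
    linarith
  have hsT : 0 < Real.sin (θ (T, T)) := by
    rw [him _ (hmem T T hεT hεT)] at hT
    exact (pos_iff_pos_of_mul_pos hT).1 (Real.exp_pos _)
  have hsε : Real.sin (θ (ε, ε)) < 0 := by
    rw [him _ (hmem ε ε le_rfl le_rfl)] at he
    by_contra hcon
    rw [not_lt] at hcon
    exact absurd (mul_nonneg (Real.exp_pos (ℓ (ε, ε)).re).le hcon) (not_le.2 he)
  have hαpi : θ (T, T) < Real.pi := by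
    by_contra hcon
    rw [not_lt] at hcon
    have e1 : Real.sin (θ (T, T) - 2 * Real.pi) ≤ 0 :=
      Real.sin_nonpos_of_nonpos_of_neg_pi_le (by linarith) (by linarith)
    rw [Real.sin_sub_two_pi] at e1
    linarith
  -- path 1
  have hβ0 : 0 < θ (ε, ε) := by
    by_contra hcon
    rw [not_lt] at hcon
    have hP : IsPreconnected (({T} ×ˢ Icc ε T) ∪ (Icc ε T ×ˢ {ε}) : Set (ℝ × ℝ)) := by
      refine IsPreconnected.union (T, ε) ⟨rfl, ⟨le_rfl, hεT⟩⟩ ⟨⟨hεT, le_rfl⟩, rfl⟩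
        (isPreconnected_singleton.prod isPreconnected_Icc)
        (isPreconnected_Icc.prod isPreconnected_singleton)
    have hsub : (({T} ×ˢ Icc ε T) ∪ (Icc ε T ×ˢ {ε}) : Set (ℝ × ℝ)) ⊆ Ioi 0 ×ˢ Ioi 0 := by
      rintro ⟨s, t⟩ (⟨hs, ht⟩ | ⟨hs, ht⟩)
      · rw [mem_singleton_iff] at hs
        dsimp only at hs ht
        exact hmem _ _ (by rw [hs]; exact hεT) ht.1
      · rw [mem_singleton_iff] at ht
        exact hmem _ _ hs.1 ht.ge
    have hiv := hP.intermediate_value (a := (ε, ε)) (b := (T, T)) (Or.inr ⟨⟨le_rfl, hεT⟩, rfl⟩)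
      (Or.inl ⟨rfl, ⟨hεT, le_rfl⟩⟩) (hθc.mono hsub)
    obtain ⟨x, hx, hx0⟩ := hiv ⟨hcon, hα0⟩
    have e1 := him x (hsub hx)
    have e2 := hre x (hsub hx)
    rw [hx0, Real.sin_zero, mul_zero] at e1
    rw [hx0, Real.cos_zero, mul_one] at e2
    have e3 : 0 < (Λ x).re := by rw [e2]; exact Real.exp_pos _
    have e4 : (Λ x).im ≠ 0 ∨ (Λ x).re < 0 := by
      obtain ⟨s, t⟩ := x
      rcases hx with ⟨hs, ht⟩ | ⟨hs, ht⟩
      · rw [mem_singleton_iff] at hs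
        dsimp only at hs ht
        rw [hs]
        exact h1 t ht
      · rw [mem_singleton_iff] at ht
        dsimp only at hs ht
        rw [ht]
        exact h2 s hs
    rcases e4 with e4 | e4
    · exact e4 e1
    · exact lt_irrefl _ (e3.trans e4)
  -- path 2
  have hβ1 : θ (ε, ε) < Real.pi := by
    by_contra hcon
    rw [not_lt] at hcon
    have hP : IsPreconnected ((Icc ε T ×ˢ {T}) ∪ ({ε} ×ˢ Icc ε T) : Set (ℝ × ℝ)) := by
      refine IsPreconnected.union (ε, T) ⟨⟨le_rfl, hεT⟩, rfl⟩ ⟨rfl, ⟨hεT, le_rfl⟩⟩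
        (isPreconnected_Icc.prod isPreconnected_singleton)
        (isPreconnected_singleton.prod isPreconnected_Icc)
    have hsub : ((Icc ε T ×ˢ {T}) ∪ ({ε} ×ˢ Icc ε T) : Set (ℝ × ℝ)) ⊆ Ioi 0 ×ˢ Ioi 0 := by
      rintro ⟨s, t⟩ (⟨hs, ht⟩ | ⟨hs, ht⟩)
      · rw [mem_singleton_iff] at ht
        dsimp only at hs ht
        exact hmem _ _ hs.1 (by rw [ht]; exact hεT)
      · rw [mem_singleton_iff] at hs
        exact hmem _ _ hs.ge ht.1
    have hiv := hP.intermediate_value (a := (T, T)) (b := (ε, ε)) (Or.inl ⟨⟨hεT, le_rfl⟩, rfl⟩)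
      (Or.inr ⟨rfl, ⟨le_rfl, hεT⟩⟩) (hθc.mono hsub)
    obtain ⟨x, hx, hx0⟩ := hiv ⟨hαpi.le, hcon⟩
    have e1 := him x (hsub hx)
    have e2 := hre x (hsub hx)
    rw [hx0, Real.sin_pi, mul_zero] at e1
    rw [hx0, Real.cos_pi, mul_neg_one] at e2
    have e3 : (Λ x).re < 0 := by rw [e2]; exact neg_neg_of_pos (Real.exp_pos _)
    have e4 : (Λ x).im ≠ 0 ∨ 0 < (Λ x).re := by
      obtain ⟨s, t⟩ := x
      rcases hx with ⟨hs, ht⟩ | ⟨hs, ht⟩
      · rw [mem_singleton_iff] at ht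
        dsimp only at hs ht
        rw [ht]
        exact h3 s hs
      · rw [mem_singleton_iff] at hs
        dsimp only at hs ht
        rw [hs]
        exact h4 t ht
    rcases e4 with e4 | e4
    · exact e4 e1
    · exact lt_irrefl _ (e3.trans e4)
  exact absurd (Real.sin_pos_of_pos_of_lt_pi hβ0 hβ1) (not_lt.2 hsε.le)

private lemma R11_above {γ : ℝ → ℂ} (hγ : ContinuousOn γ (Ioi 0))
    (hr : Tendsto (fun t => (γ t).re) (𝓝[>] 0) atBot) (T : ℝ) :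
    ∃ B : ℝ, ∀ t, 0 < t → t ≤ T → (γ t).re ≤ B := by
  have h1 : ∀ᶠ t in 𝓝[>] (0 : ℝ), (γ t).re ≤ 0 := hr.eventually_le_atBot 0
  obtain ⟨δ, hδ, hδ2⟩ := mem_nhdsGT_iff_exists_Ioo_subset.1 h1
  have hδ0 : (0 : ℝ) < δ := hδ
  have h2 : BddAbove ((fun t => (γ t).re) '' Icc (δ / 2) T) := by
    refine isCompact_Icc.bddAbove_image (Complex.continuous_re.comp_continuousOn (hγ.mono ?_))
    intro t ht
    exact lt_of_lt_of_le (half_pos hδ0) ht.1
  obtain ⟨B, hB⟩ := h2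
  refine ⟨max 0 B, fun t ht htT => ?_⟩
  rcases lt_or_ge t δ with h3 | h3
  · exact le_trans (hδ2 ⟨ht, h3⟩) (le_max_left _ _)
  · exact le_trans (hB ⟨t, ⟨by linarith, htT⟩, rfl⟩) (le_max_right _ _)

private lemma R11_below {γ : ℝ → ℂ} (hγ : ContinuousOn γ (Ioi 0)) {T0 : ℝ}
    (h : ∀ t, T0 ≤ t → 0 ≤ (γ t).re) {t0 : ℝ} (ht0 : 0 < t0) :
    ∃ B : ℝ, ∀ t, t0 ≤ t → B ≤ (γ t).re := by
  have h2 : BddBelow ((fun t => (γ t).re) '' Icc t0 T0) := by
    refine isCompact_Icc.bddBelow_image (Complex.continuous_re.comp_continuousOn (hγ.mono ?_))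
    intro t ht
    exact lt_of_lt_of_le ht0 ht.1
  obtain ⟨B, hB⟩ := h2
  refine ⟨min 0 B, fun t ht => ?_⟩
  rcases le_or_gt T0 t with h3 | h3
  · exact (min_le_left _ _).trans (h t h3)
  · exact (min_le_right _ _).trans (hB ⟨t, ⟨ht, h3.le⟩, rfl⟩)

private lemma R11_inf {γ : ℝ → ℂ} {a η : ℝ} (hη : 0 < η)
    (hi : Tendsto (fun t : ℝ => γ t - (t + a * Complex.I)) atTop (𝓝 0)) :
    ∃ T : ℝ, ∀ t, T ≤ t → |(γ t).im - a| < η ∧ |(γ t).re - t| < 1 := by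
  have h1 := (Metric.tendsto_nhds.1 hi (min η 1) (lt_min hη one_pos))
  obtain ⟨T, hT⟩ := eventually_atTop.1 h1
  refine ⟨T, fun t ht => ?_⟩
  have h2 := hT t ht
  rw [dist_zero_right] at h2
  have h3 : (γ t - (t + a * Complex.I)).im = (γ t).im - a := by simp
  have h4 : (γ t - (t + a * Complex.I)).re = (γ t).re - t := by simp
  have h5 := Complex.abs_im_le_norm (γ t - (t + a * Complex.I))
  have h6 := Complex.abs_re_le_norm (γ t - (t + a * Complex.I))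
  rw [h3] at h5
  rw [h4] at h6
  exact ⟨h5.trans_lt (h2.trans_le (min_le_left _ _)), h6.trans_lt (h2.trans_le (min_le_right _ _))⟩

theorem order_lemma {γ γ' : ℝ → ℂ} (hγ : ContinuousOn γ (Ioi 0)) (hγ' : ContinuousOn γ' (Ioi 0))
    (hne : ∀ s t, 0 < s → 0 < t → γ s ≠ γ' t) {a a' b b' : ℝ} (haa : a < a')
    (hi : Tendsto (fun t : ℝ => γ t - (t + a * Complex.I)) atTop (𝓝 0))
    (hi' : Tendsto (fun t : ℝ => γ' t - (t + a' * Complex.I)) atTop (𝓝 0))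
    (hr : Tendsto (fun t => (γ t).re) (𝓝[>] 0) atBot)
    (hr' : Tendsto (fun t => (γ' t).re) (𝓝[>] 0) atBot)
    (hm : Tendsto (fun t => (γ t).im) (𝓝[>] 0) (𝓝 b))
    (hm' : Tendsto (fun t => (γ' t).im) (𝓝[>] 0) (𝓝 b')) : b ≤ b' := by
  by_contra hcon
  rw [not_le] at hcon
  set η : ℝ := (a' - a) / 4 with hη
  have hη0 : 0 < η := by rw [hη]; linarith
  obtain ⟨T1, hT1⟩ := R11_inf hη0 hi
  obtain ⟨T1', hT1'⟩ := R11_inf hη0 hi'
  set T0 : ℝ := max (max T1 T1') 1 with hT0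
  have hT01 : 1 ≤ T0 := le_max_right _ _
  have hT0a : T1 ≤ T0 := (le_max_left _ _).trans (le_max_left _ _)
  have hT0b : T1' ≤ T0 := (le_max_right _ _).trans (le_max_left _ _)
  have g1 : ∀ t, T0 ≤ t → |(γ t).im - a| < η ∧ |(γ t).re - t| < 1 := fun t ht =>
    hT1 t (hT0a.trans ht)
  have g1' : ∀ t, T0 ≤ t → |(γ' t).im - a'| < η ∧ |(γ' t).re - t| < 1 := fun t ht =>
    hT1' t (hT0b.trans ht)
  obtain ⟨B, hB⟩ := R11_above hγ hr T0
  obtain ⟨B', hB'⟩ := R11_above hγ' hr' T0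
  set T : ℝ := max T0 (max B B' + 1) with hTdef
  have hTT0 : T0 ≤ T := le_max_left _ _
  have hTB : B + 1 ≤ T := le_trans (by linarith [le_max_left B B']) (le_max_right _ _)
  have hTB' : B' + 1 ≤ T := le_trans (by linarith [le_max_right B B']) (le_max_right _ _)
  have hgT := g1 T hTT0
  have hgT' := g1' T hTT0
  rw [abs_lt, abs_lt] at hgT hgT'
  -- near zero
  have hd : 0 < (b - b') / 4 := by linarith
  have k1 : ∀ᶠ t in 𝓝[>] (0 : ℝ), b - (b - b') / 4 < (γ t).im :=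
    hm.eventually (lt_mem_nhds (by linarith))
  have k2 : ∀ᶠ t in 𝓝[>] (0 : ℝ), (γ' t).im < b' + (b - b') / 4 :=
    hm'.eventually (gt_mem_nhds (by linarith))
  obtain ⟨δ, hδ, hδ2⟩ := mem_nhdsGT_iff_exists_Ioo_subset.1 (k1.and k2)
  have hδ0 : (0 : ℝ) < δ := hδ
  set t0 : ℝ := min (δ / 2) 1 with ht0def
  have ht0 : 0 < t0 := lt_min (half_pos hδ0) one_pos
  have ht0δ : t0 < δ := lt_of_le_of_lt (min_le_left _ _) (half_lt_self hδ0)
  have ht01 : t0 ≤ 1 := min_le_right _ _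
  have k3 : ∀ t, 0 < t → t ≤ t0 → b - (b - b') / 4 < (γ t).im ∧ (γ' t).im < b' + (b - b') / 4 :=
    fun t ht1 ht2 => hδ2 ⟨ht1, ht2.trans_lt ht0δ⟩
  obtain ⟨D, hD⟩ := R11_below hγ (T0 := T0) (fun t ht => by
    have := (abs_lt.1 (g1 t ht).2).1
    linarith) ht0
  obtain ⟨D', hD'⟩ := R11_below hγ' (T0 := T0) (fun t ht => by
    have := (abs_lt.1 (g1' t ht).2).1
    linarith) ht0
  have k4 : ∀ᶠ t in 𝓝[>] (0 : ℝ), (γ t).re < D' := hr.eventually_lt_atBot D'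
  have k5 : ∀ᶠ t in 𝓝[>] (0 : ℝ), (γ' t).re < D := hr'.eventually_lt_atBot D
  have k6 : ∀ᶠ t in 𝓝[>] (0 : ℝ), t < t0 := nhdsWithin_le_nhds (gt_mem_nhds ht0)
  have k7 : ∀ᶠ t in 𝓝[>] (0 : ℝ), 0 < t := self_mem_nhdsWithin
  obtain ⟨ε, ⟨hε1, hε2⟩, hε3, hε0⟩ := ((k4.and k5).and (k6.and k7)).exists
  have hεT : ε ≤ T := by linarith
  refine R11_top (Λ := fun x => γ' x.2 - γ x.1) ?_ ?_ hε0 hεT ?_ ?_ ?_ ?_ ?_ ?_
  · refine ContinuousOn.sub (hγ'.comp continuous_snd.continuousOn fun x hx => hx.2)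
      (hγ.comp continuous_fst.continuousOn fun x hx => hx.1)
  · intro x hx h
    exact hne x.1 x.2 hx.1 hx.2 (sub_eq_zero.1 h).symm
  · intro t ht
    rw [Complex.sub_im, Complex.sub_re]
    rcases le_or_gt T0 t with h1 | h1
    · left
      have e1 := (abs_lt.1 (g1' t h1).1).1
      exact ne_of_gt (by linarith [hgT.1.2])
    · right
      have e1 := hB' t (hε0.trans_le ht.1) h1.le
      linarith [hgT.2.1]
  · intro s hs
    rw [Complex.sub_im, Complex.sub_re]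
    rcases le_or_gt t0 s with h1 | h1
    · right
      have e1 := hD s h1
      linarith
    · left
      have e1 := (k3 s (hε0.trans_le hs.1) h1.le).1
      have e2 := (k3 ε hε0 hε3.le).2
      exact ne_of_lt (by linarith)
  · intro s hs
    rw [Complex.sub_im, Complex.sub_re]
    rcases le_or_gt T0 s with h1 | h1
    · left
      have e1 := (abs_lt.1 (g1 s h1).1).2
      exact ne_of_gt (by linarith [hgT'.1.1])
    · right
      have e1 := hB s (hε0.trans_le hs.1) h1.le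
      linarith [hgT'.2.1]
  · intro t ht
    rw [Complex.sub_im, Complex.sub_re]
    rcases le_or_gt t0 t with h1 | h1
    · right
      have e1 := hD' t h1
      linarith
    · left
      have e1 := (k3 t (hε0.trans_le ht.1) h1.le).2
      have e2 := (k3 ε hε0 hε3.le).1
      exact ne_of_lt (by linarith)
  · rw [Complex.sub_im]
    linarith [hgT.1.2, hgT'.1.1]
  · rw [Complex.sub_im]
    have e2 := k3 ε hε0 hε3.le
    linarith [e2.1, e2.2]

end Pool.Agent.CR
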