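import Pool.Agent.H73.CR.Defs

/-!
# CR R13: the angles `ang p q i`

`dig p q i n = ⌊(i+(n+1)p)/q⌋ - ⌊(i+np)/q⌋` (integer division of integers, `q > 0`), `ang p q i = ∑ dig p q i n / 2^(n+1)`; the digits are in `{0,1}` for `p ≤ q`, so all sums converge.
`two_ang`: `dig p q i (n+1) = dig p q (i+p) n`, `dig p q i 0 = ⌊(i+p)/q⌋ - ⌊i/q⌋`.
`ang_add_q`: `⌊(x+q)/q⌋ = ⌊x/q⌋ + 1` (also if the sum does not converge). `two_pow_ang`: induction with `two_ang`; `ang_per`: `n = q`, `i + q p`.
`thm p q m = ang p q (-1-mp) + 2^(-m) (1 + ang p q 0 - ang p q (-1))`. `two_pow_thm`: from `two_pow_ang` (`i = -1-mp`, `n = m`).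
`ang_tendsto`: `q' = q N + e`, `p' = p N + s`, `q s - p e = 1`, so `q p' = p q' + 1` and `q ((n - m) p') = q' ((n - m) p) + (n - m)`, i.e. `((n - m) p') / q' = ((n-m) p + (n-m)/q') / q` (rational numbers). For fixed `n` and large `N`
(`|n - m| < q'`): if `n ≥ m`, `⌊(n-m)p'/q'⌋ = ⌊(n-m)p/q⌋`; if `n < m`, `⌊(n-m)p'/q'⌋ = ⌊((n-m)p - 1)/q⌋` (a rational number in `[x, x+1)`, `x` an integer, has the same `⌊·/q⌋` as `x`).
So the digit `n` of `ang p' q' (-m p')` is, for large `N`: `dig p q 0 (n-m)` for `n ≥ m`; `dig p q (-1-mp) n` for `n + 1 < m`; for `n + 1 = m` it is `0 - ⌊(-p-1)/q⌋ = 1` (`0 < p < q`).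
Hence the limit (dominated convergence, `tendsto_tsum_of_dominated_convergence`) is `∑_{n+1<m} dig p q (-1-mp) n / 2^(n+1) + 2^(-m) + 2^(-m) ang p q 0`. And `dig p q (-1-mp) (m-1) = ⌊-1/q⌋ - ⌊(-1-p)/q⌋ = 0`,
`dig p q (-1-mp) (m+j) = dig p q (-1) j`, so `ang p q (-1-mp) = ∑_{n+1<m} dig p q (-1-mp) n / 2^(n+1) + 2^(-m) ang p q (-1)`. The case `m = 0` is `ang_tendsto_zero` (same argument, only `n ≥ m`).
-/

set_option autoImplicit false

open Set Filter Topology

namespace Pool.Agent.CR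

/-- The digits of `ang p q i`. -/
def dig (p q : ℕ) (i : ℤ) (n : ℕ) : ℤ := (i + (n + 1) * p) / q - (i + n * p) / q

private lemma R13_bd {q : ℕ} (hq : 0 < q) {p : ℤ} (hp0 : 0 ≤ p) (hpq : p ≤ q) (x : ℤ) :
    0 ≤ (x + p) / q - x / q ∧ (x + p) / q - x / q ≤ 1 := by
  have hq' : (0 : ℤ) < q := by omega
  have h1 : x / q ≤ (x + p) / q := Int.ediv_le_ediv hq' (by omega)
  have h2 : (x + p) / q ≤ (x + q) / q := Int.ediv_le_ediv hq' (by omega)
  have h3 : (x + q) / q = x / q + 1 := by
    have := Int.add_mul_ediv_left x 1 (ne_of_gt hq')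
    rwa [mul_one] at this
  omega

theorem dig_mem {p q : ℕ} (hq : 0 < q) (hpq : p ≤ q) (i : ℤ) (n : ℕ) :
    0 ≤ dig p q i n ∧ dig p q i n ≤ 1 := by
  have h := R13_bd hq (p := p) (by omega) (by omega) (i + n * p)
  have e : i + n * p + p = i + (n + 1) * p := by ring
  rw [e] at h
  exact h

theorem ang_eq (p q : ℕ) (i : ℤ) : ang p q i = ∑' n : ℕ, (dig p q i n : ℝ) / 2 ^ (n + 1) := rfl

private lemma R13_norm {p q : ℕ} (hq : 0 < q) (hpq : p ≤ q) (i : ℤ) (n : ℕ) :
    ‖(dig p q i n : ℝ) / 2 ^ (n + 1)‖ ≤ 1 / 2 / 2 ^ n := by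
  obtain ⟨h0, h1⟩ := dig_mem hq hpq i n
  have h0' : (0 : ℝ) ≤ dig p q i n := by exact_mod_cast h0
  have h1' : (dig p q i n : ℝ) ≤ 1 := by exact_mod_cast h1
  rw [Real.norm_eq_abs, abs_of_nonneg (by positivity), div_div, ← pow_succ']
  exact div_le_div_of_nonneg_right h1' (by positivity)

theorem summable_dig {p q : ℕ} (hq : 0 < q) (hpq : p ≤ q) (i : ℤ) :
    Summable (fun n : ℕ => (dig p q i n : ℝ) / 2 ^ (n + 1)) :=
  Summable.of_norm_bounded (summable_geometric_two' 1) (R13_norm hq hpq i)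

private lemma R13_shift (p q : ℕ) (i : ℤ) (n : ℕ) : dig p q i (n + 1) = dig p q (i + p) n := by
  unfold dig
  have e1 : i + (((n + 1 : ℕ) : ℤ) + 1) * p = i + p + (n + 1) * p := by push_cast; ring
  have e2 : i + ((n + 1 : ℕ) : ℤ) * p = i + p + n * p := by push_cast; ring
  rw [e1, e2]

theorem two_ang {p q : ℕ} (hq : 0 < q) (hpq : p ≤ q) (i : ℤ) :
    2 * ang p q i = ang p q (i + p) + (((i + p) / q - i / q : ℤ) : ℝ) := by
  rw [ang_eq, (summable_dig hq hpq i).tsum_eq_zero_add, mul_add, ang_eq, ← tsum_mul_left]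
  have e1 : ∀ n : ℕ, 2 * ((dig p q i (n + 1) : ℝ) / 2 ^ (n + 1 + 1)) =
      (dig p q (i + p) n : ℝ) / 2 ^ (n + 1) := by
    intro n
    rw [R13_shift, pow_succ _ (n + 1)]
    field_simp
  have e2 : 2 * ((dig p q i 0 : ℝ) / 2 ^ (0 + 1)) = (((i + p) / q - i / q : ℤ) : ℝ) := by
    have e3 : dig p q i 0 = (i + p) / q - i / q := by
      unfold dig
      simp
    rw [e3]
    ring
  rw [e2, tsum_congr e1, add_comm]

private lemma R13_add_mul {p q : ℕ} (hq : 0 < q) (i k : ℤ) : ang p q (i + k * q) = ang p q i := by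
  have hq' : (q : ℤ) ≠ 0 := by omega
  rw [ang_eq, ang_eq]
  refine tsum_congr fun n => ?_
  have e : dig p q (i + k * q) n = dig p q i n := by
    unfold dig
    have e1 : i + k * q + (n + 1) * p = i + (n + 1) * p + k * q := by ring
    have e2 : i + k * q + n * p = i + n * p + k * q := by ring
    rw [e1, e2, Int.add_mul_ediv_right _ _ hq', Int.add_mul_ediv_right _ _ hq']
    ring
  rw [e]

theorem ang_add_q {p q : ℕ} (hq : 0 < q) (i : ℤ) : ang p q (i + q) = ang p q i := by
  have := R13_add_mul (p := p) hq i 1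
  rwa [one_mul] at this

theorem ang_mem {p q : ℕ} (hq : 0 < q) (hpq : p ≤ q) (i : ℤ) : 0 ≤ ang p q i ∧ ang p q i ≤ 1 := by
  rw [ang_eq]
  constructor
  · refine tsum_nonneg fun n => ?_
    have : (0 : ℝ) ≤ dig p q i n := by exact_mod_cast (dig_mem hq hpq i n).1
    positivity
  · have h1 : ∑' n : ℕ, (1 : ℝ) / 2 / 2 ^ n = 1 := tsum_geometric_two' 1
    rw [← h1]
    refine (summable_dig hq hpq i).tsum_le_tsum (fun n => ?_) (summable_geometric_two' 1)
    exact (le_abs_self _).trans (R13_norm hq hpq i n)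

/-- `2^n ang p q i = ang p q (i + n p)` mod `1` -/
theorem two_pow_ang {p q : ℕ} (hq : 0 < q) (hpq : p ≤ q) (i : ℤ) (n : ℕ) :
    ∃ m : ℤ, 2 ^ n * ang p q i = ang p q (i + n * p) + m := by
  induction n with
  | zero => exact ⟨0, by simp⟩
  | succ n ih =>
    obtain ⟨m, hm⟩ := ih
    refine ⟨(i + n * p + p) / q - (i + n * p) / q + 2 * m, ?_⟩
    have e1 : i + ((n + 1 : ℕ) : ℤ) * p = i + n * p + p := by push_cast; ring
    have e2 := two_ang hq hpq (i + n * p)
    rw [e1, pow_succ', mul_assoc, hm, mul_add, e2]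
    push_cast
    ring

/-- `(2^q - 1) ang p q i` is an integer -/
theorem ang_per {p q : ℕ} (hq : 0 < q) (hpq : p ≤ q) (i : ℤ) : ∃ m : ℤ, (2 ^ q - 1) * ang p q i = m := by
  obtain ⟨m, hm⟩ := two_pow_ang hq hpq i q
  have e : i + (q : ℤ) * p = i + p * q := by ring
  rw [e, R13_add_mul hq] at hm
  exact ⟨m, by linarith⟩

/-- The limit angle of `ang p' q' (-m p')`. -/
noncomputable def thm (p q m : ℕ) : ℝ :=
  ang p q (-1 - m * p) + (1 + ang p q 0 - ang p q (-1)) / 2 ^ m

theorem abs_thm_sub_le {p q : ℕ} (hq : 0 < q) (hpq : p ≤ q) (m : ℕ) :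
    |thm p q m - ang p q (-1 - m * p)| ≤ 2 / 2 ^ m := by
  unfold thm
  rw [add_sub_cancel_left, abs_div, abs_of_pos (show (0 : ℝ) < 2 ^ m by positivity)]
  refine div_le_div_of_nonneg_right ?_ (by positivity)
  have h1 := ang_mem hq hpq 0
  have h2 := ang_mem hq hpq (-1)
  rw [abs_le]
  constructor <;> linarith [h1.1, h1.2, h2.1, h2.2]

theorem two_pow_thm {p q : ℕ} (hq : 0 < q) (hpq : p ≤ q) (m : ℕ) :
    ∃ r : ℤ, 2 ^ m * thm p q m = ang p q 0 + r := by
  obtain ⟨r, hr⟩ := two_pow_ang hq hpq (-1 - m * p) m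
  have e : (-1 : ℤ) - m * p + m * p = -1 := by ring
  rw [e] at hr
  refine ⟨r + 1, ?_⟩
  unfold thm
  rw [mul_add, hr, mul_div_cancel₀ _ (by positivity : (2 : ℝ) ^ m ≠ 0)]
  push_cast
  ring

private lemma R13_congr {f g : ℕ → ℝ} {a : ℝ} (h : HasSum f a) (hfg : ∀ n, f n = g n) :
    HasSum g a := by
  have e : f = g := funext hfg
  rw [← e]
  exact h

/-- the limit of `⌊j p'/q'⌋` -/
private def R13_F (p q : ℕ) (j : ℤ) : ℤ := if 0 ≤ j then (j * p) / q else (j * p - 1) / q

private lemma R13_div {p q p' q' : ℤ} (hq : 0 < q) (hq' : 0 < q') (h : q * p' = p * q' + 1) (j : ℤ)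
    (h1 : -q' ≤ j) (h2 : j < q') :
    (j * p') / q' = if 0 ≤ j then (j * p) / q else (j * p - 1) / q := by
  have e1 : q * (j * p') = j * p * q' + j := by
    have : q * (j * p') = j * (q * p') := by ring
    rw [this, h]
    ring
  split_ifs with hj
  · have k1 := Int.emod_nonneg (j * p) hq.ne'
    have k2 := Int.emod_lt_of_pos (j * p) hq
    have k3 := Int.emod_add_mul_ediv (j * p) q
    set k := j * p / q with hk
    have u1 : q * (k * q') ≤ q * (j * p') := by
      rw [e1]
      nlinarith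
    have u2 : q * (j * p') < q * ((k + 1) * q') := by
      rw [e1]
      nlinarith
    have u3 := le_of_mul_le_mul_left u1 hq
    have u4 := lt_of_mul_lt_mul_left u2 hq.le
    refine le_antisymm ?_ ?_
    · have := (Int.ediv_lt_iff_lt_mul hq').2 u4
      omega
    · exact (Int.le_ediv_iff_mul_le hq').2 u3
  · rw [not_le] at hj
    have k1 := Int.emod_nonneg (j * p - 1) hq.ne'
    have k2 := Int.emod_lt_of_pos (j * p - 1) hq
    have k3 := Int.emod_add_mul_ediv (j * p - 1) q
    set k := (j * p - 1) / q with hk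
    have u1 : q * (k * q') ≤ q * (j * p') := by
      rw [e1]
      nlinarith
    have u2 : q * (j * p') < q * ((k + 1) * q') := by
      rw [e1]
      nlinarith
    have u3 := le_of_mul_le_mul_left u1 hq
    have u4 := lt_of_mul_lt_mul_left u2 hq.le
    refine le_antisymm ?_ ?_
    · have := (Int.ediv_lt_iff_lt_mul hq').2 u4
      omega
    · exact (Int.le_ediv_iff_mul_le hq').2 u3

private lemma R13_lim {p q e s : ℕ} (hpq : p < q) (he : (q : ℤ) * s - p * e = 1) (m : ℕ) :
    Tendsto (fun N : ℕ => ang (p * N + s) (q * N + e) (-(m * (p * N + s)))) atTop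
      (𝓝 (∑' n : ℕ, ((R13_F p q (n + 1 - m) - R13_F p q (n - m) : ℤ) : ℝ) / 2 ^ (n + 1))) := by
  have hq : 0 < q := by omega
  have hrel : ∀ N : ℕ, (q : ℤ) * ((p * N + s : ℕ) : ℤ) = p * ((q * N + e : ℕ) : ℤ) + 1 := by
    intro N
    push_cast
    linear_combination he
  have hqN : ∀ N : ℕ, N ≤ q * N + e := fun N => by nlinarith
  have hle : ∀ N : ℕ, 1 ≤ N → p * N + s ≤ q * N + e := by
    intro N hN
    have h1 := hrel N
    have h2 := hqN N
    generalize p * N + s = p' at *
    generalize q * N + e = q' at *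
    have h3 : (q : ℤ) * p' ≤ q * q' := by
      rw [h1]
      have h4 : (p : ℤ) + 1 ≤ q := by omega
      have h5 : (1 : ℤ) ≤ q' := by omega
      nlinarith
    have h6 := le_of_mul_le_mul_left h3 (by omega : (0 : ℤ) < q)
    omega
  simp only [ang_eq]
  refine tendsto_tsum_of_dominated_convergence (bound := fun n : ℕ => 1 / 2 / 2 ^ n)
    (summable_geometric_two' 1) (fun n => ?_) ?_
  · refine tendsto_const_nhds.congr' ?_
    filter_upwards [eventually_gt_atTop (n + m + 1)] with N hN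
    have h2 := hqN N
    have hd : dig (p * N + s) (q * N + e) (-(m * (p * N + s))) n =
        R13_F p q (n + 1 - m) - R13_F p q (n - m) := by
      unfold dig R13_F
      have e1 : -((m : ℤ) * (p * N + s)) + (n + 1) * ((p * N + s : ℕ) : ℤ) =
          (n + 1 - m) * ((p * N + s : ℕ) : ℤ) := by push_cast; ring
      have e2 : -((m : ℤ) * (p * N + s)) + n * ((p * N + s : ℕ) : ℤ) =
          (n - m) * ((p * N + s : ℕ) : ℤ) := by push_cast; ring
      rw [e1, e2, R13_div (by omega : (0 : ℤ) < q) (by omega) (hrel N) _ (by omega) (by omega),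
        R13_div (by omega : (0 : ℤ) < q) (by omega) (hrel N) _ (by omega) (by omega)]
    rw [hd]
  · filter_upwards [eventually_ge_atTop 1] with N hN
    intro n
    exact R13_norm (by have := hqN N; omega) (hle N hN) _ n

theorem ang_tendsto {p q e s : ℕ} (hp : 0 < p) (hpq : p < q) (he : (q : ℤ) * s - p * e = 1)
    {m : ℕ} (hm : 1 ≤ m) :
    Tendsto (fun N : ℕ => ang (p * N + s) (q * N + e) (-(m * (p * N + s)))) atTop (𝓝 (thm p q m)) := by
  have hq : 0 < q := by omega
  have h := R13_lim hpq he m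
  have hsum : HasSum (fun n : ℕ => ((R13_F p q (n + 1 - m) - R13_F p q (n - m) : ℤ) : ℝ) / 2 ^ (n + 1))
      (thm p q m) := by
    have a1 : HasSum (fun n : ℕ => (dig p q (-1 - m * p) n : ℝ) / 2 ^ (n + 1))
        (ang p q (-1 - m * p)) := (summable_dig hq hpq.le _).hasSum
    have a2 : HasSum (fun n : ℕ => if n = m - 1 then (1 : ℝ) / 2 ^ m else 0) (1 / 2 ^ m) :=
      hasSum_ite_eq _ _
    have a3 : HasSum (fun n : ℕ => if m ≤ n then
        ((dig p q 0 (n - m) : ℝ) - dig p q (-1) (n - m)) / 2 ^ (n + 1) else 0)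
        ((ang p q 0 - ang p q (-1)) / 2 ^ m) := by
      rw [← hasSum_nat_add_iff' m]
      have b1 : ∑ i ∈ Finset.range m, (if m ≤ i then
          ((dig p q 0 (i - m) : ℝ) - dig p q (-1) (i - m)) / 2 ^ (i + 1) else 0) = 0 := by
        refine Finset.sum_eq_zero fun i hi => ?_
        rw [if_neg (by rw [Finset.mem_range] at hi; omega)]
      rw [b1, sub_zero]
      have b2 := (((summable_dig hq hpq.le 0).hasSum).sub ((summable_dig hq hpq.le (-1)).hasSum)).div_const
        ((2 : ℝ) ^ m)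
      rw [← ang_eq, ← ang_eq] at b2
      refine R13_congr b2 fun n => ?_
      rw [if_pos (by omega), Nat.add_sub_cancel, ← sub_div, div_div, ← pow_add]
      congr 2
      omega
    have a4 := (a1.add a2).add a3
    have a5 : ang p q (-1 - m * p) + 1 / 2 ^ m + (ang p q 0 - ang p q (-1)) / 2 ^ m =
        thm p q m := by
      unfold thm
      ring
    rw [a5] at a4
    refine R13_congr a4 fun n => ?_
    show (dig p q (-1 - m * p) n : ℝ) / 2 ^ (n + 1) + (if n = m - 1 then (1 : ℝ) / 2 ^ m else 0) +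
      (if m ≤ n then ((dig p q 0 (n - m) : ℝ) - dig p q (-1) (n - m)) / 2 ^ (n + 1) else 0) = _
    rcases lt_trichotomy (n + 1) m with hn | hn | hn
    · rw [if_neg (by omega), if_neg (by omega), add_zero, add_zero]
      have e : dig p q (-1 - m * p) n = R13_F p q (n + 1 - m) - R13_F p q (n - m) := by
        unfold R13_F dig
        rw [if_neg (by omega), if_neg (by omega)]
        have e1 : (-1 : ℤ) - m * p + (n + 1) * p = (n + 1 - m) * p - 1 := by ring
        have e2 : (-1 : ℤ) - m * p + n * p = (n - m) * p - 1 := by ring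
        rw [e1, e2]
      rw [e]
    · rw [if_pos (by omega), if_neg (by omega), add_zero]
      have e : R13_F p q (n + 1 - m) - R13_F p q (n - m) = dig p q (-1 - m * p) n + 1 := by
        unfold R13_F dig
        rw [if_pos (by omega), if_neg (by omega)]
        have e1 : (-1 : ℤ) - m * p + (n + 1) * p = -1 := by
          have : (m : ℤ) = n + 1 := by omega
          rw [this]
          ring
        have e2 : (-1 : ℤ) - m * p + n * p = (n - m) * p - 1 := by ring
        have e3 : ((n : ℤ) + 1 - m) * p = 0 := by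
          have : (n : ℤ) + 1 - m = 0 := by omega
          rw [this, zero_mul]
        have e4 : (-1 : ℤ) / q = -1 := by
          rw [Int.ediv_eq_iff_of_pos (by omega)]
          constructor <;> omega
        rw [e1, e2, e3, e4, Int.zero_ediv]
        ring
      rw [e, ← hn]
      push_cast
      ring
    · rw [if_neg (by omega), if_pos (by omega), add_zero]
      have e : R13_F p q (n + 1 - m) - R13_F p q (n - m) = dig p q 0 (n - m) := by
        unfold R13_F dig
        rw [if_pos (by omega), if_pos (by omega)]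
        have e0 : ((n - m : ℕ) : ℤ) = n - m := by omega
        rw [e0]
        congr 2 <;> ring
      have e' : dig p q (-1 - m * p) n = dig p q (-1) (n - m) := by
        unfold dig
        have e0 : ((n - m : ℕ) : ℤ) = n - m := by omega
        rw [e0]
        congr 2 <;> ring
      rw [e, e']
      ring
  rw [hsum.tsum_eq] at h
  exact h

theorem ang_tendsto_zero {p q e s : ℕ} (hp : 0 < p) (hpq : p < q) (he : (q : ℤ) * s - p * e = 1) :
    Tendsto (fun N : ℕ => ang (p * N + s) (q * N + e) 0) atTop (𝓝 (ang p q 0)) := by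
  have h := R13_lim hpq he 0
  have e1 : ∑' n : ℕ, ((R13_F p q (n + 1 - (0 : ℕ)) - R13_F p q (n - (0 : ℕ)) : ℤ) : ℝ) / 2 ^ (n + 1) =
      ang p q 0 := by
    rw [ang_eq]
    refine tsum_congr fun n => ?_
    have e2 : R13_F p q (n + 1 - (0 : ℕ)) - R13_F p q (n - (0 : ℕ)) = dig p q 0 n := by
      unfold R13_F dig
      rw [if_pos (by omega), if_pos (by omega)]
      congr 2 <;> ring
    rw [e2]
  rw [e1] at h
  refine h.congr fun N => ?_
  congr 1
  simp

end Pool.Agent.CR
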