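import Pool.Agent.H68.CR.R4

/-!
# CR R17: rays in sectors

`tendsto_infDist_unif`: if not, there are `τ n` with `0 < Re (τ n) → 0` and `infDist (psi l (exp (τ n))) (K l) ≥ ε`; the points are bounded (`norm_psi_le`), a limit point `z` has `infDist z (K l) ≥ ε`, so `z ∉ K l`, `z = psi l w`, `1 < ‖w‖`
(`exists_psi_eq`); but for every `m`: `‖(f l)^[m] z‖ = lim ‖psi l (exp (τ n)^(2^m))‖ ≤ lim (exp (2^m Re (τ n)) + 1) = 2` along the subsequence (`psi_iter`, `norm_psi_le`), so `z ∈ K l`. Contradiction (no injectivity is needed).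
`sector_osc`: as in `ray_osc` (`R4`): `κ (Re τ) ‖Ψ' τ‖ ≤ infDist (Ψ τ) (K l)` for `Re τ ≤ 1`, `Ψ τ = psi l (exp τ)`; integrate along the segment from `s + 2πiθ` to `s (1 + i x) + 2πiθ`, of length `≤ C s`, on which `Re τ = s`.
`sector_tendsto` follows.
-/

set_option autoImplicit false

open Set Filter Topology

namespace Pool.Agent.CR

private theorem R17_norm_exp {τ : ℂ} (h : 0 < τ.re) : 1 < ‖Complex.exp τ‖ := by
  rw [Complex.norm_exp]
  exact Real.one_lt_exp_iff.2 h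

private theorem R17_open : IsOpen {w : ℂ | 1 < ‖w‖} := isOpen_lt continuous_const continuous_norm

private theorem R17_diff {l : ℂ} (hl : ‖l‖ ≤ 1) {τ : ℂ} (h : 0 < τ.re) :
    DifferentiableAt ℂ (fun τ : ℂ => psi l (Complex.exp τ)) τ := by
  have h1 : Complex.exp τ ∈ {w : ℂ | 1 < ‖w‖} := R17_norm_exp h
  have h2 : DifferentiableAt ℂ (psi l) (Complex.exp τ) :=
    (psi_differentiableOn hl _ h1).differentiableAt (R17_open.mem_nhds h1)
  exact h2.comp τ Complex.differentiable_exp.differentiableAt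

private theorem R17_ball_re {x τ : ℂ} (hτ : τ ∈ Metric.ball x x.re) : 0 < τ.re := by
  have h1 : |(τ - x).re| < x.re :=
    lt_of_le_of_lt (Complex.abs_re_le_norm _) (by simpa [dist_eq_norm] using hτ)
  rw [Complex.sub_re, abs_lt] at h1
  linarith [h1.1]

private theorem R17_inj {l : ℂ} (hl : ‖l‖ ≤ 1) {x : ℂ} (hu1 : x.re ≤ 1) :
    InjOn (fun τ : ℂ => psi l (Complex.exp τ)) (Metric.ball x x.re) := by
  intro τ hτ τ' hτ' h
  have h1 : Complex.exp τ ∈ {w : ℂ | 1 < ‖w‖} := R17_norm_exp (R17_ball_re hτ)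
  have h2 : Complex.exp τ' ∈ {w : ℂ | 1 < ‖w‖} := R17_norm_exp (R17_ball_re hτ')
  have h3 := psi_injOn hl h1 h2 h
  rw [Complex.exp_eq_exp_iff_exists_int] at h3
  obtain ⟨n, hn⟩ := h3
  have h4 : ‖τ - τ'‖ < 2 := by
    have h5 : dist τ τ' ≤ dist τ x + dist x τ' := dist_triangle _ _ _
    rw [Metric.mem_ball] at hτ hτ'
    rw [dist_comm x τ', dist_eq_norm τ τ'] at h5
    linarith
  have h5 : ‖τ - τ'‖ = |(n : ℝ)| * (2 * Real.pi) := by
    have : τ - τ' = (((n : ℝ) * (2 * Real.pi) : ℝ) : ℂ) * Complex.I := by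
      rw [hn]
      push_cast
      ring
    rw [this, norm_mul, Complex.norm_I, mul_one, Complex.norm_real, Real.norm_eq_abs, abs_mul,
      abs_of_pos (by positivity : (0 : ℝ) < 2 * Real.pi)]
  have h6 : n = 0 := by
    by_contra hne
    have h7 : (1 : ℝ) ≤ |(n : ℝ)| := by
      have : (1 : ℤ) ≤ |n| := Int.one_le_abs hne
      exact_mod_cast this
    have h8 := Real.pi_gt_three
    rw [h5] at h4
    nlinarith
  rw [hn, h6]
  simp

private theorem R17_bound {l : ℂ} (hl : ‖l‖ ≤ 1) {κ : ℝ}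
    (hκ : ∀ (h : ℂ → ℂ) (x : ℂ) (r : ℝ), 0 < r →
      DifferentiableOn ℂ h (Metric.ball x r) → InjOn h (Metric.ball x r) →
        Metric.ball (h x) (κ * r * ‖deriv h x‖) ⊆ h '' Metric.ball x r) {x : ℂ} (hu : 0 < x.re)
    (hu1 : x.re ≤ 1) :
    κ * x.re * ‖deriv (fun τ : ℂ => psi l (Complex.exp τ)) x‖ ≤
      Metric.infDist (psi l (Complex.exp x)) (K l) := by
  have h1 := hκ (fun τ : ℂ => psi l (Complex.exp τ)) x x.re hu
    (fun τ hτ => (R17_diff hl (R17_ball_re hτ)).differentiableWithinAt) (R17_inj hl hu1)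
  rw [Metric.le_infDist ⟨0, zero_mem_K l⟩]
  intro y hy
  by_contra hlt
  push Not at hlt
  have h2 : y ∈ Metric.ball ((fun τ : ℂ => psi l (Complex.exp τ)) x)
      (κ * x.re * ‖deriv (fun τ : ℂ => psi l (Complex.exp τ)) x‖) := by
    rw [Metric.mem_ball, dist_comm]
    exact hlt
  obtain ⟨τ, hτ, hτy⟩ := h1 h2
  exact psi_notMem hl (R17_norm_exp (R17_ball_re hτ)) (by
    have h3 : psi l (Complex.exp τ) = y := hτy
    rw [h3]
    exact hy)

private theorem R17_cont (l : ℂ) (m : ℕ) : Continuous ((f l)^[m]) := by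
  apply Continuous.iterate
  unfold f
  fun_prop

theorem tendsto_infDist_unif {l : ℂ} (hl : ‖l‖ ≤ 1) {ε : ℝ} (hε : 0 < ε) : ∃ δ > 0, ∀ τ : ℂ,
    0 < τ.re → τ.re < δ → Metric.infDist (psi l (Complex.exp τ)) (K l) < ε := by
  by_contra hcon
  push Not at hcon
  have hch : ∀ n : ℕ, ∃ τ : ℂ, 0 < τ.re ∧ τ.re < 1 / ((n : ℝ) + 1) ∧
      ε ≤ Metric.infDist (psi l (Complex.exp τ)) (K l) := fun n =>
    hcon (1 / ((n : ℝ) + 1)) (by positivity)
  choose τ hτ0 hτ1 hτε using hch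
  have hle1 : ∀ n, (τ n).re ≤ 1 := by
    intro n
    refine (hτ1 n).le.trans ?_
    rw [div_le_one (by positivity)]
    have : (0 : ℝ) ≤ n := Nat.cast_nonneg n
    linarith
  have hbd : ∀ n, psi l (Complex.exp (τ n)) ∈ Metric.closedBall (0 : ℂ) (Real.exp 1 + 1) := by
    intro n
    rw [mem_closedBall_zero_iff]
    refine (norm_psi_le hl (R17_norm_exp (hτ0 n))).trans ?_
    rw [Complex.norm_exp]
    have := Real.exp_le_exp.2 (hle1 n)
    linarith
  obtain ⟨z, _, φ, hφ, hz⟩ := (isCompact_closedBall (0 : ℂ) (Real.exp 1 + 1)).tendsto_subseq hbd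
  have hτt : Tendsto (fun n => (τ n).re) atTop (𝓝 0) :=
    squeeze_zero (fun n => (hτ0 n).le) (fun n => (hτ1 n).le) tendsto_one_div_add_atTop_nhds_zero_nat
  have hτt' : Tendsto (fun n => (τ (φ n)).re) atTop (𝓝 0) := hτt.comp hφ.tendsto_atTop
  have hinf : ε ≤ Metric.infDist z (K l) := by
    have h1 : Tendsto (fun n => Metric.infDist (psi l (Complex.exp (τ (φ n)))) (K l)) atTop
        (𝓝 (Metric.infDist z (K l))) :=
      ((Metric.continuous_infDist_pt (K l)).tendsto z).comp hz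
    exact ge_of_tendsto' h1 (fun n => hτε (φ n))
  have hzK : z ∈ K l := by
    intro m
    have h1 : Tendsto (fun n => ‖(f l)^[m] (psi l (Complex.exp (τ (φ n))))‖) atTop
        (𝓝 ‖(f l)^[m] z‖) := (((R17_cont l m).tendsto z).comp hz).norm
    have h2 : Tendsto (fun n => Real.exp (2 ^ m * (τ (φ n)).re) + 1) atTop (𝓝 (Real.exp (2 ^ m * 0) + 1)) :=
      ((Real.continuous_exp.tendsto _).comp (hτt'.const_mul _)).add_const 1
    have h3 : Real.exp (2 ^ m * 0) + 1 = 2 := by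
      rw [mul_zero, Real.exp_zero]
      norm_num
    rw [h3] at h2
    refine le_of_tendsto_of_tendsto' h1 h2 (fun n => ?_)
    have hw := R17_norm_exp (hτ0 (φ n))
    rw [psi_iter hl hw m]
    have hw2 : 1 < ‖Complex.exp (τ (φ n)) ^ 2 ^ m‖ := by
      rw [norm_pow]
      exact one_lt_pow₀ hw (by positivity)
    refine (norm_psi_le hl hw2).trans ?_
    rw [norm_pow, Complex.norm_exp, ← Real.exp_nat_mul]
    push_cast
    exact le_rfl
  rw [Metric.infDist_zero_of_mem hzK] at hinf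
  linarith

theorem sector_osc {l : ℂ} (hl : ‖l‖ ≤ 1) (C : ℝ) {ε : ℝ} (hε : 0 < ε) : ∃ δ > 0, ∀ s θ x : ℝ,
    0 < s → s < δ → |x| ≤ C →
      ‖psi l (Complex.exp (s * (1 + x * Complex.I) + 2 * Real.pi * θ * Complex.I)) - ray l θ s‖ < ε := by
  obtain ⟨κ, hκ0, hκ⟩ := koebe
  have hC1 : 0 < |C| + 1 := by positivity
  set η : ℝ := κ * ε / (2 * (|C| + 1)) with hη
  have hη0 : 0 < η := by positivity
  obtain ⟨δ0, hδ0, h1⟩ := tendsto_infDist_unif hl hη0
  refine ⟨min δ0 1, by positivity, ?_⟩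
  intro s θ x hs hsδ hx
  have hs1 : s ≤ 1 := hsδ.le.trans (min_le_right _ _)
  have hsd : s < δ0 := hsδ.trans_le (min_le_left _ _)
  set a : ℂ := (s : ℂ) + 2 * Real.pi * θ * Complex.I with ha
  set b : ℂ := (s : ℂ) * (1 + x * Complex.I) + 2 * Real.pi * θ * Complex.I with hb
  have hare : a.re = s := by rw [ha]; simp
  have hbre : b.re = s := by rw [hb]; simp
  have hconv : Convex ℝ {τ : ℂ | τ.re = s} := convex_hyperplane (Complex.reLm.isLinear) s
  have key : ∀ τ ∈ {τ : ℂ | τ.re = s}, ‖deriv (fun τ : ℂ => psi l (Complex.exp τ)) τ‖ ≤ η / (κ * s) := by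
    intro τ hτ
    have hτ' : τ.re = s := hτ
    have h2 := R17_bound hl hκ (x := τ) (by rw [hτ']; exact hs) (by rw [hτ']; exact hs1)
    have h3 := h1 τ (by rw [hτ']; exact hs) (by rw [hτ']; exact hsd)
    rw [le_div_iff₀ (by positivity)]
    rw [hτ'] at h2
    calc ‖deriv (fun τ : ℂ => psi l (Complex.exp τ)) τ‖ * (κ * s)
        = κ * s * ‖deriv (fun τ : ℂ => psi l (Complex.exp τ)) τ‖ := by ring
      _ ≤ η := h2.trans h3.le
  have h4 : ‖(fun τ : ℂ => psi l (Complex.exp τ)) b - (fun τ : ℂ => psi l (Complex.exp τ)) a‖ ≤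
      η / (κ * s) * ‖b - a‖ := by
    apply Convex.norm_image_sub_le_of_norm_deriv_le (s := {τ : ℂ | τ.re = s}) _ key hconv hare hbre
    intro τ hτ
    have hτ' : τ.re = s := hτ
    exact R17_diff hl (by rw [hτ']; exact hs)
  have h5 : ‖b - a‖ = s * |x| := by
    have : b - a = ((s * x : ℝ) : ℂ) * Complex.I := by
      rw [ha, hb]
      push_cast
      ring
    rw [this, norm_mul, Complex.norm_I, mul_one, Complex.norm_real, Real.norm_eq_abs, abs_mul, abs_of_pos hs]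
  rw [h5] at h4
  have h6 : |x| ≤ |C| + 1 := hx.trans ((le_abs_self C).trans (by linarith))
  refine lt_of_le_of_lt h4 ?_
  calc η / (κ * s) * (s * |x|) ≤ η / (κ * s) * (s * (|C| + 1)) := by
        apply mul_le_mul_of_nonneg_left _ (by positivity)
        exact mul_le_mul_of_nonneg_left h6 hs.le
    _ = ε / 2 := by
        rw [hη]
        field_simp
    _ < ε := by linarith

theorem sector_tendsto {l : ℂ} (hl : ‖l‖ ≤ 1) {θ : ℝ} (h0 : Tendsto (ray l θ) (𝓝[>] 0) (𝓝 0)) (C : ℝ)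
    {ε : ℝ} (hε : 0 < ε) : ∃ δ > 0, ∀ s x : ℝ, 0 < s → s < δ → |x| ≤ C →
      ‖psi l (Complex.exp (s * (1 + x * Complex.I) + 2 * Real.pi * θ * Complex.I))‖ < ε := by
  obtain ⟨δ1, hδ1, h1⟩ := sector_osc hl C (half_pos hε)
  have h2 : ∀ᶠ t in 𝓝[>] (0 : ℝ), ‖ray l θ t‖ < ε / 2 := by
    have h3 := h0.norm
    rw [norm_zero] at h3
    exact h3.eventually (gt_mem_nhds (half_pos hε))
  rw [eventually_nhdsWithin_iff, Metric.eventually_nhds_iff] at h2
  obtain ⟨δ2, hδ2, h2⟩ := h2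
  refine ⟨min δ1 δ2, lt_min hδ1 hδ2, ?_⟩
  intro s x hs hsδ hx
  have h4 := h1 s θ x hs (hsδ.trans_le (min_le_left _ _)) hx
  have h5 : ‖ray l θ s‖ < ε / 2 := by
    apply h2 _ hs
    rw [Real.dist_eq, sub_zero, abs_of_pos hs]
    exact hsδ.trans_le (min_le_right _ _)
  set B := psi l (Complex.exp (s * (1 + x * Complex.I) + 2 * Real.pi * θ * Complex.I)) with hB
  calc ‖B‖ = ‖(B - ray l θ s) + ray l θ s‖ := by rw [sub_add_cancel]
    _ ≤ ‖B - ray l θ s‖ + ‖ray l θ s‖ := norm_add_le _ _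
    _ < ε := by linarith

end Pool.Agent.CR
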