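import Pool.Agent.H68.CR.R1

/-!
# CR R2: for `‖l‖ < 1` all rays land; `za l θ` is the landing point

`za_tendsto`: by `psi_sub_bounds` the function `t ↦ ray l θ t` is Cauchy as `t → 0+` (`‖exp(t + 2πiθ) - exp(t' + 2πiθ)‖ = |e^t - e^t'| → 0`,
the exponent `(1-‖l‖)/(1+‖l‖)` is positive; the case of equal points is trivial).
`za_iter`, `za_f`: pass to the limit in `ray_f`. `za_add_int`: `ray_add_int`.
`za_inj`: if `θ - θ'` is not an integer, `‖exp(t+2πiθ) - exp(t+2πiθ')‖ → ‖exp(2πiθ) - exp(2πiθ')‖ > 0` and the lower bound of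
`psi_sub_bounds` passes to the limit.
`norm_za_ge`: if `‖z‖ < 1 - ‖l‖` then `‖f l z‖ ≤ ‖z‖ (‖z‖ + ‖l‖) ≤ ‖z‖`, so `z ∈ K l`; but `ray l θ t ∉ K l`.
`norm_za_le`: `norm_ray_le`.
-/

set_option autoImplicit false

open Set Filter Topology

namespace Pool.Agent.CR

/-- The landing point of the ray of angle `θ`, `‖l‖ < 1`. -/
noncomputable def za (l : ℂ) (θ : ℝ) : ℂ := limUnder (𝓝[>] (0 : ℝ)) (fun t => ray l θ t)

private theorem R2_norm_exp (θ t : ℝ) : ‖Complex.exp ((t : ℂ) + 2 * Real.pi * θ * Complex.I)‖ = Real.exp t := by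
  rw [Complex.norm_exp]
  congr 1
  simp

private theorem R2_lt {t : ℝ} (ht : 0 < t) (θ : ℝ) : 1 < ‖Complex.exp ((t : ℂ) + 2 * Real.pi * θ * Complex.I)‖ := by
  rw [R2_norm_exp]
  exact Real.one_lt_exp_iff.2 ht

private theorem R2_le {t : ℝ} (ht : t ≤ Real.log 2) (θ : ℝ) :
    ‖Complex.exp ((t : ℂ) + 2 * Real.pi * θ * Complex.I)‖ ≤ 2 := by
  rw [R2_norm_exp]
  calc Real.exp t ≤ Real.exp (Real.log 2) := Real.exp_le_exp.2 ht
    _ = 2 := Real.exp_log (by norm_num)

private theorem R2_split (θ t : ℝ) : Complex.exp ((t : ℂ) + 2 * Real.pi * θ * Complex.I) =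
    ((Real.exp t : ℝ) : ℂ) * Complex.exp (2 * Real.pi * θ * Complex.I) := by
  rw [Complex.exp_add, Complex.ofReal_exp]

private theorem R2_norm_one (θ : ℝ) : ‖Complex.exp (2 * Real.pi * θ * Complex.I)‖ = 1 := by
  rw [Complex.norm_exp]
  simp

private theorem R2_sub (θ t t' : ℝ) : ‖Complex.exp ((t : ℂ) + 2 * Real.pi * θ * Complex.I) -
    Complex.exp ((t' : ℂ) + 2 * Real.pi * θ * Complex.I)‖ = |Real.exp t - Real.exp t'| := by
  rw [R2_split, R2_split, ← sub_mul, norm_mul, R2_norm_one, mul_one, ← Complex.ofReal_sub,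
    Complex.norm_real, Real.norm_eq_abs]

private theorem R2_ex {l : ℂ} (hl : ‖l‖ < 1) (θ : ℝ) :
    ∃ z, Tendsto (fun t => ray l θ t) (𝓝[>] 0) (𝓝 z) := by
  rw [← cauchy_map_iff_exists_tendsto, Metric.cauchy_iff]
  refine ⟨inferInstance, fun ε hε => ?_⟩
  set α : ℝ := (1 - ‖l‖) / (1 + ‖l‖) with hα
  have hα0 : 0 < α := by
    have := norm_nonneg l
    apply div_pos <;> linarith
  have hlim : Tendsto (fun δ : ℝ => 6 * ((Real.exp δ - 1) / 6) ^ α) (𝓝 0) (𝓝 0) := by
    have hc : ContinuousAt (fun δ : ℝ => 6 * ((Real.exp δ - 1) / 6) ^ α) 0 := by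
      apply ContinuousAt.mul continuousAt_const
      apply ContinuousAt.rpow_const
      · fun_prop
      · right
        exact hα0.le
    have h0 : 6 * ((Real.exp 0 - 1) / 6) ^ α = 0 := by
      rw [Real.exp_zero, sub_self, zero_div, Real.zero_rpow hα0.ne', mul_zero]
    have := hc.tendsto
    rwa [h0] at this
  have hev : ∀ᶠ δ in 𝓝 (0 : ℝ), 6 * ((Real.exp δ - 1) / 6) ^ α < ε := hlim.eventually (gt_mem_nhds hε)
  rw [Metric.eventually_nhds_iff] at hev
  obtain ⟨δ0, hδ0, hev⟩ := hev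
  set δ : ℝ := min (δ0 / 2) (Real.log 2) with hδ
  have hlog2 : 0 < Real.log 2 := Real.log_pos (by norm_num)
  have hδpos : 0 < δ := lt_min (by linarith) hlog2
  have hδε : 6 * ((Real.exp δ - 1) / 6) ^ α < ε := by
    apply hev
    rw [Real.dist_eq, sub_zero, abs_of_pos hδpos]
    have := min_le_left (δ0 / 2) (Real.log 2)
    linarith
  have hmem : Ioo 0 δ ∈ 𝓝[>] (0 : ℝ) := Ioo_mem_nhdsGT hδpos
  refine ⟨(fun t => ray l θ t) '' Ioo 0 δ, image_mem_map hmem, ?_⟩
  rintro _ ⟨t, ht, rfl⟩ _ ⟨t', ht', rfl⟩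
  by_cases htt : t = t'
  · rw [htt, dist_self]
    exact hε
  · have hne : Complex.exp ((t : ℂ) + 2 * Real.pi * θ * Complex.I) ≠
        Complex.exp ((t' : ℂ) + 2 * Real.pi * θ * Complex.I) := by
      intro h
      have h2 := R2_sub θ t t'
      rw [h, sub_self, norm_zero] at h2
      have h3 : Real.exp t = Real.exp t' := by
        have := abs_eq_zero.1 h2.symm
        linarith
      exact htt (Real.exp_injective h3)
    have hb := (psi_sub_bounds hl (R2_lt ht.1 θ) (R2_le (ht.2.le.trans (min_le_right _ _)) θ)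
      (R2_lt ht'.1 θ) (R2_le (ht'.2.le.trans (min_le_right _ _)) θ) hne).2
    rw [R2_sub] at hb
    rw [dist_eq_norm]
    refine lt_of_le_of_lt (show ‖ray l θ t - ray l θ t'‖ ≤ _ from hb) (lt_of_le_of_lt ?_ hδε)
    apply mul_le_mul_of_nonneg_left _ (by norm_num)
    apply Real.rpow_le_rpow (by positivity) _ hα0.le
    have e1 : 1 < Real.exp t := Real.one_lt_exp_iff.2 ht.1
    have e2 : 1 < Real.exp t' := Real.one_lt_exp_iff.2 ht'.1
    have e3 : Real.exp t < Real.exp δ := Real.exp_lt_exp.2 ht.2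
    have e4 : Real.exp t' < Real.exp δ := Real.exp_lt_exp.2 ht'.2
    have e5 : |Real.exp t - Real.exp t'| ≤ Real.exp δ - 1 := by
      rw [abs_le]
      constructor <;> linarith
    linarith

theorem za_tendsto {l : ℂ} (hl : ‖l‖ < 1) (θ : ℝ) :
    Tendsto (fun t => ray l θ t) (𝓝[>] 0) (𝓝 (za l θ)) := by
  unfold za
  exact tendsto_nhds_limUnder (R2_ex hl θ)

private theorem R2_cont (l : ℂ) : Continuous (f l) := by
  unfold f
  fun_prop

private theorem R2_double : Tendsto (fun t : ℝ => 2 * t) (𝓝[>] 0) (𝓝[>] 0) := by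
  apply tendsto_nhdsWithin_of_tendsto_nhds_of_eventually_within
  · have : Tendsto (fun t : ℝ => 2 * t) (𝓝 0) (𝓝 (2 * 0)) := (continuous_const_mul 2).tendsto 0
    rw [mul_zero] at this
    exact this.mono_left nhdsWithin_le_nhds
  · filter_upwards [self_mem_nhdsWithin] with t ht
    have : (0 : ℝ) < t := ht
    show (0 : ℝ) < 2 * t
    linarith

theorem za_f {l : ℂ} (hl : ‖l‖ < 1) (θ : ℝ) : f l (za l θ) = za l (2 * θ) := by
  have h1 : Tendsto (fun t => f l (ray l θ t)) (𝓝[>] 0) (𝓝 (f l (za l θ))) :=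
    ((R2_cont l).tendsto _).comp (za_tendsto hl θ)
  have h2 : Tendsto (fun t => ray l (2 * θ) (2 * t)) (𝓝[>] 0) (𝓝 (za l (2 * θ))) :=
    (za_tendsto hl (2 * θ)).comp R2_double
  have h3 : (fun t => f l (ray l θ t)) =ᶠ[𝓝[>] 0] (fun t => ray l (2 * θ) (2 * t)) := by
    filter_upwards [self_mem_nhdsWithin] with t ht
    exact ray_f hl.le θ ht
  exact tendsto_nhds_unique h1 (h2.congr' h3.symm)

theorem za_iter {l : ℂ} (hl : ‖l‖ < 1) (θ : ℝ) (n : ℕ) : (f l)^[n] (za l θ) = za l (2 ^ n * θ) := by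
  induction n with
  | zero => simp
  | succ n ih =>
    rw [Function.iterate_succ', Function.comp_apply, ih, za_f hl]
    congr 1
    ring

theorem za_add_int (l : ℂ) (θ : ℝ) (m : ℤ) : za l (θ + m) = za l θ := by
  unfold za
  congr 1
  funext t
  exact ray_add_int l θ t m

theorem za_inj {l : ℂ} (hl : ‖l‖ < 1) {θ θ' : ℝ} (h : za l θ = za l θ') : ∃ m : ℤ, θ - θ' = m := by
  by_contra hcon
  push Not at hcon
  set d : ℝ := ‖Complex.exp (2 * Real.pi * θ * Complex.I) - Complex.exp (2 * Real.pi * θ' * Complex.I)‖ with hd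
  have hd0 : 0 < d := by
    rw [hd, norm_pos_iff, sub_ne_zero]
    intro h1
    rw [Complex.exp_eq_exp_iff_exists_int] at h1
    obtain ⟨n, hn⟩ := h1
    apply hcon n
    have h2 : (2 * Real.pi * Complex.I : ℂ) ≠ 0 := Complex.two_pi_I_ne_zero
    have h3 : ((θ - θ' : ℝ) : ℂ) = ((n : ℝ) : ℂ) := by
      apply mul_left_cancel₀ h2
      push_cast
      linear_combination hn
    exact_mod_cast h3
  set β : ℝ := (1 + ‖l‖) / (1 - ‖l‖) with hβ
  have hβ0 : 0 ≤ β := by
    have := norm_nonneg l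
    apply div_nonneg <;> linarith
  have hlog2 : 0 < Real.log 2 := Real.log_pos (by norm_num)
  have hev : ∀ᶠ t in 𝓝[>] (0 : ℝ), 6 * (d / 6) ^ β ≤ ‖ray l θ t - ray l θ' t‖ := by
    filter_upwards [Ioo_mem_nhdsGT hlog2] with t ht
    have hexp : Complex.exp ((t : ℂ) + 2 * Real.pi * θ * Complex.I) -
        Complex.exp ((t : ℂ) + 2 * Real.pi * θ' * Complex.I) = ((Real.exp t : ℝ) : ℂ) *
        (Complex.exp (2 * Real.pi * θ * Complex.I) - Complex.exp (2 * Real.pi * θ' * Complex.I)) := by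
      rw [R2_split, R2_split]
      ring
    have hn : ‖Complex.exp ((t : ℂ) + 2 * Real.pi * θ * Complex.I) -
        Complex.exp ((t : ℂ) + 2 * Real.pi * θ' * Complex.I)‖ = Real.exp t * d := by
      rw [hexp, norm_mul, Complex.norm_real, Real.norm_eq_abs, abs_of_pos (Real.exp_pos t)]
    have het : 1 < Real.exp t := Real.one_lt_exp_iff.2 ht.1
    have hne : Complex.exp ((t : ℂ) + 2 * Real.pi * θ * Complex.I) ≠
        Complex.exp ((t : ℂ) + 2 * Real.pi * θ' * Complex.I) := by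
      intro h1
      rw [h1, sub_self, norm_zero] at hn
      have : 0 < Real.exp t * d := by positivity
      linarith
    have hb := (psi_sub_bounds hl (R2_lt ht.1 θ) (R2_le ht.2.le θ) (R2_lt ht.1 θ') (R2_le ht.2.le θ') hne).1
    rw [hn] at hb
    refine le_trans ?_ (show _ ≤ ‖ray l θ t - ray l θ' t‖ from hb)
    apply mul_le_mul_of_nonneg_left _ (by norm_num)
    apply Real.rpow_le_rpow (by positivity) _ hβ0
    have : d ≤ Real.exp t * d := by nlinarith
    linarith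
  have hlim : Tendsto (fun t => ‖ray l θ t - ray l θ' t‖) (𝓝[>] 0) (𝓝 ‖za l θ - za l θ'‖) :=
    ((za_tendsto hl θ).sub (za_tendsto hl θ')).norm
  have h4 := ge_of_tendsto hlim hev
  rw [h, sub_self, norm_zero] at h4
  have h5 : 0 < 6 * (d / 6) ^ β := by positivity
  linarith

theorem norm_za_ge {l : ℂ} (hl : ‖l‖ < 1) (θ : ℝ) : 1 - ‖l‖ ≤ ‖za l θ‖ := by
  have hlim : Tendsto (fun t => ‖ray l θ t‖) (𝓝[>] 0) (𝓝 ‖za l θ‖) := (za_tendsto hl θ).norm
  refine ge_of_tendsto hlim ?_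
  filter_upwards [self_mem_nhdsWithin] with t ht
  by_contra hlt
  push Not at hlt
  apply ray_notMem hl.le θ ht
  have key : ∀ n : ℕ, ‖(f l)^[n] (ray l θ t)‖ < 1 - ‖l‖ := by
    intro n
    induction n with
    | zero => simpa using hlt
    | succ n ih =>
      rw [Function.iterate_succ', Function.comp_apply]
      set y := (f l)^[n] (ray l θ t) with hy
      have h1 : ‖f l y‖ ≤ ‖y‖ * (‖y‖ + ‖l‖) := by
        unfold f
        calc ‖y ^ 2 + l * y‖ ≤ ‖y ^ 2‖ + ‖l * y‖ := norm_add_le _ _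
          _ = ‖y‖ * (‖y‖ + ‖l‖) := by
            rw [norm_pow, norm_mul]
            ring
      have h2 := norm_nonneg y
      nlinarith
  intro n
  have h1 := key n
  have h2 := norm_nonneg l
  linarith

theorem norm_za_le {l : ℂ} (hl : ‖l‖ < 1) (θ : ℝ) : ‖za l θ‖ ≤ 2 := by
  have hlim : Tendsto (fun t => ‖ray l θ t‖) (𝓝[>] 0) (𝓝 ‖za l θ‖) := (za_tendsto hl θ).norm
  have h2 : Tendsto (fun t : ℝ => Real.exp t + 1) (𝓝[>] 0) (𝓝 2) := by
    have : Tendsto (fun t : ℝ => Real.exp t + 1) (𝓝 0) (𝓝 (Real.exp 0 + 1)) :=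
      (Real.continuous_exp.add continuous_const).tendsto 0
    rw [Real.exp_zero] at this
    norm_num at this
    exact this.mono_left nhdsWithin_le_nhds
  refine le_of_tendsto_of_tendsto hlim h2 ?_
  filter_upwards [self_mem_nhdsWithin] with t ht
  exact norm_ray_le hl.le θ ht

end Pool.Agent.CR
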