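import Pool.Agent.H68.CR.R2

/-!
# CR R3: the fixed points of `f^M` for `‖l‖ < 1`

`iterPoly l M`: the polynomial of `(f l)^[M] z`; monic of degree `2^M` (`Polynomial.natDegree_comp`, `Monic.comp`; `f l` is the evaluation of
`X^2 + C l * X`, induction on `M` with `Function.iterate_succ_apply'`).
`za_prod`: the polynomial `(f l)^[M] z - z` is monic of degree `2^M` (`M ≥ 1`) and has the `2^M` pairwise distinct roots `0` and `za l (k/(2^M-1))`,
`k < 2^M - 1`: `2^M * (k/(2^M-1)) = k/(2^M-1) + k`, `za_iter`, `za_add_int`; distinct by `za_inj` (the angles differ by less than `1`), nonzero by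
`norm_za_ge`. A monic polynomial of degree `n` with `n` distinct roots is the product of `X - root`
(`Polynomial.prod_multiset_X_sub_C_of_monic_of_roots_card_eq` or `Polynomial.eq_of_degree_sub_lt_of_eval_finset_eq`).
-/

set_option autoImplicit false

open Set Filter Topology

namespace Pool.Agent.CR

theorem exists_iterPoly (l : ℂ) (M : ℕ) : ∃ P : Polynomial ℂ, P.Monic ∧ P.natDegree = 2 ^ M ∧
    ∀ z, P.eval z = (f l)^[M] z := by
  have hm : (Polynomial.X ^ 2 + Polynomial.C l * Polynomial.X : Polynomial ℂ).Monic := by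
    monicity!
  have hd : (Polynomial.X ^ 2 + Polynomial.C l * Polynomial.X : Polynomial ℂ).natDegree = 2 := by
    compute_degree!
  induction M with
  | zero => exact ⟨Polynomial.X, Polynomial.monic_X, by simp, by simp⟩
  | succ n ih =>
    obtain ⟨P, h1, h2, h3⟩ := ih
    refine ⟨(Polynomial.X ^ 2 + Polynomial.C l * Polynomial.X).comp P, hm.comp h1 ?_, ?_, ?_⟩
    · rw [h2]
      positivity
    · rw [Polynomial.natDegree_comp, hd, h2]
      ring
    · intro z
      rw [Function.iterate_succ', Function.comp_apply, ← h3 z]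
      simp [f]

private theorem R3_den {M : ℕ} (hM : 1 ≤ M) : (1 : ℝ) ≤ 2 ^ M - 1 := by
  have : (2 : ℝ) ^ 1 ≤ 2 ^ M := pow_le_pow_right₀ (by norm_num) hM
  linarith

private theorem R3_fix {l : ℂ} (hl : ‖l‖ < 1) {M : ℕ} (hM : 1 ≤ M) (k : ℕ) :
    (f l)^[M] (za l ((k : ℝ) / (2 ^ M - 1))) = za l ((k : ℝ) / (2 ^ M - 1)) := by
  have h1 := R3_den hM
  rw [za_iter hl]
  have : (2 : ℝ) ^ M * ((k : ℝ) / (2 ^ M - 1)) = (k : ℝ) / (2 ^ M - 1) + ((k : ℤ) : ℝ) := by
    have h2 : (2 : ℝ) ^ M - 1 ≠ 0 := by linarith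
    field_simp
    push_cast
    ring
  rw [this, za_add_int]

private theorem R3_inj {l : ℂ} (hl : ‖l‖ < 1) {M : ℕ} (hM : 1 ≤ M) :
    Set.InjOn (fun k : ℕ => za l ((k : ℝ) / (2 ^ M - 1))) (Finset.range (2 ^ M - 1)) := by
  intro a ha b hb hab
  have h1 := R3_den hM
  have hcast : (((2 ^ M - 1 : ℕ) : ℕ) : ℝ) = 2 ^ M - 1 := by
    rw [Nat.cast_sub Nat.one_le_two_pow]
    push_cast
    rfl
  have ha' : (a : ℝ) < 2 ^ M - 1 := by
    rw [← hcast]
    exact_mod_cast Finset.mem_range.1 ha
  have hb' : (b : ℝ) < 2 ^ M - 1 := by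
    rw [← hcast]
    exact_mod_cast Finset.mem_range.1 hb
  obtain ⟨m, hm⟩ := za_inj hl hab
  have h2 : (0 : ℝ) < 2 ^ M - 1 := by linarith
  have h3 : (a : ℝ) - b = m * (2 ^ M - 1) := by
    rw [← sub_div, div_eq_iff h2.ne'] at hm
    exact hm
  have ha0 : (0 : ℝ) ≤ a := Nat.cast_nonneg a
  have hb0 : (0 : ℝ) ≤ b := Nat.cast_nonneg b
  have hm1 : (m : ℝ) < 1 := by
    by_contra hc
    push Not at hc
    nlinarith
  have hm2 : (-1 : ℝ) < m := by
    by_contra hc
    push Not at hc
    nlinarith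
  have hm0 : m = 0 := by
    have h4 : m < 1 := by exact_mod_cast hm1
    have h5 : -1 < m := by exact_mod_cast hm2
    omega
  rw [hm0] at h3
  have h4 : (a : ℝ) = b := by
    push_cast at h3
    linarith
  exact_mod_cast h4

private theorem R3_ne {l : ℂ} (hl : ‖l‖ < 1) (θ : ℝ) : za l θ ≠ 0 := by
  intro h
  have := norm_za_ge hl θ
  rw [h, norm_zero] at this
  linarith

theorem za_prod {l : ℂ} (hl : ‖l‖ < 1) {M : ℕ} (hM : 1 ≤ M) (z : ℂ) :
    (f l)^[M] z - z = z * ∏ k ∈ Finset.range (2 ^ M - 1), (z - za l ((k : ℝ) / (2 ^ M - 1))) := by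
  obtain ⟨P, hP1, hP2, hP3⟩ := exists_iterPoly l M
  have h2M : 1 < 2 ^ M := Nat.one_lt_two_pow (by omega)
  have hXd : (Polynomial.X : Polynomial ℂ).degree < P.degree := by
    rw [Polynomial.degree_X, Polynomial.degree_eq_natDegree hP1.ne_zero, hP2]
    exact_mod_cast h2M
  have hD1 : (P - Polynomial.X).Monic := hP1.sub_of_left hXd
  have hDd : (P - Polynomial.X).degree = ((2 ^ M : ℕ) : WithBot ℕ) := by
    rw [Polynomial.degree_sub_eq_left_of_degree_lt hXd, Polynomial.degree_eq_natDegree hP1.ne_zero, hP2]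
  set Q : Polynomial ℂ := Polynomial.X * ∏ k ∈ Finset.range (2 ^ M - 1),
    (Polynomial.X - Polynomial.C (za l ((k : ℝ) / (2 ^ M - 1)))) with hQ
  have hQ1 : Q.Monic := Polynomial.monic_X.mul (Polynomial.monic_prod_of_monic _ _
    (fun k _ => Polynomial.monic_X_sub_C _))
  have hQd : Q.natDegree = 2 ^ M := by
    rw [hQ, Polynomial.Monic.natDegree_mul Polynomial.monic_X (Polynomial.monic_prod_of_monic _ _
      (fun k _ => Polynomial.monic_X_sub_C _)), Polynomial.natDegree_X,
      Polynomial.natDegree_prod_of_monic _ _ (fun k _ => Polynomial.monic_X_sub_C _)]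
    simp
    omega
  set S : Finset ℂ := insert 0 ((Finset.range (2 ^ M - 1)).image
    (fun k : ℕ => za l ((k : ℝ) / (2 ^ M - 1)))) with hS
  have hcard : S.card = 2 ^ M := by
    rw [hS, Finset.card_insert_of_notMem, Finset.card_image_of_injOn (R3_inj hl hM), Finset.card_range]
    · omega
    · intro h
      rw [Finset.mem_image] at h
      obtain ⟨k, _, hk⟩ := h
      exact R3_ne hl _ hk
  have hQdeg : Q.degree = ((2 ^ M : ℕ) : WithBot ℕ) := by
    rw [Polynomial.degree_eq_natDegree hQ1.ne_zero, hQd]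
  have heq : P - Polynomial.X = Q := by
    apply Polynomial.eq_of_degree_sub_lt_of_eval_finset_eq S
    · rw [hcard, ← hDd]
      apply Polynomial.degree_sub_lt_left (by rw [hDd, hQdeg]) hD1.ne_zero
      rw [hD1.leadingCoeff, hQ1.leadingCoeff]
    · intro x hx
      rw [Polynomial.eval_sub, Polynomial.eval_X, hP3, hQ, Polynomial.eval_mul, Polynomial.eval_X,
        Polynomial.eval_prod]
      rw [hS, Finset.mem_insert, Finset.mem_image] at hx
      rcases hx with hx | ⟨k, hk, hx⟩
      · rw [hx, zero_mul, sub_zero]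
        have h0 : ∀ n : ℕ, (f l)^[n] 0 = 0 := by
          intro n
          induction n with
          | zero => rfl
          | succ n ih =>
            rw [Function.iterate_succ', Function.comp_apply, ih]
            simp [f]
        exact h0 M
      · rw [← hx, R3_fix hl hM, sub_self]
        symm
        apply mul_eq_zero_of_right
        apply Finset.prod_eq_zero hk
        simp
  have h5 : (P - Polynomial.X).eval z = Q.eval z := by rw [heq]
  rw [Polynomial.eval_sub, Polynomial.eval_X, hP3, hQ, Polynomial.eval_mul, Polynomial.eval_X,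
    Polynomial.eval_prod] at h5
  rw [h5]
  simp

end Pool.Agent.CR
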