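import Pool.Agent.H68.CR.R0
import Pool.Agent.H68.CR.R3

/-!
# CR R4: periodic rays land (`‖l‖ ≤ 1`)

`ray_osc`: `Ψ τ = psi l (exp τ)` is injective on `ball (s + 2πiθ) s` for `0 < s ≤ 1` (two points of the ball differ by less than `2 ≤ 2π`; `psi_injOn`
and injectivity of `exp` on sets of diameter `< 2π`), so `koebe` gives
`ball (ray l θ s) (κ s ‖Ψ'(s + 2πiθ)‖) ⊆ Ψ '' ball ⊆ (K l)ᶜ` (`psi_notMem`), hence `κ s ‖Ψ'(s + 2πiθ)‖ ≤ infDist (ray l θ s) (K l)`
(`K l` is nonempty and closed), and this tends to `0` (`tendsto_infDist`). The derivative of `s ↦ ray l θ s` is `Ψ'(s + 2πiθ)`; if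
`κ u ‖Ψ'(u+2πiθ)‖ ≤ η` for `u < r t0` then `‖ray l θ s - ray l θ t‖ ≤ sup_{[t,s]} ‖Ψ'‖ (s - t) ≤ η (r t - t) / (κ t) ≤ η r / κ` for `t ≤ s ≤ r t`
(mean value inequality, e.g. `Convex.norm_image_sub_le_of_norm_deriv_le` on the segment).
`ray_lands`: `P = iterPoly - X ≠ 0`; `(f l)^[M] (ray l θ t) = ray l (2^M θ) (2^M t) = ray l θ (2^M t)` (`ray_iter`, `ray_add_int`), so
`P (ray l θ t) → 0` by `ray_osc` with `r = 2^M`; apply `tendsto_root_of_poly` (continuity: `ray_continuousOn`).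
-/

set_option autoImplicit false

open Set Filter Topology

namespace Pool.Agent.CR

private theorem R4_ray_eq (l : ℂ) (θ t : ℝ) :
    ray l θ t = (fun τ : ℂ => psi l (Complex.exp τ)) ((t : ℂ) + 2 * Real.pi * θ * Complex.I) := rfl

private theorem R4_re (θ u : ℝ) : ((u : ℂ) + 2 * Real.pi * θ * Complex.I).re = u := by
  simp

private theorem R4_norm_exp {τ : ℂ} (h : 0 < τ.re) : 1 < ‖Complex.exp τ‖ := by
  rw [Complex.norm_exp]
  exact Real.one_lt_exp_iff.2 h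

private theorem R4_open : IsOpen {w : ℂ | 1 < ‖w‖} := isOpen_lt continuous_const continuous_norm

private theorem R4_diff {l : ℂ} (hl : ‖l‖ ≤ 1) {τ : ℂ} (h : 0 < τ.re) :
    DifferentiableAt ℂ (fun τ : ℂ => psi l (Complex.exp τ)) τ := by
  have h1 : Complex.exp τ ∈ {w : ℂ | 1 < ‖w‖} := R4_norm_exp h
  have h2 : DifferentiableAt ℂ (psi l) (Complex.exp τ) :=
    (psi_differentiableOn hl _ h1).differentiableAt (R4_open.mem_nhds h1)
  exact h2.comp τ Complex.differentiable_exp.differentiableAt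

private theorem R4_ball_re {θ u : ℝ} {τ : ℂ}
    (hτ : τ ∈ Metric.ball ((u : ℂ) + 2 * Real.pi * θ * Complex.I) u) : 0 < τ.re := by
  have h1 : |(τ - ((u : ℂ) + 2 * Real.pi * θ * Complex.I)).re| < u :=
    lt_of_le_of_lt (Complex.abs_re_le_norm _) (by simpa [dist_eq_norm] using hτ)
  rw [Complex.sub_re, R4_re, abs_lt] at h1
  linarith [h1.1]

private theorem R4_inj {l : ℂ} (hl : ‖l‖ ≤ 1) (θ : ℝ) {u : ℝ} (hu1 : u ≤ 1) :
    InjOn (fun τ : ℂ => psi l (Complex.exp τ)) (Metric.ball ((u : ℂ) + 2 * Real.pi * θ * Complex.I) u) := by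
  intro τ hτ τ' hτ' h
  have h1 : Complex.exp τ ∈ {w : ℂ | 1 < ‖w‖} := R4_norm_exp (R4_ball_re hτ)
  have h2 : Complex.exp τ' ∈ {w : ℂ | 1 < ‖w‖} := R4_norm_exp (R4_ball_re hτ')
  have h3 := psi_injOn hl h1 h2 h
  rw [Complex.exp_eq_exp_iff_exists_int] at h3
  obtain ⟨n, hn⟩ := h3
  have h4 : ‖τ - τ'‖ < 2 := by
    have h5 : dist τ τ' ≤ dist τ ((u : ℂ) + 2 * Real.pi * θ * Complex.I) +
        dist ((u : ℂ) + 2 * Real.pi * θ * Complex.I) τ' := dist_triangle _ _ _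
    rw [Metric.mem_ball] at hτ hτ'
    rw [dist_comm ((u : ℂ) + 2 * Real.pi * θ * Complex.I) τ', dist_eq_norm τ τ'] at h5
    linarith
  have h5 : ‖τ - τ'‖ = |(n : ℝ)| * (2 * Real.pi) := by
    have : τ - τ' = (((n : ℝ) * (2 * Real.pi) : ℝ) : ℂ) * Complex.I := by
      rw [hn]
      push_cast
      ring
    rw [this, norm_mul, Complex.norm_I, mul_one, Complex.norm_real, Real.norm_eq_abs, abs_mul,
      abs_of_pos (by positivity : (0 : ℝ) < 2 * Real.pi)]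
  have h6 : n = 0 := by
    by_contra hne
    have h7 : (1 : ℝ) ≤ |(n : ℝ)| := by
      have : (1 : ℤ) ≤ |n| := Int.one_le_abs hne
      exact_mod_cast this
    have h8 := Real.pi_gt_three
    rw [h5] at h4
    nlinarith
  rw [hn, h6]
  simp

private theorem R4_bound {l : ℂ} (hl : ‖l‖ ≤ 1) (θ : ℝ) {κ : ℝ}
    (hκ : ∀ (h : ℂ → ℂ) (x : ℂ) (r : ℝ), 0 < r →
      DifferentiableOn ℂ h (Metric.ball x r) → InjOn h (Metric.ball x r) →
        Metric.ball (h x) (κ * r * ‖deriv h x‖) ⊆ h '' Metric.ball x r) {u : ℝ} (hu : 0 < u) (hu1 : u ≤ 1) :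
    κ * u * ‖deriv (fun τ : ℂ => psi l (Complex.exp τ)) ((u : ℂ) + 2 * Real.pi * θ * Complex.I)‖ ≤
      Metric.infDist (ray l θ u) (K l) := by
  have h1 := hκ (fun τ : ℂ => psi l (Complex.exp τ)) ((u : ℂ) + 2 * Real.pi * θ * Complex.I) u hu
    (fun τ hτ => (R4_diff hl (R4_ball_re hτ)).differentiableWithinAt) (R4_inj hl θ hu1)
  rw [Metric.le_infDist ⟨0, zero_mem_K l⟩]
  intro y hy
  by_contra hlt
  push Not at hlt
  have h2 : y ∈ Metric.ball ((fun τ : ℂ => psi l (Complex.exp τ)) ((u : ℂ) + 2 * Real.pi * θ * Complex.I))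
      (κ * u * ‖deriv (fun τ : ℂ => psi l (Complex.exp τ)) ((u : ℂ) + 2 * Real.pi * θ * Complex.I)‖) := by
    rw [Metric.mem_ball, dist_comm]
    exact hlt
  obtain ⟨τ, hτ, hτy⟩ := h1 h2
  exact psi_notMem hl (R4_norm_exp (R4_ball_re hτ)) (by
    have h3 : psi l (Complex.exp τ) = y := hτy
    rw [h3]
    exact hy)

private theorem R4_hasDeriv {l : ℂ} (hl : ‖l‖ ≤ 1) (θ : ℝ) {u : ℝ} (hu : 0 < u) :
    HasDerivAt (ray l θ) (deriv (fun τ : ℂ => psi l (Complex.exp τ)) ((u : ℂ) + 2 * Real.pi * θ * Complex.I))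
      u := by
  have h1 : HasDerivAt (fun τ : ℂ => psi l (Complex.exp τ))
      (deriv (fun τ : ℂ => psi l (Complex.exp τ)) ((u : ℂ) + 2 * Real.pi * θ * Complex.I))
      ((u : ℂ) + 2 * Real.pi * θ * Complex.I) := by
    apply (R4_diff hl _).hasDerivAt
    rw [R4_re]
    exact hu
  have h2 : HasDerivAt (fun τ : ℂ => psi l (Complex.exp (τ + 2 * Real.pi * θ * Complex.I)))
      (deriv (fun τ : ℂ => psi l (Complex.exp τ)) ((u : ℂ) + 2 * Real.pi * θ * Complex.I)) (u : ℂ) :=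
    h1.comp_add_const _ _
  exact h2.comp_ofReal

theorem ray_continuousOn' {l : ℂ} (hl : ‖l‖ ≤ 1) (θ : ℝ) : ContinuousOn (ray l θ) (Ioi 0) :=
  fun _ hu => (R4_hasDeriv hl θ hu).continuousAt.continuousWithinAt

theorem ray_osc {l : ℂ} (hl : ‖l‖ ≤ 1) (θ : ℝ) {r : ℝ} (hr : 1 ≤ r) {ε : ℝ} (hε : 0 < ε) :
    ∃ t0 > 0, ∀ t s, 0 < t → t ≤ s → s ≤ r * t → t < t0 → ‖ray l θ s - ray l θ t‖ < ε := by
  obtain ⟨κ, hκ0, hκ⟩ := koebe
  have hr0 : 0 < r := by linarith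
  set η : ℝ := κ * ε / (2 * r) with hη
  have hη0 : 0 < η := by positivity
  have h1 : ∀ᶠ u in 𝓝[>] (0 : ℝ), Metric.infDist (ray l θ u) (K l) < η :=
    (tendsto_infDist hl θ).eventually (gt_mem_nhds hη0)
  rw [eventually_nhdsWithin_iff, Metric.eventually_nhds_iff] at h1
  obtain ⟨u0, hu0, h1⟩ := h1
  refine ⟨min u0 1 / r, by positivity, ?_⟩
  intro t s ht hts hsr htt
  rw [lt_div_iff₀ hr0] at htt
  have hs1 : s < min u0 1 := lt_of_le_of_lt hsr (by rw [mul_comm]; exact htt)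
  have key : ∀ u ∈ Icc t s,
      ‖deriv (fun τ : ℂ => psi l (Complex.exp τ)) ((u : ℂ) + 2 * Real.pi * θ * Complex.I)‖ ≤ η / (κ * t) := by
    intro u hu
    have hu0' : 0 < u := ht.trans_le hu.1
    have hu1 : u < min u0 1 := hu.2.trans_lt hs1
    have h2 := R4_bound hl θ hκ hu0' (hu1.le.trans (min_le_right _ _))
    have h3 : Metric.infDist (ray l θ u) (K l) < η := by
      apply h1 _ hu0'
      rw [Real.dist_eq, sub_zero, abs_of_pos hu0']
      exact hu1.trans_le (min_le_left _ _)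
    rw [le_div_iff₀ (by positivity)]
    set D := ‖deriv (fun τ : ℂ => psi l (Complex.exp τ)) ((u : ℂ) + 2 * Real.pi * θ * Complex.I)‖ with hD
    have hD0 : 0 ≤ D := norm_nonneg _
    calc D * (κ * t) = κ * t * D := by ring
      _ ≤ κ * u * D := by
          apply mul_le_mul_of_nonneg_right _ hD0
          exact mul_le_mul_of_nonneg_left hu.1 hκ0.le
      _ ≤ η := h2.trans h3.le
  have h4 : ‖ray l θ s - ray l θ t‖ ≤ η / (κ * t) * ‖s - t‖ := by
    apply Convex.norm_image_sub_le_of_norm_hasDerivWithin_le (s := Icc t s)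
      (fun u hu => (R4_hasDeriv hl θ (ht.trans_le hu.1)).hasDerivWithinAt) key (convex_Icc t s)
      (left_mem_Icc.2 hts) (right_mem_Icc.2 hts)
  refine lt_of_le_of_lt h4 ?_
  rw [Real.norm_eq_abs, abs_of_nonneg (by linarith)]
  have h5 : s - t ≤ r * t := by linarith
  calc η / (κ * t) * (s - t) ≤ η / (κ * t) * (r * t) :=
        mul_le_mul_of_nonneg_left h5 (by positivity)
    _ = ε / 2 := by
        rw [hη]
        field_simp
    _ < ε := by linarith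

theorem ray_lands {l : ℂ} (hl : ‖l‖ ≤ 1) {M : ℕ} (hM : 1 ≤ M) {θ : ℝ} {m : ℤ}
    (hθ : (2 ^ M - 1) * θ = m) :
    ∃ ζ, (f l)^[M] ζ = ζ ∧ Tendsto (ray l θ) (𝓝[>] 0) (𝓝 ζ) := by
  obtain ⟨P, hP1, hP2, hP3⟩ := exists_iterPoly l M
  have hdeg : (Polynomial.X : Polynomial ℂ).natDegree < P.natDegree := by
    rw [hP2, Polynomial.natDegree_X]
    exact Nat.one_lt_two_pow (by omega)
  have hne : P - Polynomial.X ≠ 0 := by
    intro h0
    rw [sub_eq_zero] at h0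
    rw [h0] at hdeg
    exact lt_irrefl _ hdeg
  have hray : ∀ t : ℝ, 0 < t → (f l)^[M] (ray l θ t) = ray l θ (2 ^ M * t) := by
    intro t ht
    rw [ray_iter hl θ ht M]
    have : (2 : ℝ) ^ M * θ = θ + m := by linear_combination hθ
    rw [this, ray_add_int]
  have hone : (1 : ℝ) ≤ 2 ^ M := one_le_pow₀ (by norm_num)
  have hP0 : Tendsto (fun t => (P - Polynomial.X).eval (ray l θ t)) (𝓝[>] 0) (𝓝 0) := by
    rw [Metric.tendsto_nhds]
    intro ε hε
    obtain ⟨t0, ht0, h⟩ := ray_osc hl θ hone hε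
    rw [eventually_nhdsWithin_iff]
    filter_upwards [gt_mem_nhds ht0] with t ht ht'
    rw [Polynomial.eval_sub, Polynomial.eval_X, hP3, hray t ht', dist_zero_right]
    exact h t (2 ^ M * t) ht' (by nlinarith [show (0 : ℝ) < t from ht']) le_rfl ht
  obtain ⟨ζ, hζ, hlim⟩ := tendsto_root_of_poly hne (zero_lt_one)
    ((ray_continuousOn' hl θ).mono (fun t ht => ht.1)) hP0
  refine ⟨ζ, ?_, hlim⟩
  rw [Polynomial.eval_sub, Polynomial.eval_X, hP3, sub_eq_zero] at hζ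
  exact hζ

end Pool.Agent.CR
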