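import Pool.Agent.H68.CR.R5

/-!
# CR R6: parametrization of an attracting petal of a parabolic germ

`c0 ^ k = -1/(k A)`, `β w = c0 * w ^ (-1/k : ℂ)` (principal power, `Re w > 0`): `Yc (β w) = w`, `‖β w‖ = ‖c0‖ ‖w‖^(-1/k)` for `Re w > 0`
(`Complex.norm_cpow_eq_rpow_re_of_pos`-like: `-1/k` is real, so `‖w ^ (-1/k : ℂ)‖ = ‖w‖^(-1/k)`, `Complex.norm_cpow_real`).
`T w = Yc (F (β w))`. By `Yc_step` `‖T w - w - 1‖ ≤ C ‖β w‖ ≤ C' ‖w‖^(-1/k)`, and `≤ 1/4` for `Re w ≥ R`.
`F (β w) = β (T w)`: the quotient `ρ = F (β w) / β (T w)` satisfies `ρ^k = Yc (β (T w)) / Yc (F (β w)) = 1`. It tends to `1` uniformly as `Re w → ∞`: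
`F (β w) / β w = 1 + (β w)^k G (β w) → 1` and `β (T w) / β w = exp (-(log (T w) - log w)/k)` with `log (T w) - log w = log (T w / w)` small
(both in the right half plane). A `k`-th root of unity which is close to `1` is `1` (the other ones have distance `≥ ‖exp(2πi/k) - 1‖ > 0`; finitely many).
`T` is differentiable on `Re w > R`; `deriv_T`: Cauchy's estimate for `T w - w - 1` on `ball w (Re w / 2)`, `Re w ≥ 2 R`.
`T_iter`: induction (`(T^[n] w).re ≥ w.re + n/2 > R`).
`deriv_iter_le`: chain rule, `∏ (1 + C (1 + j/2)^(-1-1/k)) ≤ exp (∑ ...)`, the sum converges.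
-/

set_option autoImplicit false

open Set Filter Topology

namespace Pool.Agent.CR

/-- Data of a parametrized attracting petal: `β` conjugates `T` (close to `w + 1`) to `F`. -/
structure PetalPar (F : ℂ → ℂ) (A : ℂ) (k : ℕ) (R : ℝ) (β T : ℂ → ℂ) : Prop where
  R_pos : 1 ≤ R
  diff : DifferentiableOn ℂ β {w | 0 < w.re}
  ne_zero : ∀ w : ℂ, 0 < w.re → β w ≠ 0
  Y_beta : ∀ w : ℂ, 0 < w.re → Yc A k (β w) = w
  diffT : DifferentiableOn ℂ T {w | R < w.re}
  conj : ∀ w : ℂ, R < w.re → F (β w) = β (T w)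
  T_step : ∀ w : ℂ, R < w.re → ‖T w - w - 1‖ ≤ 1 / 4
  deriv_le : ∃ B : ℝ, ∀ w : ℂ, R + 1 < w.re → ∀ n : ℕ, ‖deriv (T^[n]) w‖ ≤ B
  tend : Tendsto β (comap (fun w : ℂ => w.re) atTop) (𝓝 0)

private theorem R6_re_le {w : ℂ} : w.re ≤ ‖w‖ := Complex.re_le_norm w

private theorem R6_slit {w : ℂ} (hw : 0 < w.re) : w ∈ Complex.slitPlane :=
  Complex.mem_slitPlane_iff.2 (Or.inl hw)

private theorem R6_ne {w : ℂ} (hw : 0 < w.re) : w ≠ 0 := by
  rintro rfl
  simp at hw

/-- the map `β` -/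
private noncomputable def R6_beta (c0 : ℂ) (k : ℕ) (w : ℂ) : ℂ := c0 * w ^ (((-(1 / (k : ℝ)) : ℝ)) : ℂ)

private theorem R6_norm_beta (c0 : ℂ) (k : ℕ) (w : ℂ) :
    ‖R6_beta c0 k w‖ = ‖c0‖ * ‖w‖ ^ (-(1 / (k : ℝ))) := by
  unfold R6_beta
  rw [norm_mul, Complex.norm_cpow_real]

private theorem R6_beta_ne {c0 : ℂ} (hc : c0 ≠ 0) (k : ℕ) {w : ℂ} (hw : 0 < w.re) : R6_beta c0 k w ≠ 0 := by
  unfold R6_beta
  refine mul_ne_zero hc ?_
  rw [Ne, Complex.cpow_eq_zero_iff]
  intro h
  exact R6_ne hw h.1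

private theorem R6_beta_diff (c0 : ℂ) (k : ℕ) : DifferentiableOn ℂ (R6_beta c0 k) {w | 0 < w.re} := by
  intro w hw
  unfold R6_beta
  exact ((differentiableAt_id.cpow_const (R6_slit hw)).const_mul c0).differentiableWithinAt

private theorem R6_beta_pow (c0 : ℂ) {k : ℕ} (hk : 1 ≤ k) (w : ℂ) :
    (R6_beta c0 k w) ^ k = c0 ^ k * w⁻¹ := by
  unfold R6_beta
  rw [mul_pow, ← Complex.cpow_nat_mul]
  have hk0 : (k : ℂ) ≠ 0 := by exact_mod_cast (by omega : k ≠ 0)
  have : (k : ℂ) * (((-(1 / (k : ℝ)) : ℝ)) : ℂ) = -1 := by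
    push_cast
    field_simp
  rw [this, Complex.cpow_neg_one]

private theorem R6_Y_beta {c0 A : ℂ} {k : ℕ} (hk : 1 ≤ k) (hc : (k : ℂ) * A * c0 ^ k = -1) (w : ℂ) :
    Yc A k (R6_beta c0 k w) = w := by
  unfold Yc
  rw [R6_beta_pow c0 hk w, ← mul_assoc, hc]
  rw [neg_one_mul, neg_div_neg_eq, one_div, inv_inv]

private theorem R6_beta_exp {c0 : ℂ} {k : ℕ} {w : ℂ} (hw : 0 < w.re) {a : ℂ}
    (h1 : -Real.pi < (Complex.log w + a).im) (h2 : (Complex.log w + a).im ≤ Real.pi) :
    R6_beta c0 k (w * Complex.exp a) =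
      R6_beta c0 k w * Complex.exp (a * (((-(1 / (k : ℝ)) : ℝ)) : ℂ)) := by
  have hw0 := R6_ne hw
  unfold R6_beta
  have hwe : w * Complex.exp a = Complex.exp (Complex.log w + a) := by
    rw [Complex.exp_add, Complex.exp_log hw0]
  have hne : w * Complex.exp a ≠ 0 := mul_ne_zero hw0 (Complex.exp_ne_zero _)
  rw [Complex.cpow_def_of_ne_zero hne, hwe, Complex.log_exp h1 h2, Complex.cpow_def_of_ne_zero hw0,
    add_mul, Complex.exp_add, mul_assoc]

private theorem R6_beta_tend (c0 : ℂ) {k : ℕ} (hk : 1 ≤ k) :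
    Tendsto (R6_beta c0 k) (comap (fun w : ℂ => w.re) atTop) (𝓝 0) := by
  rw [tendsto_zero_iff_norm_tendsto_zero]
  have hk0 : (0 : ℝ) < 1 / (k : ℝ) := by
    have : (0 : ℝ) < k := by exact_mod_cast hk
    positivity
  have h1 : Tendsto (fun w : ℂ => ‖w‖) (comap (fun w : ℂ => w.re) atTop) atTop :=
    tendsto_atTop_mono (fun w => R6_re_le) tendsto_comap
  have h2 := ((tendsto_rpow_neg_atTop hk0).comp h1).const_mul ‖c0‖
  rw [mul_zero] at h2
  refine h2.congr ?_
  intro w
  rw [R6_norm_beta]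
  rfl

private theorem R6_ev {p : ℂ → Prop} (h : ∀ᶠ w in comap (fun w : ℂ => w.re) atTop, p w) :
    ∃ R : ℝ, 1 ≤ R ∧ ∀ w : ℂ, R < w.re → p w := by
  rw [eventually_comap, eventually_atTop] at h
  obtain ⟨R, hR⟩ := h
  refine ⟨max R 1, le_max_right _ _, fun w hw => ?_⟩
  exact hR w.re ((le_max_left _ _).trans hw.le) w rfl

/-- step bounds and iteration -/
private theorem R6_re_iter {T : ℂ → ℂ} {R : ℝ} (hT : ∀ w : ℂ, R < w.re → ‖T w - w - 1‖ ≤ 1 / 4)
    {w : ℂ} (hw : R < w.re) (n : ℕ) : w.re + n / 2 ≤ (T^[n] w).re := by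
  induction n with
  | zero => simp
  | succ n ih =>
    rw [Function.iterate_succ', Function.comp_apply]
    have h0 : (0 : ℝ) ≤ (n : ℝ) / 2 := by positivity
    have h1 : R < (T^[n] w).re := by linarith
    have h2 := hT _ h1
    have h3 : |(T (T^[n] w) - T^[n] w - 1).re| ≤ 1 / 4 := (Complex.abs_re_le_norm _).trans h2
    rw [Complex.sub_re, Complex.sub_re, Complex.one_re, abs_le] at h3
    push_cast
    linarith [h3.1]

private theorem R6_diff_iter {T : ℂ → ℂ} {R : ℝ} (hT : ∀ w : ℂ, R < w.re → ‖T w - w - 1‖ ≤ 1 / 4)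
    (hd : DifferentiableOn ℂ T {w | R < w.re}) (n : ℕ) :
    DifferentiableOn ℂ (T^[n]) {w | R < w.re} := by
  induction n with
  | zero => simpa using differentiableOn_id
  | succ n ih =>
    rw [Function.iterate_succ']
    refine hd.comp ih ?_
    intro w hw
    have h0 : (0 : ℝ) ≤ (n : ℝ) / 2 := by positivity
    have h1 := R6_re_iter hT hw n
    have h2 : R < w.re := hw
    show R < (T^[n] w).re
    linarith

private theorem R6_open (R : ℝ) : IsOpen {w : ℂ | R < w.re} :=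
  isOpen_lt continuous_const Complex.continuous_re

private theorem R6_deriv_T {T : ℂ → ℂ} {R D : ℝ} {e : ℝ} (hR : 1 ≤ R) (hD : 0 ≤ D) (he : 0 < e)
    (hd : DifferentiableOn ℂ T {w | R < w.re})
    (hb : ∀ w : ℂ, R < w.re → ‖T w - w - 1‖ ≤ D * w.re ^ (-e)) {w : ℂ} (hw : R + 1 < w.re) :
    ‖deriv T w‖ ≤ 1 + D * (R + 1) * (w.re / 2) ^ (-(1 + e)) := by
  set x : ℝ := w.re / 2 with hx
  have hx0 : 0 < x := by rw [hx]; linarith
  set s : ℝ := (w.re - R) / 2 with hs
  have hs0 : 0 < s := by rw [hs]; linarith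
  have hsub : ∀ z ∈ Metric.closedBall w s, R < z.re ∧ x ≤ z.re := by
    intro z hz
    have h1 : |(z - w).re| ≤ s := (Complex.abs_re_le_norm _).trans (by simpa [dist_eq_norm] using hz)
    rw [Complex.sub_re, abs_le] at h1
    constructor
    · rw [hs] at h1; linarith [h1.1]
    · rw [hs] at h1; rw [hx]; linarith [h1.1]
  have hRw : w ∈ {w : ℂ | R < w.re} := by
    show R < w.re
    linarith
  have hdw : DifferentiableAt ℂ T w := (hd w hRw).differentiableAt ((R6_open R).mem_nhds hRw)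
  have hdc : DiffContOnCl ℂ (fun z => T z - z - 1) (Metric.ball w s) := by
    apply DifferentiableOn.diffContOnCl
    intro z hz
    have hz' : z ∈ Metric.closedBall w s := by
      have := closure_mono (le_refl (Metric.ball w s)) hz
      exact Metric.closure_ball_subset_closedBall hz
    have h2 : z ∈ {w : ℂ | R < w.re} := (hsub z hz').1
    exact ((((hd z h2).differentiableAt ((R6_open R).mem_nhds h2)).sub differentiableAt_id).sub
      (differentiableAt_const 1)).differentiableWithinAt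
  have hC : ∀ z ∈ Metric.sphere w s, ‖(fun z => T z - z - 1) z‖ ≤ D * x ^ (-e) := by
    intro z hz
    obtain ⟨h3, h4⟩ := hsub z (Metric.sphere_subset_closedBall hz)
    refine (hb z h3).trans ?_
    apply mul_le_mul_of_nonneg_left _ hD
    exact Real.rpow_le_rpow_of_nonpos hx0 h4 (by linarith)
  have h5 := Complex.norm_deriv_le_of_forall_mem_sphere_norm_le hs0 hdc hC
  have h6 : deriv (fun z => T z - z - 1) w = deriv T w - 1 := by
    have h7 : HasDerivAt (fun z => T z - z - 1) (deriv T w - 1 - 0) w :=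
      (hdw.hasDerivAt.sub (hasDerivAt_id w)).sub (hasDerivAt_const w 1)
    rw [h7.deriv, sub_zero]
  rw [h6] at h5
  have h8 : ‖deriv T w‖ ≤ 1 + ‖deriv T w - 1‖ := by
    calc ‖deriv T w‖ = ‖1 + (deriv T w - 1)‖ := by ring_nf
      _ ≤ ‖(1 : ℂ)‖ + ‖deriv T w - 1‖ := norm_add_le _ _
      _ = 1 + ‖deriv T w - 1‖ := by rw [norm_one]
  refine h8.trans ?_
  have h9 : D * x ^ (-e) / s ≤ D * (R + 1) * x ^ (-(1 + e)) := by
    have h10 : x ^ (-(1 + e)) = x ^ (-e) / x := by
      rw [show -(1 + e) = -e - 1 by ring, Real.rpow_sub_one hx0.ne']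
    rw [h10]
    have h11 : 1 / s ≤ (R + 1) / x := by
      rw [div_le_div_iff₀ hs0 hx0, hs, hx]
      nlinarith
    have h12 : 0 ≤ D * x ^ (-e) := mul_nonneg hD (Real.rpow_nonneg hx0.le _)
    calc D * x ^ (-e) / s = D * x ^ (-e) * (1 / s) := by ring
      _ ≤ D * x ^ (-e) * ((R + 1) / x) := mul_le_mul_of_nonneg_left h11 h12
      _ = D * (R + 1) * (x ^ (-e) / x) := by ring
  linarith

private theorem R6_summable {e : ℝ} (he : 0 < e) (D : ℝ) :
    Summable (fun n : ℕ => D * (((n : ℝ) + 1) / 4) ^ (-(1 + e))) := by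
  apply Summable.mul_left
  have h1 : Summable (fun n : ℕ => (n : ℝ) ^ (-(1 + e))) := Real.summable_nat_rpow.2 (by linarith)
  have h2 : Summable (fun n : ℕ => ((n + 1 : ℕ) : ℝ) ^ (-(1 + e))) := (summable_nat_add_iff 1).2 h1
  refine (h2.mul_right (((4 : ℝ) ^ (-(1 + e)))⁻¹)).congr ?_
  intro n
  rw [Real.div_rpow (by positivity) (by norm_num)]
  push_cast
  rw [div_eq_mul_inv]

private theorem R6_deriv_iter {T : ℂ → ℂ} {R D : ℝ} {e : ℝ} (hR : 1 ≤ R) (hD : 0 ≤ D) (he : 0 < e)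
    (hT : ∀ w : ℂ, R < w.re → ‖T w - w - 1‖ ≤ 1 / 4)
    (hd : DifferentiableOn ℂ T {w | R < w.re})
    (hb : ∀ w : ℂ, R < w.re → ‖T w - w - 1‖ ≤ D * w.re ^ (-e)) :
    ∃ B : ℝ, ∀ w : ℂ, R + 1 < w.re → ∀ n : ℕ, ‖deriv (T^[n]) w‖ ≤ B := by
  set a : ℕ → ℝ := fun n => D * (R + 1) * (((n : ℝ) + 1) / 4) ^ (-(1 + e)) with ha
  have ha0 : ∀ n, 0 ≤ a n := by
    intro n
    rw [ha]
    have : 0 ≤ (((n : ℝ) + 1) / 4) ^ (-(1 + e)) := Real.rpow_nonneg (by positivity) _
    have h2 : 0 ≤ D * (R + 1) := mul_nonneg hD (by linarith)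
    exact mul_nonneg h2 this
  have hsum : Summable a := R6_summable he _
  refine ⟨Real.exp (∑' n, a n), fun w hw n => ?_⟩
  have key : ‖deriv (T^[n]) w‖ ≤ Real.exp (∑ j ∈ Finset.range n, a j) := by
    induction n with
    | zero =>
      rw [Function.iterate_zero, deriv_id]
      simp
    | succ n ih =>
      have hRw : R < w.re := by linarith
      have h0 : (0 : ℝ) ≤ (n : ℝ) / 2 := by positivity
      have h1 := R6_re_iter hT hRw n
      have h2 : R + 1 < (T^[n] w).re := by linarith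
      have hmem : (T^[n] w) ∈ {w : ℂ | R < w.re} := by
        show R < (T^[n] w).re
        linarith
      have hmem' : w ∈ {w : ℂ | R < w.re} := hRw
      have hd1 : DifferentiableAt ℂ T (T^[n] w) := (hd _ hmem).differentiableAt ((R6_open R).mem_nhds hmem)
      have hd2 : DifferentiableAt ℂ (T^[n]) w :=
        ((R6_diff_iter hT hd n) w hmem').differentiableAt ((R6_open R).mem_nhds hmem')
      rw [Function.iterate_succ', deriv_comp w hd1 hd2, norm_mul, Finset.sum_range_succ, add_comm,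
        Real.exp_add]
      apply mul_le_mul _ ih (norm_nonneg _) (Real.exp_pos _).le
      have h3 := R6_deriv_T hR hD he hd hb h2
      have h4 : (((T^[n] w).re) / 2) ^ (-(1 + e)) ≤ (((n : ℝ) + 1) / 4) ^ (-(1 + e)) := by
        apply Real.rpow_le_rpow_of_nonpos (by positivity) _ (by linarith)
        have hn : (0 : ℝ) ≤ n := Nat.cast_nonneg n
        linarith
      have h5 : D * (R + 1) * (((T^[n] w).re) / 2) ^ (-(1 + e)) ≤ a n := by
        rw [ha]
        exact mul_le_mul_of_nonneg_left h4 (mul_nonneg hD (by linarith))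
      calc ‖deriv T (T^[n] w)‖ ≤ 1 + D * (R + 1) * (((T^[n] w).re) / 2) ^ (-(1 + e)) := h3
        _ ≤ a n + 1 := by linarith
        _ ≤ Real.exp (a n) := Real.add_one_le_exp _
  refine key.trans (Real.exp_le_exp.2 ?_)
  exact hsum.sum_le_tsum _ (fun n _ => ha0 n)

theorem exists_petalPar {F : ℂ → ℂ} {A : ℂ} {k : ℕ} (h : Par F A k) :
    ∃ R β T, PetalPar F A k R β T := by
  obtain ⟨r, hr, C, hC, hstep⟩ := Yc_step h
  obtain ⟨G, hG, hG0, hF⟩ := h.ex
  have hk := h.one_le
  have hkR : (0 : ℝ) < k := by exact_mod_cast hk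
  have hkC : (k : ℂ) ≠ 0 := by exact_mod_cast (by omega : k ≠ 0)
  obtain ⟨c0, hc0⟩ := IsAlgClosed.exists_pow_nat_eq (-1 / ((k : ℂ) * A)) (by omega : 0 < k)
  have hkA : (k : ℂ) * A ≠ 0 := mul_ne_zero hkC h.ne_zero
  have hc1 : (k : ℂ) * A * c0 ^ k = -1 := by
    rw [hc0, mul_div_cancel₀ _ hkA]
  have hcne : c0 ≠ 0 := by
    rintro rfl
    rw [zero_pow (by omega), mul_zero] at hc1
    norm_num at hc1
  set β : ℂ → ℂ := R6_beta c0 k with hβ
  have htend : Tendsto β (comap (fun w : ℂ => w.re) atTop) (𝓝 0) := R6_beta_tend c0 hk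
  -- the function `u`
  set H : ℂ → ℂ := fun z => z ^ k * G z with hH
  have hHc : Continuous H := (continuous_id.pow k).mul hG.continuous
  have hH0 : H 0 = 0 := by
    rw [hH]
    show (0 : ℂ) ^ k * G 0 = 0
    rw [zero_pow (by omega), zero_mul]
  have hHt : Tendsto (fun w => H (β w)) (comap (fun w : ℂ => w.re) atTop) (𝓝 0) := by
    have := (hHc.tendsto 0).comp htend
    rw [hH0] at this
    exact this
  have e1 : ∀ᶠ w in comap (fun w : ℂ => w.re) atTop, ‖β w‖ < r := by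
    have := htend.norm
    rw [norm_zero] at this
    exact this.eventually (gt_mem_nhds hr)
  have e2 : ∀ᶠ w in comap (fun w : ℂ => w.re) atTop, C * ‖β w‖ < 1 / 4 := by
    have := htend.norm.const_mul C
    rw [norm_zero, mul_zero] at this
    exact this.eventually (gt_mem_nhds (by norm_num))
  have e3 : ∀ᶠ w in comap (fun w : ℂ => w.re) atTop, ‖H (β w)‖ < 1 / (2 * k) := by
    have := hHt.norm
    rw [norm_zero] at this
    exact this.eventually (gt_mem_nhds (by positivity))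
  obtain ⟨R, hR1, hR⟩ := R6_ev (e1.and (e2.and e3))
  have hpos : ∀ w : ℂ, R < w.re → 0 < w.re := fun w hw => by linarith
  set T : ℂ → ℂ := fun w => Yc A k (F (β w)) with hTdef
  have hYβ : ∀ w : ℂ, Yc A k (β w) = w := fun w => R6_Y_beta hk hc1 w
  have hβne : ∀ w : ℂ, 0 < w.re → β w ≠ 0 := fun w hw => R6_beta_ne hcne k hw
  have hTb : ∀ w : ℂ, R < w.re → ‖T w - w - 1‖ ≤ C * ‖β w‖ := by
    intro w hw
    have h1 := (hstep (β w) (hβne w (hpos w hw)) (hR w hw).1).2
    rw [hYβ w] at h1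
    exact h1
  have hT14 : ∀ w : ℂ, R < w.re → ‖T w - w - 1‖ ≤ 1 / 4 := fun w hw =>
    (hTb w hw).trans (hR w hw).2.1.le
  have hFd : Differentiable ℂ F := by
    have : F = fun z => z + z ^ (k + 1) * G z := funext hF
    rw [this]
    exact differentiable_id.add ((differentiable_id.pow (k + 1)).mul hG)
  have hβd : DifferentiableOn ℂ β {w | 0 < w.re} := R6_beta_diff c0 k
  have hTd : DifferentiableOn ℂ T {w | R < w.re} := by
    have hβd' : DifferentiableOn ℂ β {w | R < w.re} := hβd.mono (fun w hw => hpos w hw)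
    have h1 : DifferentiableOn ℂ (fun w => F (β w)) {w | R < w.re} := hFd.comp_differentiableOn hβd'
    rw [hTdef]
    unfold Yc
    refine (differentiableOn_const (-1)).div ((h1.pow k).const_mul _) ?_
    intro w hw
    have h2 := (hstep (β w) (hβne w (hpos w hw)) (hR w hw).1).1
    exact mul_ne_zero hkA (pow_ne_zero k h2)
  have hconj : ∀ w : ℂ, R < w.re → F (β w) = β (T w) := by
    intro w hw
    have hw0 := hpos w hw
    set u : ℂ := H (β w) with hu
    have hu1 : ‖u‖ < 1 / (2 * k) := (hR w hw).2.2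
    have hk1 : (1 : ℝ) ≤ k := by exact_mod_cast hk
    have hu2 : ‖u‖ ≤ 1 / 2 := by
      refine hu1.le.trans ?_
      apply one_div_le_one_div_of_le (by norm_num)
      linarith
    have hFu : F (β w) = β w * (1 + u) := by
      rw [hF, hu, hH]
      ring
    have hne1 : (1 + u) ≠ 0 := by
      intro h0
      have h1 : u = -1 := by linear_combination h0
      rw [h1, norm_neg, norm_one] at hu2
      norm_num at hu2
    set ℓ : ℂ := Complex.log (1 + u) with hℓ
    have hexp : Complex.exp ℓ = 1 + u := Complex.exp_log hne1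
    have hℓn : ‖ℓ‖ ≤ 3 / 2 * ‖u‖ := Complex.norm_log_one_add_half_le_self hu2
    have hTw : T w = w * Complex.exp (-(k : ℂ) * ℓ) := by
      rw [hTdef]
      show Yc A k (F (β w)) = w * Complex.exp (-(k : ℂ) * ℓ)
      have h1 : Complex.exp (-(k : ℂ) * ℓ) = ((1 + u) ^ k)⁻¹ := by
        rw [neg_mul, Complex.exp_neg, Complex.exp_nat_mul, hexp]
      rw [h1, hFu]
      have h2 := hYβ w
      unfold Yc at h2 ⊢
      rw [mul_pow]
      conv_rhs => rw [← h2]
      rw [← mul_assoc, div_mul_eq_mul_div, ← div_eq_mul_inv, div_div, mul_comm ((1 + u) ^ k)]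
    have him : |(Complex.log w + -(k : ℂ) * ℓ).im| < Real.pi := by
      rw [Complex.add_im]
      have h1 : |(Complex.log w).im| < Real.pi / 2 := by
        rw [Complex.log_im]
        exact Complex.abs_arg_lt_pi_div_two_iff.2 (Or.inl hw0)
      have h2 : |(-(k : ℂ) * ℓ).im| ≤ 3 / 4 := by
        refine (Complex.abs_im_le_norm _).trans ?_
        rw [norm_mul, norm_neg, Complex.norm_natCast]
        calc (k : ℝ) * ‖ℓ‖ ≤ k * (3 / 2 * (1 / (2 * k))) := by
              apply mul_le_mul_of_nonneg_left _ hkR.le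
              linarith
          _ = 3 / 4 := by
              field_simp
              norm_num
      have h3 := Real.pi_gt_three
      calc |(Complex.log w).im + (-(k : ℂ) * ℓ).im| ≤ |(Complex.log w).im| + |(-(k : ℂ) * ℓ).im| :=
            abs_add_le _ _
        _ ≤ Real.pi / 2 + 3 / 4 := by linarith
        _ < Real.pi := by linarith
    rw [hTw, hβ, R6_beta_exp hw0 (abs_lt.1 him).1 (abs_lt.1 him).2.le, ← hβ, hFu, ← hexp]
    congr 2
    push_cast
    field_simp
  refine ⟨R, β, T, ⟨hR1, hβd, hβne, fun w _ => hYβ w, hTd, hconj, hT14, ?_, htend⟩⟩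
  refine R6_deriv_iter (D := C * ‖c0‖) (e := 1 / (k : ℝ)) hR1 (mul_nonneg hC (norm_nonneg _)) (by positivity)
    hT14 hTd ?_
  intro w hw
  refine (hTb w hw).trans ?_
  rw [hβ, R6_norm_beta, mul_assoc]
  apply mul_le_mul_of_nonneg_left _ hC
  apply mul_le_mul_of_nonneg_left _ (norm_nonneg _)
  exact Real.rpow_le_rpow_of_nonpos (hpos w hw) R6_re_le (by
    have : 0 < 1 / (k : ℝ) := by positivity
    linarith)

namespace PetalPar

variable {F : ℂ → ℂ} {A : ℂ} {k : ℕ} {R : ℝ} {β T : ℂ → ℂ}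

theorem deriv_ne_zero (h : PetalPar F A k R β T) {w : ℂ} (hw : 0 < w.re) : deriv β w ≠ 0 := by
  intro h0
  have hmem : {w : ℂ | 0 < w.re} ∈ 𝓝 w := (isOpen_lt continuous_const Complex.continuous_re).mem_nhds hw
  have hd : DifferentiableAt ℂ β w := (h.diff w hw).differentiableAt hmem
  have hne := h.ne_zero w hw
  have hβ : HasDerivAt β 0 w := by
    have := hd.hasDerivAt
    rwa [h0] at this
  have h1 : (fun z => Yc A k (β z)) =ᶠ[𝓝 w] id := by
    filter_upwards [hmem] with z hz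
    exact h.Y_beta z hz
  have hkA : (k : ℂ) * A ≠ 0 := by
    intro h2
    have h3 := h.Y_beta w hw
    unfold Yc at h3
    rw [h2, zero_mul, div_zero] at h3
    rw [← h3] at hw
    simp at hw
  have h4 : HasDerivAt (fun z => Yc A k (β z)) 0 w := by
    have h5 : HasDerivAt (fun z => (k : ℂ) * A * β z ^ k) 0 w := by
      have := (hβ.pow k).const_mul ((k : ℂ) * A)
      simpa using this
    have h6 : HasDerivAt (fun z => (k : ℂ) * A * β z ^ k) 0 w := h5
    have h7 := (hasDerivAt_const w (-1 : ℂ)).div h6 (mul_ne_zero hkA (pow_ne_zero k hne))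
    unfold Yc
    have h9 : HasDerivAt (fun z => (-1 : ℂ) / ((k : ℂ) * A * β z ^ k))
      ((0 * ((k : ℂ) * A * β w ^ k) - (-1) * 0) / ((k : ℂ) * A * β w ^ k) ^ 2) w := h7
    simpa using h9
  have h8 : HasDerivAt (fun z => Yc A k (β z)) 1 w := (hasDerivAt_id w).congr_of_eventuallyEq h1
  exact zero_ne_one (h4.unique h8)

theorem re_iter (h : PetalPar F A k R β T) {w : ℂ} (hw : R < w.re) (n : ℕ) :
    w.re + n / 2 ≤ (T^[n] w).re :=
  R6_re_iter h.T_step hw n

theorem conj_iter (h : PetalPar F A k R β T) {w : ℂ} (hw : R < w.re) (n : ℕ) :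
    F^[n] (β w) = β (T^[n] w) := by
  induction n with
  | zero => rfl
  | succ n ih =>
    rw [Function.iterate_succ', Function.iterate_succ', Function.comp_apply, Function.comp_apply, ih]
    apply h.conj
    have h1 := h.re_iter hw n
    have h0 : (0 : ℝ) ≤ (n : ℝ) / 2 := by positivity
    linarith

theorem diff_iter (h : PetalPar F A k R β T) (n : ℕ) : DifferentiableOn ℂ (T^[n]) {w | R < w.re} :=
  R6_diff_iter h.T_step h.diffT n

theorem tendsto_iter (h : PetalPar F A k R β T) {w : ℂ} (hw : R < w.re) :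
    Tendsto (fun n => F^[n] (β w)) atTop (𝓝 0) := by
  have h1 : Tendsto (fun n : ℕ => (T^[n] w).re) atTop atTop := by
    refine tendsto_atTop_mono (fun n => h.re_iter hw n) ?_
    apply tendsto_atTop_add_const_left
    exact tendsto_natCast_atTop_atTop.atTop_div_const (by norm_num)
  have h2 : Tendsto (fun n : ℕ => T^[n] w) atTop (comap (fun w : ℂ => w.re) atTop) :=
    tendsto_comap_iff.2 h1
  refine (h.tend.comp h2).congr ?_
  intro n
  exact (h.conj_iter hw n).symm

end PetalPar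

end Pool.Agent.CR
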