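import Pool.Agent.H68.CR.R6

/-!
# CR R7: the critical value enters the attracting petals

`crit_petal`: take `R, β, T` from `exists_petalPar` and `S ≥ R + 2`, `S ≥ R1`, such that for `Re w > S`: `β w` is small; all `β w`, `Re w > R`, lie in `K l`
(`tendsto_iter`: the orbit under `F = (f l)^[M]` is bounded, so the orbit under `f l` is bounded: `mem_K_iff`).
Suppose no iterate `(f l)^[n] (v l)` is a nonzero point with `R1 ≤ Re Yc`. Then `β w ≠ (f l)^[j] (v l)` for all `j` and `Re w > S` (`Y_beta`, `ne_zero`).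
Let `Ω = {Re w > S}` (convex, open), `x0 = S + 1`, `x n = T^[n] x0`, so `Re (x n) ≥ S + 1 + n/2`. By `exists_inv_iter` (with `n * M` iterates) there is `η n`, holomorphic
on `Ω`, `(f l)^[n*M] (η n w) = β w`, `η n (x n) = β x0` (`conj_iter`; `((f l)^[M])^[n] = (f l)^[M*n]`, `Function.iterate_mul`). `‖η n w‖ ≤ 2` since `η n w ∈ K l` (`iter_mem_K`).
Cauchy: `‖deriv (η n) (x n)‖ ≤ 2 / (Re (x n) - S) ≤ 4 / (n + 2)` (`Complex.norm_deriv_le_of_forall_mem_sphere_norm_le`, smaller radii).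
`inv_unique` (on `Ω`, with `β ∘ T^[n]`) gives `η n (T^[n] w) = β w` for `w ∈ Ω`; derivative at `x0`: `deriv β x0 = deriv (η n) (x n) * deriv (T^[n]) x0`, so
`‖deriv β x0‖ ≤ 4 B / (n + 2)` for all `n`, contradiction to `deriv_ne_zero`.
`crit_tendsto`: `exists_par`, `petal` (its `R0`), `crit_petal`: `(f l)^[n0 + q j] (v l) → 0` as `j → ∞`; `(f l)^[i]`, `i < q`, is continuous with value `0` at `0`.
-/

set_option autoImplicit false

open Set Filter Topology

namespace Pool.Agent.CR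

private theorem R7_cont_f (l : ℂ) : Continuous (f l) := by
  unfold f
  fun_prop

private theorem R7_cont_iter (l : ℂ) (i : ℕ) : Continuous ((f l)^[i]) := (R7_cont_f l).iterate i

private theorem R7_iter_zero (l : ℂ) (i : ℕ) : (f l)^[i] 0 = 0 := by
  have h : f l 0 = 0 := by unfold f; simp
  induction i with
  | zero => rfl
  | succ n ih => rw [Function.iterate_succ_apply, h, ih]

private theorem R7_mem_K {l z : ℂ} (hl : ‖l‖ ≤ 1) {M : ℕ} (hM : 1 ≤ M)
    (h : Tendsto (fun n => ((f l)^[M])^[n] z) atTop (𝓝 0)) : z ∈ K l := by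
  by_contra hz
  have h1 : ∃ n : ℕ, 2 < ‖(f l)^[n] z‖ := by
    by_contra h2
    push Not at h2
    exact hz h2
  obtain ⟨n0, hn0⟩ := h1
  have h2 := tendsto_escape hl hn0
  have h3 : Tendsto (fun n : ℕ => ‖(f l)^[n + n0] z‖) atTop atTop := by
    refine h2.congr fun n => ?_
    rw [Function.iterate_add_apply]
  have h4 : Tendsto (fun n : ℕ => ‖(f l)^[n] z‖) atTop atTop := (tendsto_add_atTop_iff_nat n0).1 h3
  have h5 : Tendsto (fun n : ℕ => M * n) atTop atTop :=
    tendsto_id.const_mul_atTop' (by omega)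
  have h6 := h4.comp h5
  have h7 : Tendsto (fun n : ℕ => ‖((f l)^[M])^[n] z‖) atTop atTop := by
    refine h6.congr fun n => ?_
    show ‖(f l)^[M * n] z‖ = _
    rw [Function.iterate_mul]
  have h8 : Tendsto (fun n : ℕ => ‖((f l)^[M])^[n] z‖) atTop (𝓝 ‖(0 : ℂ)‖) := h.norm
  exact not_tendsto_nhds_of_tendsto_atTop h7 _ h8

theorem crit_petal {l : ℂ} (hl : ‖l‖ ≤ 1) {M : ℕ} (hM : 1 ≤ M) {A : ℂ} {k : ℕ}
    (h : Par ((f l)^[M]) A k) (R1 : ℝ) :
    ∃ n, (f l)^[n] (v l) ≠ 0 ∧ R1 ≤ (Yc A k ((f l)^[n] (v l))).re := by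
  by_contra hcon
  push Not at hcon
  obtain ⟨R, β, T, hP⟩ := exists_petalPar h
  obtain ⟨B, hB⟩ := hP.deriv_le
  have hR := hP.R_pos
  set S : ℝ := max (R + 2) R1 with hS
  have hSR : R + 2 ≤ S := le_max_left _ _
  have hSR1 : R1 ≤ S := le_max_right _ _
  set Ω : Set ℂ := {w : ℂ | S < w.re} with hΩ
  have hΩo : IsOpen Ω := isOpen_lt continuous_const Complex.continuous_re
  have hΩc : Convex ℝ Ω := convex_halfSpace_re_gt S
  have hΩR : ∀ w ∈ Ω, R < w.re := fun w hw => by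
    have : S < w.re := hw
    linarith
  have hv : ∀ w ∈ Ω, ∀ j : ℕ, β w ≠ (f l)^[j] (v l) := by
    intro w hw j hj
    have hw' : S < w.re := hw
    have h0 : 0 < w.re := by linarith
    have h1 := hP.ne_zero w h0
    have h2 := hP.Y_beta w h0
    rw [hj] at h1 h2
    have h3 := hcon j h1
    rw [h2] at h3
    linarith
  have hβ : DifferentiableOn ℂ β Ω := hP.diff.mono fun w hw => by
    have : S < w.re := hw
    show 0 < w.re
    linarith
  have hK : ∀ w ∈ Ω, β w ∈ K l := fun w hw => R7_mem_K hl hM (hP.tendsto_iter (hΩR w hw))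
  set x0 : ℂ := ((S + 1 : ℝ) : ℂ) with hx0
  have hx0re : x0.re = S + 1 := by rw [hx0, Complex.ofReal_re]
  have hx0Ω : x0 ∈ Ω := by show S < x0.re; rw [hx0re]; linarith
  have hbound : ∀ n : ℕ, ‖deriv β x0‖ ≤ 8 * |B| / ((n : ℝ) + 1) := by
    intro n
    have hTΩ : ∀ w ∈ Ω, T^[n] w ∈ Ω := by
      intro w hw
      have h1 := hP.re_iter (hΩR w hw) n
      have h2 : S < w.re := hw
      show S < (T^[n] w).re
      have h3 : (0 : ℝ) ≤ (n : ℝ) / 2 := by positivity
      linarith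
    have hconj : ∀ w ∈ Ω, (f l)^[M * n] (β w) = β (T^[n] w) := by
      intro w hw
      rw [Function.iterate_mul]
      exact hP.conj_iter (hΩR w hw) n
    set xn : ℂ := T^[n] x0 with hxn
    have hxnΩ : xn ∈ Ω := hTΩ x0 hx0Ω
    have hxnre : S + 1 + (n : ℝ) / 2 ≤ xn.re := by
      have h1 := hP.re_iter (hΩR x0 hx0Ω) n
      rw [hx0re] at h1
      exact h1
    obtain ⟨η, hη1, hη2, hη3⟩ := exists_inv_iter l hΩo hΩc hβ (n := M * n)
      (fun z hz j _ => hv z hz j) hxnΩ (hconj x0 hx0Ω)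
    have hη4 : ∀ z ∈ Ω, ‖η z‖ ≤ 2 := by
      intro z hz
      have h1 : η z ∈ K l := by
        rw [← iter_mem_K hl (M * n), hη2 z hz]
        exact hK z hz
      have h2 := h1 0
      simpa using h2
    have hdT : DifferentiableOn ℂ (T^[n]) Ω := (hP.diff_iter n).mono fun w hw => hΩR w hw
    have huniq : ∀ z ∈ Ω, η (T^[n] z) = β z := by
      apply inv_unique l (X := ℂ) (Ω := Ω) hΩc.isPreconnected (β := fun w => β (T^[n] w))
        (η := fun w => η (T^[n] w)) (η' := β) (n := M * n)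
      · intro z hz j _
        exact hv _ (hTΩ z hz) j
      · exact hη1.continuousOn.comp hdT.continuousOn hTΩ
      · exact hβ.continuousOn
      · intro z hz
        exact hη2 _ (hTΩ z hz)
      · intro z hz
        exact hconj z hz
      · exact hx0Ω
      · exact hη3
    -- derivative
    have h1 : deriv β x0 = deriv η xn * deriv (T^[n]) x0 := by
      have e1 : β =ᶠ[𝓝 x0] (η ∘ T^[n]) := by
        filter_upwards [hΩo.mem_nhds hx0Ω] with z hz
        exact (huniq z hz).symm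
      rw [e1.deriv_eq]
      have d1 : DifferentiableAt ℂ η xn := hη1.differentiableAt (hΩo.mem_nhds hxnΩ)
      have d2 : DifferentiableAt ℂ (T^[n]) x0 := hdT.differentiableAt (hΩo.mem_nhds hx0Ω)
      rw [deriv_comp x0 d1 d2]
    set ρ : ℝ := ((n : ℝ) + 1) / 4 with hρ
    have hρ0 : 0 < ρ := by positivity
    have hsub : Metric.closedBall xn ρ ⊆ Ω := by
      intro z hz
      rw [Metric.mem_closedBall, dist_eq_norm] at hz
      have h2 : |(z - xn).re| ≤ ‖z - xn‖ := Complex.abs_re_le_norm _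
      have h3 := (abs_le.1 (h2.trans hz)).1
      rw [Complex.sub_re] at h3
      show S < z.re
      have h4 : (0 : ℝ) ≤ n := Nat.cast_nonneg n
      rw [hρ] at h3
      linarith
    have hC : ‖deriv η xn‖ ≤ 2 / ρ := by
      apply Complex.norm_deriv_le_of_forall_mem_sphere_norm_le hρ0
      · apply DifferentiableOn.diffContOnCl
        rw [closure_ball xn hρ0.ne']
        exact hη1.mono hsub
      · intro z hz
        exact hη4 z (hsub (Metric.sphere_subset_closedBall hz))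
    have hB' : ‖deriv (T^[n]) x0‖ ≤ |B| := (hB x0 (by rw [hx0re]; linarith) n).trans (le_abs_self B)
    rw [h1, norm_mul]
    calc ‖deriv η xn‖ * ‖deriv (T^[n]) x0‖ ≤ (2 / ρ) * |B| :=
          mul_le_mul hC hB' (norm_nonneg _) (by positivity)
      _ = 8 * |B| / ((n : ℝ) + 1) := by
          rw [hρ]; field_simp; ring
  have hne := hP.deriv_ne_zero (w := x0) (by rw [hx0re]; linarith)
  have hlim : Tendsto (fun n : ℕ => 8 * |B| / ((n : ℝ) + 1)) atTop (𝓝 0) := by
    have h1 : Tendsto (fun n : ℕ => 8 * |B| * (1 / ((n : ℝ) + 1))) atTop (𝓝 (8 * |B| * 0)) :=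
      tendsto_one_div_add_atTop_nhds_zero_nat.const_mul _
    rw [mul_zero] at h1
    refine h1.congr fun n => ?_
    ring
  have h1 : ‖deriv β x0‖ ≤ 0 := ge_of_tendsto' hlim hbound
  exact hne (norm_le_zero_iff.1 h1)

theorem crit_tendsto {p q : ℕ} (hq : 0 < q) (hc : Nat.Coprime p q) :
    Tendsto (fun n => (f (mu (p / q)))^[n] (v (mu (p / q)))) atTop (𝓝 0) := by
  set l : ℂ := mu (p / q) with hl
  have hl1 : ‖l‖ ≤ 1 := by rw [hl]; exact (norm_mu _).le
  obtain ⟨A, k, _, hpar⟩ := exists_par hq hc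
  obtain ⟨R0, _, hR0⟩ := petal hpar
  obtain ⟨n0, hn1, hn2⟩ := crit_petal hl1 hq hpar R0
  have h1 := (hR0 _ hn1 hn2).2
  set z0 := (f l)^[n0] (v l) with hz0
  rw [Metric.tendsto_atTop]
  intro ε hε
  have h2 : ∀ i : ℕ, ∃ J : ℕ, ∀ j, J ≤ j → ‖(f l)^[i] (((f l)^[q])^[j] z0)‖ < ε := by
    intro i
    have h3 : Tendsto (fun j => (f l)^[i] (((f l)^[q])^[j] z0)) atTop (𝓝 ((f l)^[i] 0)) :=
      ((R7_cont_iter l i).tendsto 0).comp h1
    rw [R7_iter_zero, Metric.tendsto_atTop] at h3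
    obtain ⟨J, hJ⟩ := h3 ε hε
    refine ⟨J, fun j hj => ?_⟩
    have := hJ j hj
    rwa [dist_zero_right] at this
  choose J hJ using h2
  refine ⟨n0 + q * (∑ i ∈ Finset.range q, J i + 1), fun m hm => ?_⟩
  rw [dist_zero_right]
  obtain ⟨s, rfl⟩ : ∃ s, m = s + n0 := ⟨m - n0, by
    have : n0 ≤ m := le_trans (Nat.le_add_right _ _) hm
    omega⟩
  rw [Function.iterate_add_apply]
  have hs : q * (∑ i ∈ Finset.range q, J i + 1) ≤ s := by omega
  obtain ⟨i, j, hmod, hsij⟩ : ∃ i j, i < q ∧ s = i + q * j :=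
    ⟨s % q, s / q, Nat.mod_lt s hq, (Nat.mod_add_div s q).symm⟩
  have hj : ∑ i ∈ Finset.range q, J i + 1 ≤ j := by
    by_contra hcon
    push Not at hcon
    have h6 : q * (j + 1) ≤ q * (∑ i ∈ Finset.range q, J i + 1) := Nat.mul_le_mul_left q hcon
    have h7 : q * (j + 1) = q * j + q := by ring
    omega
  have hJi : J i ≤ ∑ i ∈ Finset.range q, J i :=
    Finset.single_le_sum (f := J) (fun _ _ => Nat.zero_le _) (Finset.mem_range.2 hmod)
  have h4 := hJ i j (by omega)
  have h5 : (f l)^[s] z0 = (f l)^[i] (((f l)^[q])^[j] z0) := by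
    rw [hsij, Function.iterate_add_apply, Function.iterate_mul]
  rw [← hz0, h5]
  exact h4

end Pool.Agent.CR
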