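import Pool.Agent.H68.CR.R4
import Pool.Agent.H68.CR.R7

/-!
# CR R8: landing points different from `0` are repelling (`l` a root of unity)

`l = mu (p/q)`. As `(f l)^[n] (v l) → 0 ≠ ζ` and `(f l)^[n] (v l) ≠ ζ` for all `n` (otherwise `(f l)^[n + M j] (v l) = ζ` for all `j`), there is `δ > 0` such that
`ball ζ δ` contains no `(f l)^[n] (v l)`. Suppose `‖μ‖ ≤ 1`, `μ = deriv F ζ`, `F = (f l)^[M]`. By `exists_inv_iter` (`β = id`, `x0 = ζ`, `y0 = ζ`, `n M` iterates) there are `η n` on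
`ball ζ δ` with `F^[n] (η n z) = z`, `η n ζ = ζ`; they are injective; `deriv (η n) ζ * μ^n = 1` (chain rule), so `‖deriv (η n) ζ‖ ≥ 1`. By `koebe`
`ball ζ (κ δ) ⊆ η n '' ball ζ δ`, so `F^[n] z ∈ ball ζ δ` for all `z ∈ ball ζ (κ δ)` and all `n`: the orbit of `z` under `F`, hence under `f l`, is
bounded, `z ∈ K l` (`mem_K_iff`). But `ray l θ t ∉ K l` is in this ball for small `t`.
-/

set_option autoImplicit false

open Set Filter Topology

namespace Pool.Agent.CR

private theorem R8_diff (l : ℂ) (n : ℕ) : Differentiable ℂ ((f l)^[n]) := by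
  have h1 : Differentiable ℂ (f l) := by
    have : f l = fun z => z ^ 2 + l * z := rfl
    rw [this]
    fun_prop
  exact h1.iterate n

private theorem R8_avoid {p q : ℕ} (hq : 0 < q) (hc : Nat.Coprime p q) {M : ℕ} (hM : 1 ≤ M)
    {ζ : ℂ} (hF : (f (mu (p / q)))^[M] ζ = ζ) (h0 : ζ ≠ 0) :
    ∃ δ > 0, ∀ z ∈ Metric.ball ζ δ, ∀ n : ℕ, z ≠ (f (mu (p / q)))^[n] (v (mu (p / q))) := by
  set l : ℂ := mu (p / q) with hl
  have hlim : Tendsto (fun n => (f l)^[n] (v l)) atTop (𝓝 0) := crit_tendsto hq hc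
  have hne : ∀ n, (f l)^[n] (v l) ≠ ζ := by
    intro n hn
    have h1 : ∀ j : ℕ, (f l)^[M * j + n] (v l) = ζ := by
      intro j
      rw [Function.iterate_add_apply, hn, Function.iterate_mul]
      exact Function.iterate_fixed hF j
    have h2 : Tendsto (fun j : ℕ => M * j + n) atTop atTop := by
      refine tendsto_atTop_mono (fun j => ?_) tendsto_id
      show j ≤ M * j + n
      have := Nat.le_mul_of_pos_left j (show 0 < M by omega)
      omega
    have h3 := hlim.comp h2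
    have h4 : (fun n => (f l)^[n] (v l)) ∘ (fun j : ℕ => M * j + n) = fun _ => ζ :=
      funext h1
    rw [h4] at h3
    exact h0 (tendsto_nhds_unique tendsto_const_nhds h3)
  have hn0 : 0 < ‖ζ‖ := norm_pos_iff.2 h0
  have h1 : ∀ᶠ n in atTop, ‖(f l)^[n] (v l)‖ < ‖ζ‖ / 2 := by
    have h2 := hlim.norm
    rw [norm_zero] at h2
    exact h2.eventually_lt_const (by positivity)
  obtain ⟨N, hN⟩ := eventually_atTop.1 h1
  -- a radius for the first `N` points
  have h2 : ∀ N : ℕ, ∃ δ > 0, ∀ n < N, δ ≤ ‖(f l)^[n] (v l) - ζ‖ := by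
    intro N
    induction N with
    | zero => exact ⟨1, one_pos, fun n hn => absurd hn (Nat.not_lt_zero n)⟩
    | succ N ih =>
      obtain ⟨δ, hδ, h3⟩ := ih
      refine ⟨min δ ‖(f l)^[N] (v l) - ζ‖, lt_min hδ (norm_pos_iff.2 (sub_ne_zero.2 (hne N))),
        fun n hn => ?_⟩
      rcases Nat.lt_succ_iff_lt_or_eq.1 hn with h4 | h4
      · exact (min_le_left _ _).trans (h3 n h4)
      · rw [h4]
        exact min_le_right _ _
  obtain ⟨δ, hδ, h3⟩ := h2 N
  refine ⟨min δ (‖ζ‖ / 2), lt_min hδ (by positivity), fun z hz n hzn => ?_⟩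
  rw [mem_ball_iff_norm, hzn] at hz
  rcases lt_or_ge n N with h4 | h4
  · have h5 := h3 n h4
    have h6 := hz.trans_le (min_le_left _ _)
    linarith
  · have h5 := hN n h4
    have h6 := hz.trans_le (min_le_right _ _)
    have h7 : ‖ζ‖ ≤ ‖(f l)^[n] (v l)‖ + ‖(f l)^[n] (v l) - ζ‖ := by
      have := norm_sub_le ((f l)^[n] (v l)) ((f l)^[n] (v l) - ζ)
      simpa using this
    linarith

theorem land_repelling {p q : ℕ} (hq : 0 < q) (hc : Nat.Coprime p q) {M : ℕ} (hM : 1 ≤ M) {θ : ℝ}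
    {ζ : ℂ} (hF : (f (mu (p / q)))^[M] ζ = ζ) (h0 : ζ ≠ 0)
    (hland : Tendsto (ray (mu (p / q)) θ) (𝓝[>] 0) (𝓝 ζ)) :
    1 < ‖deriv ((f (mu (p / q)))^[M]) ζ‖ := by
  obtain ⟨δ, hδ, hav⟩ := R8_avoid hq hc hM hF h0
  set l : ℂ := mu (p / q) with hl
  have hl1 : ‖l‖ ≤ 1 := (norm_mu _).le
  obtain ⟨κ, hκ, hK⟩ := koebe
  by_contra hcon
  rw [not_lt] at hcon
  set μ : ℂ := deriv ((f l)^[M]) ζ with hμ
  have hμd : HasDerivAt ((f l)^[M]) μ ζ := (R8_diff l M ζ).hasDerivAt
  -- points near `ζ` have bounded orbits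
  have hbd : ∀ z ∈ Metric.ball ζ (κ * δ), ∀ n : ℕ, ((f l)^[M])^[n] z ∈ Metric.ball ζ δ := by
    intro z hz n
    have hfix : (f l)^[M * n] ζ = ζ := by
      rw [Function.iterate_mul]
      exact Function.iterate_fixed hF n
    obtain ⟨η, hη, h1, h2⟩ := exists_inv_iter l Metric.isOpen_ball (convex_ball ζ δ)
      (β := fun z => z) differentiableOn_id (n := M * n) (fun z hz k _ => hav z hz k)
      (Metric.mem_ball_self hδ) (y0 := ζ) hfix
    have hinj : InjOn η (Metric.ball ζ δ) := by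
      intro a ha b hb hab
      rw [← h1 a ha, ← h1 b hb, hab]
    have hd1 : HasDerivAt η (deriv η ζ) ζ :=
      (hη.differentiableAt (Metric.isOpen_ball.mem_nhds (Metric.mem_ball_self hδ))).hasDerivAt
    have hd2 : HasDerivAt ((f l)^[M * n]) (μ ^ n) ζ := by
      rw [Function.iterate_mul]
      exact HasDerivAt.iterate ζ hμd hF n
    have hd3 : HasDerivAt ((f l)^[M * n] ∘ η) (μ ^ n * deriv η ζ) ζ := by
      rw [← h2] at hd2
      exact HasDerivAt.comp ζ (by rwa [h2] at hd2 ⊢) hd1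
    have hd4 : HasDerivAt ((f l)^[M * n] ∘ η) 1 ζ := by
      refine (hasDerivAt_id ζ).congr_of_eventuallyEq ?_
      filter_upwards [Metric.isOpen_ball.mem_nhds (Metric.mem_ball_self hδ)] with z hz
      exact h1 z hz
    have h3 := hd3.unique hd4
    have h4 : 1 ≤ ‖deriv η ζ‖ := by
      have h5 := congrArg norm h3
      rw [norm_mul, norm_pow, norm_one] at h5
      have h6 : ‖μ‖ ^ n ≤ 1 := pow_le_one₀ (norm_nonneg _) hcon
      nlinarith [norm_nonneg (deriv η ζ)]
    have h5 := hK η ζ δ hδ hη hinj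
    rw [h2] at h5
    have h6 : z ∈ Metric.ball ζ (κ * δ * ‖deriv η ζ‖) := by
      refine Metric.ball_subset_ball ?_ hz
      have : 0 ≤ κ * δ := by positivity
      nlinarith
    obtain ⟨y, hy, hyz⟩ := h5 h6
    have h7 := h1 y hy
    rw [hyz, Function.iterate_mul] at h7
    rw [h7]
    exact hy
  -- so they belong to `K l`
  have hKl : ∀ z ∈ Metric.ball ζ (κ * δ), z ∈ K l := by
    intro z hz
    rw [mem_K_iff hl1]
    have hcomp : IsCompact (Metric.closedBall ζ δ) := isCompact_closedBall ζ δ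
    have h1 : ∀ i : ℕ, ∃ C : ℝ, ∀ y ∈ Metric.closedBall ζ δ, ‖(f l)^[i] y‖ ≤ C := fun i =>
      hcomp.exists_bound_of_continuousOn (R8_diff l i).continuous.continuousOn
    choose C hC using h1
    refine ⟨∑ i ∈ Finset.range M, |C i|, fun n => ?_⟩
    have h2 : n = n % M + M * (n / M) := (Nat.mod_add_div n M).symm
    have h3 : n % M < M := Nat.mod_lt n (by omega)
    rw [h2, Function.iterate_add_apply, Function.iterate_mul]
    have h4 := hC (n % M) _ (Metric.ball_subset_closedBall (hbd z hz (n / M)))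
    refine h4.trans ((le_abs_self _).trans ?_)
    exact Finset.single_le_sum (f := fun i => |C i|) (fun i _ => abs_nonneg _)
      (Finset.mem_range.2 h3)
  have h1 : ∀ᶠ t in 𝓝[>] (0 : ℝ), ray l θ t ∈ Metric.ball ζ (κ * δ) :=
    hland (Metric.ball_mem_nhds ζ (by positivity))
  have h2 : ∀ᶠ t in 𝓝[>] (0 : ℝ), 0 < t := self_mem_nhdsWithin
  obtain ⟨t, ht1, ht2⟩ := (h1.and h2).exists
  exact ray_notMem hl1 θ ht2 (hKl _ ht1)

end Pool.Agent.CR
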